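import Pool.Agent.H45.TC.Iso

set_option autoImplicit false

/-!
# Directions as angles, faces of a convex figure
-/

namespace Pool.Agent.H45.TC

open Pool.Agent.H90.Clone Pool.Agent.H21.Tri Pool.Agent.H50.CP Complex Set Pointwise

/-- the unit vector of angle `θ` -/
noncomputable def ex (θ : ℝ) : ℂ := Complex.exp (θ * I)

/-- `p` is a point of `K` that is extreme in the direction `θ` -/
def Top (K : Set ℂ) (θ : ℝ) (p : ℂ) : Prop := p ∈ K ∧ ∀ x ∈ K, ip x (ex θ) ≤ ip p (ex θ)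

/-- the first point of the face in the direction `θ` -/
def First (K : Set ℂ) (θ : ℝ) (p : ℂ) : Prop :=
  Top K θ p ∧ ∀ f, Top K θ f → ip p (I * ex θ) ≤ ip f (I * ex θ)

/-- the last point of the face in the direction `θ` -/
def Last (K : Set ℂ) (θ : ℝ) (p : ℂ) : Prop :=
  Top K θ p ∧ ∀ f, Top K θ f → ip f (I * ex θ) ≤ ip p (I * ex θ)

/-- `K` is symmetric about the origin -/
def CSym (K : Set ℂ) : Prop := ∀ x ∈ K, -x ∈ K

lemma ex_re (θ : ℝ) : (ex θ).re = Real.cos θ := by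
  rw [ex, exp_ofReal_mul_I_re]

lemma ex_im (θ : ℝ) : (ex θ).im = Real.sin θ := by
  rw [ex, exp_ofReal_mul_I_im]

lemma ip_ex (x : ℂ) (θ : ℝ) : ip x (ex θ) = x.re * Real.cos θ + x.im * Real.sin θ := by
  rw [ip, ex_re, ex_im]

lemma ip_Iex (x : ℂ) (θ : ℝ) : ip x (I * ex θ) = -(x.re * Real.sin θ) + x.im * Real.cos θ := by
  rw [ip, mul_re, mul_im, ex_re, ex_im, I_re, I_im]
  ring

lemma norm_ex (θ : ℝ) : ‖ex θ‖ = 1 := norm_exp_ofReal_mul_I θ

lemma ex_ne (θ : ℝ) : ex θ ≠ 0 := Complex.exp_ne_zero _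

lemma ex_add_ex (θ δ : ℝ) : ex (θ + δ) = ex δ * ex θ := by
  rw [ex, ex, ex, ← Complex.exp_add]
  congr 1
  push_cast
  ring

lemma ex_add_pi (θ : ℝ) : ex (θ + Real.pi) = -ex θ := by
  rw [ex_add_ex]
  have : ex Real.pi = -1 := by rw [ex, exp_pi_mul_I]
  rw [this]
  ring

lemma ex_add_two_pi (θ : ℝ) : ex (θ + 2 * Real.pi) = ex θ := by
  have : θ + 2 * Real.pi = (θ + Real.pi) + Real.pi := by ring
  rw [this, ex_add_pi, ex_add_pi, neg_neg]

lemma ip_ex_add (x : ℂ) (θ δ : ℝ) : ip x (ex (θ + δ)) =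
    Real.cos δ * ip x (ex θ) + Real.sin δ * ip x (I * ex θ) := by
  rw [ip_ex, ip_ex, ip_Iex, Real.cos_add, Real.sin_add]
  ring

lemma ip_Iex_add (x : ℂ) (θ δ : ℝ) : ip x (I * ex (θ + δ)) =
    Real.cos δ * ip x (I * ex θ) - Real.sin δ * ip x (ex θ) := by
  rw [ip_Iex, ip_Iex, ip_ex, Real.cos_add, Real.sin_add]
  ring

/-- the version with a difference of angles -/
lemma ip_ex_sub (x : ℂ) (θ s : ℝ) : ip x (ex s) =
    Real.cos (s - θ) * ip x (ex θ) + Real.sin (s - θ) * ip x (I * ex θ) := by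
  have h := ip_ex_add x θ (s - θ)
  rwa [add_sub_cancel] at h

lemma ip_Iex_sub (x : ℂ) (θ s : ℝ) : ip x (I * ex s) =
    Real.cos (s - θ) * ip x (I * ex θ) - Real.sin (s - θ) * ip x (ex θ) := by
  have h := ip_Iex_add x θ (s - θ)
  rwa [add_sub_cancel] at h

lemma ip_sq (x : ℂ) (θ : ℝ) : ip x (ex θ) ^ 2 + ip x (I * ex θ) ^ 2 = ‖x‖ ^ 2 := by
  rw [ip_ex, ip_Iex, Complex.sq_norm, Complex.normSq_apply]
  linear_combination (x.re * x.re + x.im * x.im) * Real.sin_sq_add_cos_sq θ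

lemma ip_ex_le_norm (x : ℂ) (θ : ℝ) : ip x (ex θ) ≤ ‖x‖ := by
  have h := ip_sq x θ
  have h1 : ip x (ex θ) ^ 2 ≤ ‖x‖ ^ 2 := by nlinarith [sq_nonneg (ip x (I * ex θ))]
  exact (abs_le_of_sq_le_sq' h1 (norm_nonneg x)).2

lemma eq_of_ip {x y : ℂ} {θ : ℝ} (h1 : ip x (ex θ) = ip y (ex θ))
    (h2 : ip x (I * ex θ) = ip y (I * ex θ)) : x = y := by
  have h := ip_sq (x - y) θ
  rw [ip_sub_left, ip_sub_left, h1, h2, sub_self, sub_self] at h
  have h3 : ‖x - y‖ = 0 := by nlinarith [norm_nonneg (x - y)]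
  exact sub_eq_zero.1 (norm_eq_zero.1 h3)

lemma ip_pol (R c θ : ℝ) : ip ((R : ℂ) * ex c) (ex θ) = R * Real.cos (c - θ) := by
  rw [ip_smul_left, ip_ex, ex_re, ex_im, Real.cos_sub]

lemma ip_pol_I (R c θ : ℝ) : ip ((R : ℂ) * ex c) (I * ex θ) = R * Real.sin (c - θ) := by
  rw [ip_smul_left, ip_Iex, ex_re, ex_im, Real.sin_sub]
  ring

/-- polar coordinates near a given angle -/
lemma exists_pol (x : ℂ) (θ : ℝ) : ∃ c : ℝ, x = (‖x‖ : ℂ) * ex c ∧ θ - Real.pi < c ∧
    c ≤ θ + Real.pi := by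
  set y := x * ex (-θ) with hy
  have hn : ‖y‖ = ‖x‖ := by rw [hy, norm_mul, norm_ex, mul_one]
  have h1 : y = (‖x‖ : ℂ) * ex (arg y) := by
    have := norm_mul_exp_arg_mul_I y
    rw [hn] at this
    exact this.symm
  refine ⟨θ + arg y, ?_, ?_, ?_⟩
  · have h2 : x = y * ex θ := by
      rw [hy, mul_assoc, ← ex_add_ex]
      have : θ + -θ = 0 := by ring
      rw [this, ex]
      simp
    conv_lhs => rw [h2, h1]
    rw [ex_add_ex]
    ring
  · linarith [neg_pi_lt_arg y]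
  · linarith [arg_le_pi y]

lemma exists_ang {d : ℂ} (hd : ‖d‖ = 1) (θ : ℝ) : ∃ c : ℝ, d = ex c ∧ θ - Real.pi < c ∧
    c ≤ θ + Real.pi := by
  obtain ⟨c, h1, h2, h3⟩ := exists_pol d θ
  rw [hd, ofReal_one, one_mul] at h1
  exact ⟨c, h1, h2, h3⟩

lemma ip_cont_left (e : ℂ) : Continuous fun x : ℂ => ip x e := by
  unfold ip
  fun_prop

lemma ip_cont_ang (x : ℂ) : Continuous fun θ : ℝ => ip x (ex θ) := by
  simp only [ip_ex]
  fun_prop

lemma ip_cont_ang_I (x : ℂ) : Continuous fun θ : ℝ => ip x (I * ex θ) := by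
  simp only [ip_Iex]
  fun_prop

lemma top_exists {K : Set ℂ} (hK : IsConvexFigure K) (θ : ℝ) : ∃ p, Top K θ p := by
  obtain ⟨p, hp, h⟩ := exists_top hK (ex θ)
  exact ⟨p, hp, h⟩

lemma first_exists {K : Set ℂ} (hK : IsConvexFigure K) (θ : ℝ) : ∃ p, First K θ p := by
  obtain ⟨p, hp, h⟩ := exists_top hK (ex θ)
  have hT : IsCompact (K ∩ {x | ip x (ex θ) = ip p (ex θ)}) :=
    hK.1.inter_right (isClosed_eq (ip_cont_left _) continuous_const)
  obtain ⟨q, ⟨hq, hq'⟩, hm⟩ := hT.exists_isMinOn ⟨p, hp, rfl⟩ (ip_cont_left (I * ex θ)).continuousOn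
  have hq' : ip q (ex θ) = ip p (ex θ) := hq'
  refine ⟨q, ⟨hq, fun x hx => by rw [hq']; exact h x hx⟩, fun f hf => ?_⟩
  exact hm ⟨hf.1, le_antisymm (h f hf.1) (hf.2 p hp)⟩

lemma last_exists {K : Set ℂ} (hK : IsConvexFigure K) (θ : ℝ) : ∃ p, Last K θ p := by
  obtain ⟨p, hp, h⟩ := exists_top hK (ex θ)
  have hT : IsCompact (K ∩ {x | ip x (ex θ) = ip p (ex θ)}) :=
    hK.1.inter_right (isClosed_eq (ip_cont_left _) continuous_const)
  obtain ⟨q, ⟨hq, hq'⟩, hm⟩ := hT.exists_isMaxOn ⟨p, hp, rfl⟩ (ip_cont_left (I * ex θ)).continuousOn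
  have hq' : ip q (ex θ) = ip p (ex θ) := hq'
  refine ⟨q, ⟨hq, fun x hx => by rw [hq']; exact h x hx⟩, fun f hf => ?_⟩
  exact hm ⟨hf.1, le_antisymm (h f hf.1) (hf.2 p hp)⟩

/-- a point of the face of maximal norm -/
lemma topmax_exists {K : Set ℂ} (hK : IsConvexFigure K) (θ : ℝ) : ∃ p, Top K θ p ∧
    ∀ f, Top K θ f → ‖f‖ ≤ ‖p‖ := by
  obtain ⟨p, hp, h⟩ := exists_top hK (ex θ)
  have hT : IsCompact (K ∩ {x | ip x (ex θ) = ip p (ex θ)}) :=
    hK.1.inter_right (isClosed_eq (ip_cont_left _) continuous_const)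
  obtain ⟨q, ⟨hq, hq'⟩, hm⟩ := hT.exists_isMaxOn ⟨p, hp, rfl⟩ continuous_norm.continuousOn
  have hq' : ip q (ex θ) = ip p (ex θ) := hq'
  refine ⟨q, ⟨hq, fun x hx => by rw [hq']; exact h x hx⟩, fun f hf => ?_⟩
  exact hm ⟨hf.1, le_antisymm (h f hf.1) (hf.2 p hp)⟩

lemma Top.eq {K : Set ℂ} {θ : ℝ} {p q : ℂ} (hp : Top K θ p) (hq : Top K θ q) :
    ip p (ex θ) = ip q (ex θ) := le_antisymm (hq.2 p hp.1) (hp.2 q hq.1)

lemma top_of_eq {K : Set ℂ} {θ : ℝ} {p q : ℂ} (hp : Top K θ p) (hq : q ∈ K)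
    (h : ip q (ex θ) = ip p (ex θ)) : Top K θ q :=
  ⟨hq, fun x hx => by rw [h]; exact hp.2 x hx⟩

lemma top_closed (K : Set ℂ) (p : ℂ) : IsClosed {θ : ℝ | Top K θ p} := by
  by_cases hp : p ∈ K
  · have : {θ : ℝ | Top K θ p} = ⋂ x ∈ K, {θ : ℝ | ip x (ex θ) ≤ ip p (ex θ)} := by
      ext θ
      simp only [Top, hp, true_and, mem_ofPred_eq, mem_iInter]
    rw [this]
    exact isClosed_biInter fun x _ => isClosed_le (ip_cont_ang x) (ip_cont_ang p)
  · have : {θ : ℝ | Top K θ p} = ∅ := by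
      ext θ
      simp only [Top, hp, false_and, mem_ofPred_eq, mem_empty_iff_false]
    rw [this]
    exact isClosed_empty

lemma top_add_two_pi {K : Set ℂ} {θ : ℝ} {p : ℂ} (h : Top K θ p) : Top K (θ + 2 * Real.pi) p := by
  unfold Top at *
  rwa [ex_add_two_pi]

/-- the normal cone is convex -/
lemma Top.cone {K : Set ℂ} {a b s : ℝ} {p : ℂ} (ha : Top K a p) (hb : Top K b p) (h1 : a ≤ s)
    (h2 : s ≤ b) (h3 : b < a + Real.pi) : Top K s p := by
  rcases eq_or_lt_of_le (h1.trans h2) with hab | hab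
  · have : s = a := le_antisymm (by linarith) h1
    rw [this]
    exact ha
  refine ⟨ha.1, fun x hx => ?_⟩
  have k1 := ha.2 x hx
  have k2 := hb.2 x hx
  have hsin : 0 < Real.sin (b - a) := Real.sin_pos_of_pos_of_lt_pi (by linarith) (by linarith)
  have hs1 : 0 ≤ Real.sin (b - s) := Real.sin_nonneg_of_nonneg_of_le_pi (by linarith) (by linarith)
  have hs2 : 0 ≤ Real.sin (s - a) := Real.sin_nonneg_of_nonneg_of_le_pi (by linarith) (by linarith)
  have e : ∀ y : ℂ, Real.sin (b - a) * ip y (ex s) =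
      Real.sin (b - s) * ip y (ex a) + Real.sin (s - a) * ip y (ex b) := by
    intro y
    rw [ip_ex, ip_ex, ip_ex]
    simp only [Real.sin_sub]
    have := Real.sin_sq_add_cos_sq s
    have h5 := Real.sin_sq_add_cos_sq a
    have h6 := Real.sin_sq_add_cos_sq b
    ring
  have k3 : Real.sin (b - a) * ip x (ex s) ≤ Real.sin (b - a) * ip p (ex s) := by
    rw [e, e]
    have := mul_le_mul_of_nonneg_left k1 hs1
    have := mul_le_mul_of_nonneg_left k2 hs2
    linarith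
  exact le_of_mul_le_mul_left k3 hsin

/-- monotonicity of the support points, seen in the first direction -/
lemma Top.mono_left {K : Set ℂ} {a b : ℝ} {p q : ℂ} (ha : Top K a p) (hb : Top K b q)
    (h1 : a < b) (h2 : b ≤ a + Real.pi / 2) : ip p (I * ex a) ≤ ip q (I * ex a) := by
  have hpi := Real.pi_pos
  have k1 := ha.2 q hb.1
  have k2 := hb.2 p ha.1
  rw [ip_ex_sub p a b, ip_ex_sub q a b] at k2
  have hs : 0 < Real.sin (b - a) := Real.sin_pos_of_pos_of_lt_pi (by linarith) (by linarith)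
  have hc : 0 ≤ Real.cos (b - a) := Real.cos_nonneg_of_neg_pi_div_two_le_of_le (by linarith)
    (by linarith)
  have k3 := mul_le_mul_of_nonneg_left k1 hc
  have k4 : Real.sin (b - a) * ip p (I * ex a) ≤ Real.sin (b - a) * ip q (I * ex a) := by
    linarith
  exact le_of_mul_le_mul_left k4 hs

/-- monotonicity of the support points, seen in the second direction -/
lemma Top.mono_right {K : Set ℂ} {a b : ℝ} {p q : ℂ} (ha : Top K a p) (hb : Top K b q)
    (h1 : a < b) (h2 : b ≤ a + Real.pi / 2) : ip p (I * ex b) ≤ ip q (I * ex b) := by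
  have hpi := Real.pi_pos
  have k1 := hb.2 p ha.1
  have k2 := ha.2 q hb.1
  rw [ip_ex_sub q b a, ip_ex_sub p b a] at k2
  have hs : Real.sin (a - b) < 0 := Real.sin_neg_of_neg_of_neg_pi_lt (by linarith) (by linarith)
  have hc : 0 ≤ Real.cos (a - b) := Real.cos_nonneg_of_neg_pi_div_two_le_of_le (by linarith)
    (by linarith)
  have k3 := mul_le_mul_of_nonneg_left k1 hc
  have k4 : (-Real.sin (a - b)) * ip p (I * ex b) ≤ (-Real.sin (a - b)) * ip q (I * ex b) := by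
    linarith
  exact le_of_mul_le_mul_left k4 (by linarith)

/-- a point that is extreme in an earlier direction is the first point of the face -/
lemma first_of_two {K : Set ℂ} {a s : ℝ} {p : ℂ} (ha : Top K a p) (hs : Top K s p) (h1 : a < s)
    (h2 : s < a + Real.pi) : First K s p := by
  refine ⟨hs, fun f hf => ?_⟩
  have k1 := ha.2 f hf.1
  have k2 := hs.eq hf
  rw [ip_ex_sub f s a, ip_ex_sub p s a, ← k2] at k1
  have hsin : Real.sin (a - s) < 0 := Real.sin_neg_of_neg_of_neg_pi_lt (by linarith) (by linarith)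
  have k4 : (-Real.sin (a - s)) * ip p (I * ex s) ≤ (-Real.sin (a - s)) * ip f (I * ex s) := by
    linarith
  exact le_of_mul_le_mul_left k4 (by linarith)

/-- a point that is extreme in a later direction is the last point of the face -/
lemma last_of_two {K : Set ℂ} {s b : ℝ} {p : ℂ} (hs : Top K s p) (hb : Top K b p) (h1 : s < b)
    (h2 : b < s + Real.pi) : Last K s p := by
  refine ⟨hs, fun f hf => ?_⟩
  have k1 := hb.2 f hf.1
  have k2 := hs.eq hf
  rw [ip_ex_sub f s b, ip_ex_sub p s b, ← k2] at k1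
  have hsin : 0 < Real.sin (b - s) := Real.sin_pos_of_pos_of_lt_pi (by linarith) (by linarith)
  have k4 : Real.sin (b - s) * ip f (I * ex s) ≤ Real.sin (b - s) * ip p (I * ex s) := by
    linarith
  exact le_of_mul_le_mul_left k4 hsin

lemma First.unique {K : Set ℂ} {θ : ℝ} {p q : ℂ} (hp : First K θ p) (hq : First K θ q) : p = q :=
  eq_of_ip (hp.1.eq hq.1) (le_antisymm (hp.2 q hq.1) (hq.2 p hp.1))

lemma Last.unique {K : Set ℂ} {θ : ℝ} {p q : ℂ} (hp : Last K θ p) (hq : Last K θ q) : p = q :=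
  eq_of_ip (hp.1.eq hq.1) (le_antisymm (hq.2 p hp.1) (hp.2 q hq.1))

/-- a point that is both first and last is the only point of the face -/
lemma First.only {K : Set ℂ} {θ : ℝ} {p q : ℂ} (hp : First K θ p) (hp' : Last K θ p)
    (hq : Top K θ q) : q = p :=
  eq_of_ip (hq.eq hp.1) (le_antisymm (hp'.2 q hq) (hp.2 q hq))

/-- interior points: a positive lower bound for all directions of the normal cone -/
lemma exists_inner {K : Set ℂ} (hK : IsConvexFigure K) : ∃ (z : ℂ) (r : ℝ), 0 < r ∧ z ∈ K ∧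
    ∀ (p : ℂ) (θ : ℝ), Top K θ p → r ≤ ip (p - z) (ex θ) := by
  obtain ⟨z, hz⟩ := hK.2.2
  obtain ⟨r, hr, hball⟩ := Metric.isOpen_iff.1 isOpen_interior z hz
  refine ⟨z, r / 2, by positivity, interior_subset hz, fun p θ hp => ?_⟩
  have h1 : z + ((r / 2 : ℝ) : ℂ) * ex θ ∈ K := by
    apply interior_subset
    apply hball
    rw [Metric.mem_ball, dist_eq_norm, add_sub_cancel_left, norm_mul, norm_ex, mul_one, norm_real,
      Real.norm_eq_abs, abs_of_pos (by positivity)]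
    linarith
  have h2 := hp.2 _ h1
  have h3 : ip (ex θ) (ex θ) = 1 := by
    have := ip_self_one (norm_ex θ)
    simp only [ip]
    linarith
  rw [ip_add_left, ip_smul_left, h3] at h2
  rw [ip_sub_left]
  linarith

/-- the support function of a centrally symmetric figure is bounded below by a positive number -/
lemma exists_pos {K : Set ℂ} (hK : IsConvexFigure K) (hs : CSym K) : ∃ r : ℝ, 0 < r ∧
    ∀ (p : ℂ) (θ : ℝ), Top K θ p → r ≤ ip p (ex θ) := by
  obtain ⟨z, r, hr, hz, h⟩ := exists_inner hK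
  refine ⟨r / 2, by positivity, fun p θ hp => ?_⟩
  have h1 := h p θ hp
  have h2 := hp.2 _ (hs z hz)
  rw [ip_sub_left] at h1
  have h3 : ip (-z) (ex θ) = -ip z (ex θ) := by simp only [ip, neg_re, neg_im]; ring
  rw [h3] at h2
  linarith

lemma top_pos {K : Set ℂ} (hK : IsConvexFigure K) (hs : CSym K) {p : ℂ} {θ : ℝ}
    (hp : Top K θ p) : 0 < ip p (ex θ) := by
  obtain ⟨r, hr, h⟩ := exists_pos hK hs
  exact lt_of_lt_of_le hr (h p θ hp)

lemma ip_neg_left (a b : ℂ) : ip (-a) b = -ip a b := by simp only [ip, neg_re, neg_im]; ring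

/-- the opposite of an extreme point is extreme in the opposite direction -/
lemma top_neg {K : Set ℂ} (hs : CSym K) {p : ℂ} {θ : ℝ} (hp : Top K θ p) :
    -p ∈ K ∧ ∀ x ∈ K, ip (-p) (ex θ) ≤ ip x (ex θ) := by
  refine ⟨hs p hp.1, fun x hx => ?_⟩
  have := hp.2 _ (hs x hx)
  rw [ip_neg_left] at this ⊢
  linarith

/-- the value of the support function -/
noncomputable def sup (K : Set ℂ) (θ : ℝ) : ℝ := sSup ((fun x => ip x (ex θ)) '' K)

lemma sup_eq {K : Set ℂ} {p : ℂ} {θ : ℝ} (hp : Top K θ p) : sup K θ = ip p (ex θ) := by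
  apply IsGreatest.csSup_eq
  exact ⟨⟨p, hp.1, rfl⟩, by rintro _ ⟨x, hx, rfl⟩; exact hp.2 x hx⟩

lemma le_sup {K : Set ℂ} (hK : IsConvexFigure K) {x : ℂ} (hx : x ∈ K) (θ : ℝ) :
    ip x (ex θ) ≤ sup K θ := by
  obtain ⟨p, hp⟩ := top_exists hK θ
  rw [sup_eq hp]
  exact hp.2 x hx

end Pool.Agent.H45.TC
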