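import Pool.Agent.H45.TC.Defs2

set_option autoImplicit false

/-!
# Case A: a smaller gap that is not too small

PROOF. Notation `x = cos ξ`, `s = sin ξ`. Take `τ = n - θ₀`, `w = x ex n`, `φ₀ = n`. Then
`g (φ₀ - τ) = g θ₀ ≤ x = ip w (ex n)` because `g θ₀ = cos (θ₀ - c)` with `c ∈ C` outside
`(θ₀ - ξ, θ₀ + ξ)` and `|θ₀ - c| ≤ π / 2`.

To show for all `φ`, with `φ = n + ψ`: `x cos ψ + g (θ₀ + ψ) < 2 g (n + ψ)`. Both sides have period
`2 π` in `φ`; let `|ψ| ≤ π`. By the symmetry `ψ ↦ -ψ` of the estimates below let `0 ≤ ψ ≤ π`. Facts: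
`g ≤ 1` everywhere, `g ≥ x` everywhere, `g (n + ψ) ≥ cos (ψ - η)` (`n + η ∈ C`), and
`g (θ₀ + ψ) ≤ cos (ξ - ψ)` for `0 ≤ ψ ≤ ξ` (the point `c` with `g (θ₀ + ψ) = cos (θ₀ + ψ - c)`,
`|θ₀ + ψ - c| ≤ π / 2`, is outside the gap, so `|θ₀ + ψ - c| ≥ ξ - ψ`).

KEY: `(*)` `2 cos (ξ - η) > 1 + x ^ 2`. Case `x s > 2 sin (ξ - η)`: then
`cos (ξ - η) ^ 2 = 1 - sin (ξ - η) ^ 2 > 1 - x ^ 2 s ^ 2 / 4`, and
`4 - x ^ 2 (1 - x ^ 2) ≥ (1 + x ^ 2) ^ 2` is `3 (1 - x ^ 2) ≥ 0`. Case `x s ≤ 2 sin (ξ - η)`: let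
`G φ = 2 cos (φ - η) - x cos φ - 1`. `G (ξ + η) = 2 x - 1 - x cos (ξ + η) > 0` by `hA`, and
`G ξ - G (ξ + η) = 2 sin (η / 2) * (2 sin (ξ - η / 2) - x sin (ξ + η / 2)) ≥ 0`, because
`2 sin (φ - η) - x sin φ = (2 cos η - x) sin φ - 2 sin η cos φ` is nondecreasing on `[0, π / 2]`
(`2 cos η > x`) and `≥ 0` at `φ = ξ`, hence at `φ = ξ + η / 2 ≤ π / 2`. So `G ξ > 0`, which is `(*)`.

(1) `0 ≤ ψ ≤ ξ`: to show `x cos ψ + cos (ξ - ψ) < 2 cos (ψ - η)`, i.e. `A cos ψ + B sin ψ > 0` with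
`A = 2 (cos η - x) > 0`, `B = 2 sin η - s`. It is `> 0` at `ψ = 0` and at `ψ = ξ` (there it is
`2 cos (ξ - η) - x ^ 2 - 1 > 0` by `(*)`), and
`sin ξ * (A cos ψ + B sin ψ) = sin (ξ - ψ) * A + sin ψ * (A cos ξ + B sin ξ)`.
(2) `ψ ≥ ξ` and `x cos ψ < 2 x - 1`: `x cos ψ + 1 < 2 x ≤ 2 g (n + ψ)`.
(3) `ψ ≥ ξ` and `x cos ψ ≥ 2 x - 1`: as `2 x - 1 > x cos (ξ + η)` (`hA`), `cos ψ > cos (ξ + η)`, so
`ξ ≤ ψ < ξ + η`. To show `G ψ > 0`. `H ψ = 2 cos (ψ - η) - x cos ψ` satisfies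
`sin η * H ψ = sin (ξ + η - ψ) * H ξ + sin (ψ - ξ) * H (ξ + η)` with `H ξ > 1` (`(*)`),
`H (ξ + η) > 1`, and `sin (ξ + η - ψ) + sin (ψ - ξ) ≥ sin η` (`sin a + sin b ≥ sin (a + b)` for
`a, b ≥ 0`, `a + b ≤ π`). So `H ψ > 1`.
-/

namespace Pool.Agent.H45.TC

open Pool.Agent.H50.CP Complex Set

/-- `KEY`. -/
private lemma caseA_key {ξ η : ℝ} (hx : 618 / 1000 ≤ Real.cos ξ) (h0 : 0 < η) (h1 : η < ξ)
    (h2 : ξ + η ≤ Real.pi / 2)
    (hA : Real.cos ξ * Real.cos (ξ + η) < 2 * Real.cos ξ - 1) :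
    1 + Real.cos ξ ^ 2 < 2 * Real.cos (ξ - η) := by
  have hpi := Real.pi_pos
  have hv0 : 0 < Real.sin (ξ - η) := Real.sin_pos_of_pos_of_lt_pi (by linarith) (by linarith)
  have hu0 : 0 < Real.cos (ξ - η) :=
    Real.cos_pos_of_mem_Ioo ⟨by linarith, by linarith⟩
  have huv := Real.sin_sq_add_cos_sq (ξ - η)
  have hxs := Real.sin_sq_add_cos_sq ξ
  have hs0 : 0 < Real.sin ξ := Real.sin_pos_of_pos_of_lt_pi (by linarith) (by linarith)
  have hx1 : Real.cos ξ ≤ 1 := Real.cos_le_one ξ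
  rcases lt_or_ge (2 * Real.sin (ξ - η)) (Real.cos ξ * Real.sin ξ) with hc | hc
  · have h3 : (2 * Real.sin (ξ - η)) ^ 2 < (Real.cos ξ * Real.sin ξ) ^ 2 :=
      pow_lt_pow_left₀ hc (by linarith) two_ne_zero
    have h4 : (1 + Real.cos ξ ^ 2) ^ 2 < (2 * Real.cos (ξ - η)) ^ 2 := by
      have e1 : (Real.cos ξ * Real.sin ξ) ^ 2 = Real.cos ξ ^ 2 * (1 - Real.cos ξ ^ 2) := by
        rw [mul_pow]
        congr 1
        linarith
      rw [e1] at h3
      have h5 : Real.cos ξ ^ 2 ≤ 1 := by nlinarith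
      nlinarith
    exact lt_of_pow_lt_pow_left₀ 2 (by linarith) h4
  · have hh0 : 0 < Real.sin (η / 2) := Real.sin_pos_of_pos_of_lt_pi (by linarith) (by linarith)
    have e1 : Real.cos (ξ - η) - Real.cos ξ = 2 * Real.sin (ξ - η / 2) * Real.sin (η / 2) := by
      have a1 : (ξ - η + ξ) / 2 = ξ - η / 2 := by ring
      have a2 : (ξ - η - ξ) / 2 = -(η / 2) := by ring
      rw [Real.cos_sub_cos, a1, a2, Real.sin_neg]
      ring
    have e2 : Real.cos ξ - Real.cos (ξ + η) = 2 * Real.sin (ξ + η / 2) * Real.sin (η / 2) := by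
      have a1 : (ξ + (ξ + η)) / 2 = ξ + η / 2 := by ring
      have a2 : (ξ - (ξ + η)) / 2 = -(η / 2) := by ring
      rw [Real.cos_sub_cos, a1, a2, Real.sin_neg]
      ring
    have e3 : Real.sin (ξ - η / 2) = Real.sin (ξ + η / 2) * Real.cos η -
        Real.cos (ξ + η / 2) * Real.sin η := by
      rw [← Real.sin_sub]
      congr 1
      ring
    have e4 : Real.sin (ξ - η) = Real.sin ξ * Real.cos η - Real.cos ξ * Real.sin η :=
      Real.sin_sub ξ η
    have h3 : Real.sin ξ ≤ Real.sin (ξ + η / 2) :=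
      Real.sin_le_sin_of_le_of_le_pi_div_two (by linarith) (by linarith) (by linarith)
    have h4 : Real.cos (ξ + η / 2) ≤ Real.cos ξ :=
      Real.cos_le_cos_of_nonneg_of_le_pi (by linarith) (by linarith) (by linarith)
    have h5 : Real.cos ξ < Real.cos η :=
      Real.cos_lt_cos_of_nonneg_of_le_pi (by linarith) (by linarith) h1
    have h6 : 0 < Real.sin η := Real.sin_pos_of_pos_of_lt_pi h0 (by linarith)
    have h7 : 0 ≤ (2 * Real.cos η - Real.cos ξ) * (Real.sin (ξ + η / 2) - Real.sin ξ) :=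
      mul_nonneg (by linarith) (by linarith)
    have h8 : 0 ≤ 2 * Real.sin η * (Real.cos ξ - Real.cos (ξ + η / 2)) :=
      mul_nonneg (by linarith) (by linarith)
    have h9 : 0 ≤ 2 * Real.sin (ξ - η / 2) - Real.cos ξ * Real.sin (ξ + η / 2) := by
      rw [e3]
      rw [e4] at hc
      nlinarith
    have h10 := mul_nonneg hh0.le h9
    nlinarith

/-- The trigonometric estimate on the half circle. -/
private lemma caseA_main {ξ η : ℝ} (hx : 618 / 1000 ≤ Real.cos ξ) (h0 : 0 < η) (h1 : η < ξ)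
    (h2 : ξ + η ≤ Real.pi / 2)
    (hA : Real.cos ξ * Real.cos (ξ + η) < 2 * Real.cos ξ - 1) {p T G : ℝ} (hp0 : 0 ≤ p)
    (hp1 : p ≤ Real.pi) (hT : T ≤ 1) (hT' : p ≤ ξ → T ≤ Real.cos (ξ - p))
    (hG : Real.cos ξ ≤ G) (hG' : Real.cos (p - η) ≤ G) :
    Real.cos ξ * Real.cos p + T < 2 * G := by
  have hpi := Real.pi_pos
  have key := caseA_key hx h0 h1 h2 hA
  have hx0 : 0 < Real.cos ξ := by linarith
  have hs0 : 0 < Real.sin ξ := Real.sin_pos_of_pos_of_lt_pi (by linarith) (by linarith)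
  have hη0 : 0 < Real.sin η := Real.sin_pos_of_pos_of_lt_pi h0 (by linarith)
  rcases le_or_gt p ξ with hp | hp
  · have hT2 := hT' hp
    have h5 : Real.cos ξ < Real.cos η :=
      Real.cos_lt_cos_of_nonneg_of_le_pi (by linarith) (by linarith) h1
    have e1 : Real.sin ξ * (2 * Real.cos (p - η) - Real.cos ξ * Real.cos p - Real.cos (ξ - p)) =
        Real.sin (ξ - p) * (2 * (Real.cos η - Real.cos ξ)) +
          Real.sin p * (2 * Real.cos (ξ - η) - Real.cos ξ ^ 2 - 1) := by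
      have hxs := Real.sin_sq_add_cos_sq ξ
      rw [Real.cos_sub p η, Real.cos_sub ξ p, Real.sin_sub ξ p, Real.cos_sub ξ η]
      linear_combination (-Real.sin p) * hxs
    have h6 : 0 ≤ Real.sin (ξ - p) := Real.sin_nonneg_of_nonneg_of_le_pi (by linarith) (by linarith)
    have h7 : 0 ≤ Real.sin p := Real.sin_nonneg_of_nonneg_of_le_pi hp0 hp1
    have h8 : 0 < Real.sin (ξ - p) * (2 * (Real.cos η - Real.cos ξ)) +
          Real.sin p * (2 * Real.cos (ξ - η) - Real.cos ξ ^ 2 - 1) := by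
      have k1 : 0 < 2 * (Real.cos η - Real.cos ξ) := by linarith
      have k2 : 0 < 2 * Real.cos (ξ - η) - Real.cos ξ ^ 2 - 1 := by linarith
      rcases eq_or_lt_of_le hp0 with h | h
      · rw [← h, Real.sin_zero, zero_mul, sub_zero, add_zero]
        exact mul_pos hs0 k1
      · have h9 : 0 < Real.sin p := Real.sin_pos_of_pos_of_lt_pi h (by linarith)
        have := mul_nonneg h6 k1.le
        have := mul_pos h9 k2
        linarith
    rw [← e1] at h8
    have h9 := (mul_pos_iff_of_pos_left hs0).1 h8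
    linarith
  · rcases lt_or_ge (Real.cos ξ * Real.cos p) (2 * Real.cos ξ - 1) with hc | hc
    · linarith
    · have h3 : Real.cos ξ * Real.cos (ξ + η) < Real.cos ξ * Real.cos p := by linarith
      have h4 : Real.cos (ξ + η) < Real.cos p := lt_of_mul_lt_mul_left h3 hx0.le
      have h5 : p < ξ + η := by
        by_contra hh
        rw [not_lt] at hh
        have := Real.cos_le_cos_of_nonneg_of_le_pi (by linarith) hp1 hh
        linarith
      have e1 : Real.sin η * (2 * Real.cos (p - η) - Real.cos ξ * Real.cos p) =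
          Real.sin (ξ + η - p) * (2 * Real.cos (ξ - η) - Real.cos ξ ^ 2) +
            Real.sin (p - ξ) * (2 * Real.cos ξ - Real.cos ξ * Real.cos (ξ + η)) := by
        have a1 : Real.sin (ξ + η - p) = Real.sin (ξ - p) * Real.cos η +
            Real.cos (ξ - p) * Real.sin η := by
          rw [← Real.sin_add]
          congr 1
          ring
        have hxs := Real.sin_sq_add_cos_sq ξ
        have hes := Real.sin_sq_add_cos_sq η
        rw [a1, Real.cos_sub p η, Real.cos_sub ξ p, Real.sin_sub ξ p, Real.sin_sub p ξ,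
          Real.cos_sub ξ η, Real.cos_add ξ η]
        linear_combination (-2 * (Real.sin ξ * Real.cos p - Real.cos ξ * Real.sin p) *
          Real.cos ξ) * hes - (2 * Real.sin η ^ 2 * Real.sin p +
          2 * Real.sin η * Real.cos η * Real.cos p - Real.cos ξ * Real.sin η * Real.cos p) * hxs
      have h6 : 0 ≤ Real.sin (ξ + η - p) :=
        Real.sin_nonneg_of_nonneg_of_le_pi (by linarith) (by linarith)
      have h7 : 0 < Real.sin (p - ξ) := Real.sin_pos_of_pos_of_lt_pi (by linarith) (by linarith)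
      have h8 : Real.sin η ≤ Real.sin (ξ + η - p) + Real.sin (p - ξ) := by
        have a1 : Real.sin η = Real.sin (ξ + η - p) * Real.cos (p - ξ) +
            Real.cos (ξ + η - p) * Real.sin (p - ξ) := by
          rw [← Real.sin_add]
          congr 1
          ring
        have a2 := mul_le_mul_of_nonneg_left (Real.cos_le_one (p - ξ)) h6
        have a3 := mul_le_mul_of_nonneg_right (Real.cos_le_one (ξ + η - p)) h7.le
        linarith
      have k1 : 1 ≤ 2 * Real.cos (ξ - η) - Real.cos ξ ^ 2 := by linarith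
      have k2 : 1 < 2 * Real.cos ξ - Real.cos ξ * Real.cos (ξ + η) := by linarith
      have h9 := mul_le_mul_of_nonneg_left k1 h6
      have h10 := mul_lt_mul_of_pos_left k2 h7
      have h11 : Real.sin η * 1 <
          Real.sin η * (2 * Real.cos (p - η) - Real.cos ξ * Real.cos p) := by
        rw [e1]
        linarith
      have h12 := lt_of_mul_lt_mul_left h11 hη0.le
      linarith

private lemma caseA_gper {C : Set ℝ} {g : ℝ → ℝ} (hC : Cyc C g) (θ : ℝ) :
    g (θ + Real.pi) = g θ := by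
  apply le_antisymm
  · obtain ⟨c, hc, _, h⟩ := hC.att (θ + Real.pi)
    have h1 : c - Real.pi ∈ C := by
      rw [hC.per, sub_add_cancel]
      exact hc
    have h2 := hC.le θ _ h1
    rw [h]
    have e : θ + Real.pi - c = θ - (c - Real.pi) := by ring
    rw [e]
    exact h2
  · obtain ⟨c, hc, _, h⟩ := hC.att θ
    have h2 := hC.le (θ + Real.pi) _ ((hC.per c).1 hc)
    rw [h]
    have e : θ + Real.pi - (c + Real.pi) = θ - c := by ring
    rw [e] at h2
    exact h2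

theorem caseA {C : Set ℝ} {g : ℝ → ℝ} (hC : Cyc C g) {ξ η θ₀ n : ℝ} (hx : 618 / 1000 ≤ Real.cos ξ)
    (hmin : ∀ θ, Real.cos ξ ≤ g θ) (h0 : 0 < η) (h1 : η < ξ) (h2 : ξ + η ≤ Real.pi / 2)
    (hgap : ∀ c ∈ C, ¬ (θ₀ - ξ < c ∧ c < θ₀ + ξ)) (e1 : n - η ∈ C) (e2 : n + η ∈ C)
    (hA : Real.cos ξ * Real.cos (ξ + η) < 2 * Real.cos ξ - 1) : Gain g := by
  have hpi := Real.pi_pos
  -- the bound of `g` near the centre of the gap
  have hup : ∀ ψ : ℝ, |ψ| ≤ ξ → g (θ₀ + ψ) ≤ Real.cos (ξ - |ψ|) := by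
    intro ψ hψ
    obtain ⟨c, hc, hc1, hc2⟩ := hC.att (θ₀ + ψ)
    have h3 : ξ - |ψ| ≤ |θ₀ + ψ - c| := by
      have h4 := hgap c hc
      have h5 : ξ ≤ |θ₀ - c| := by
        by_contra hh
        rw [not_le, abs_lt] at hh
        exact h4 ⟨by linarith [hh.2], by linarith [hh.1]⟩
      have h6 : |θ₀ - c| ≤ |θ₀ + ψ - c| + |ψ| := by
        have e : θ₀ - c = (θ₀ + ψ - c) - ψ := by ring
        rw [e]
        exact abs_sub _ _
      linarith
    rw [hc2, ← Real.cos_abs (θ₀ + ψ - c)]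
    exact Real.cos_le_cos_of_nonneg_of_le_pi (by linarith) (by linarith) h3
  have hone : ∀ θ, g θ ≤ 1 := by
    intro θ
    obtain ⟨c, _, _, hc2⟩ := hC.att θ
    rw [hc2]
    exact Real.cos_le_one _
  -- the estimate for `|ψ| ≤ π`
  have hest : ∀ ψ : ℝ, |ψ| ≤ Real.pi →
      Real.cos ξ * Real.cos ψ + g (θ₀ + ψ) < 2 * g (n + ψ) := by
    intro ψ hψ
    rw [← Real.cos_abs ψ]
    refine caseA_main hx h0 h1 h2 hA (abs_nonneg ψ) hψ (hone _) (hup ψ) (hmin _) ?_
    rcases le_total 0 ψ with h | h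
    · rw [abs_of_nonneg h]
      have h3 := hC.le (n + ψ) _ e2
      have e : n + ψ - (n + η) = ψ - η := by ring
      rw [e] at h3
      exact h3
    · rw [abs_of_nonpos h]
      have h3 := hC.le (n + ψ) _ e1
      have e : n + ψ - (n - η) = -(-ψ - η) := by ring
      rw [e, Real.cos_neg] at h3
      exact h3
  have hper1 : ∀ θ, g (θ + 2 * Real.pi) = g θ := by
    intro θ
    have e : θ + 2 * Real.pi = (θ + Real.pi) + Real.pi := by ring
    rw [e, caseA_gper hC, caseA_gper hC]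
  have hgp : Function.Periodic g (2 * Real.pi) := hper1
  have hperF : Function.Periodic (fun ψ => Real.cos ξ * Real.cos ψ + g (θ₀ + ψ) - 2 * g (n + ψ))
      (2 * Real.pi) := by
    intro ψ
    change Real.cos ξ * Real.cos (ψ + 2 * Real.pi) + g (θ₀ + (ψ + 2 * Real.pi)) -
      2 * g (n + (ψ + 2 * Real.pi)) = Real.cos ξ * Real.cos ψ + g (θ₀ + ψ) - 2 * g (n + ψ)
    rw [Real.cos_add_two_pi, ← add_assoc, ← add_assoc, hper1, hper1]
  have hall : ∀ ψ : ℝ, Real.cos ξ * Real.cos ψ + g (θ₀ + ψ) - 2 * g (n + ψ) < 0 := by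
    intro ψ
    obtain ⟨ψ', h3, h4⟩ := hperF.exists_mem_Ico (by positivity) ψ (-Real.pi)
    rw [h4]
    have h5 := hest ψ' (abs_le.2 ⟨h3.1, by linarith [h3.2]⟩)
    linarith
  refine ⟨n - θ₀, ((Real.cos ξ : ℝ) : ℂ) * ex n, n, ?_, ?_⟩
  · intro φ
    rw [ip_pol]
    have h3 := hall (φ - n)
    have a1 : θ₀ + (φ - n) = φ - (n - θ₀) := by ring
    have a2 : n + (φ - n) = φ := by ring
    rw [a1, a2] at h3
    have a3 : Real.cos (n - φ) = Real.cos (φ - n) := by
      rw [← Real.cos_neg]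
      congr 1
      ring
    rw [a3]
    linarith
  · rw [ip_pol, sub_self, Real.cos_zero, mul_one]
    have h3 := hup 0 (by rw [abs_zero]; linarith)
    rw [abs_zero, sub_zero, add_zero] at h3
    have a1 : n - (n - θ₀) = θ₀ := by ring
    rw [a1]
    exact h3

end Pool.Agent.H45.TC
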