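import Pool.Agent.H45.TC.Defs2

set_option autoImplicit false

/-!
# Case B: a very small gap, or none, next to a largest gap

PROOF. Write `φ = P + f`, `f = ψ - ξ` (so `f` is the angle relative to `P`, `ψ` the angle relative to
the normal `P - ξ` of the long edge). Let `θ > 0` be small, `τ = θ` (the copy is turned by `θ`), and
`w = α ex (P - ξ) + β I ex (P - ξ)`, `α = 2 cos ξ - cos (ξ - θ) - κ θ ^ 2`, `β = sin ξ + t θ`,
with a small `t > 0` and `κ = t / 2`; `φ₀ = P - ξ + θ`.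

(i) `g (φ₀ - θ) = g (P - ξ) ≤ cos ξ` (the gap), and
`ip w (ex φ₀) = α cos θ + β sin θ`, `α cos θ + β sin θ - cos ξ = - cos ξ (1 - cos θ) ^ 2 +
sin ξ sin θ (1 - cos θ) + t θ sin θ - κ θ ^ 2 cos θ ≥ 0` for small `θ` (`(1 - cos θ) ^ 2 ≤ θ ^ 4 / 4`,
`sin θ ≥ θ - θ ^ 3 / 4`, `κ = t / 2`).

(ii) To show `D φ = 2 g φ - g (φ - θ) - ip w (ex φ) > 0` for all `φ`; period `2 π`; here
`ip w (ex φ) = α cos ψ + β sin ψ`.

Region 1, `-ξ + θ ≤ ψ ≤ 0`: `g φ ≥ cos (ψ + ξ)` (`P - 2 ξ ∈ C`) and `g (φ - θ) ≤ cos (ψ - θ + ξ)`: the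
point `c ∈ C` with `g (φ - θ) = cos (φ - θ - c)`, `|φ - θ - c| ≤ π / 2`, is `≤ P - 2 ξ` or `≥ P`, and
`φ - θ` lies in `[P - 2 ξ, P - ξ]`, so `|φ - θ - c| ≥ φ - θ - (P - 2 ξ) = ψ - θ + ξ ≥ 0`. So
`D ≥ 2 cos (ψ + ξ) - cos (ψ - θ + ξ) - α cos ψ - β sin ψ
  = κ θ ^ 2 cos ψ + (- sin ψ) (2 sin ξ - sin (ξ - θ) + β) > 0`.
Region 2, `0 ≤ ψ ≤ θ`: `g φ ≥ cos (ψ - ξ)` (`P ∈ C`), `g (φ - θ) ≤ cos (ψ - θ + ξ)` as before, so
`D ≥ κ θ ^ 2 cos ψ + sin ψ (2 sin ξ + sin (ξ - θ) - β) > 0`.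

For the rest let `E φ = g φ - cos (φ - P) ≥ 0` and
`Q ψ = cos ψ (2 sin ξ sin θ + κ θ ^ 2) - sin ψ (t θ + cos ξ sin θ - sin ξ (1 - cos θ))`. Then
`D φ = 2 E φ - E (φ - θ) + Q ψ` (identity).
Region 3, `θ ≤ ψ ≤ ψ₁`, where `ξ + b < ψ₁ < π / 2` is fixed with
`(2 t + cos ξ) sin ψ₁ < 2 sin ξ cos ψ₁` (possible by `htan` for small `t`). Here
`E (φ - θ) ≤ E φ`: let `c ∈ C`, `|φ - θ - c| ≤ π / 2`, `g (φ - θ) = cos (φ - θ - c)`, `u = c - P`. As
`φ - θ ≥ P - ξ`, we may take `u ≥ 0` or `u ≤ - 2 ξ`; in the second case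
`cos (φ - θ - c) ≤ cos (φ - θ - P)` (`φ - θ - c ≥ φ - θ - P + 2 ξ ≥ |φ - θ - P|`), so
`E (φ - θ) ≤ 0 ≤ E φ`. If `u ≥ 0`: `E (φ - θ) = F (φ - θ - P)` and `E φ ≥ F (φ - P)` with
`F y = cos (y - u) - cos y = 2 sin (y - u / 2) sin (u / 2)`, and
`F y - F (y - θ) = 4 cos (y - θ / 2 - u / 2) sin (θ / 2) sin (u / 2) ≥ 0` because
`0 ≤ u ≤ π`, `|y - θ / 2 - u / 2| ≤ π / 2`
(`y = f`, `- ξ ≤ y - θ`, `y ≤ ψ₁ - ξ`, `u ≤ y - θ + π / 2`).
So `D ≥ E φ + Q ψ ≥ Q ψ`, and for small `θ`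
`Q ψ ≥ sin θ (2 sin ξ cos ψ - (2 t + cos ξ) sin ψ) > 0` (`t θ ≤ 2 t sin θ`).
Region 4, `ψ₁ ≤ ψ ≤ 2 π - ξ + θ`: here `E φ ≥ e₀ > 0` with `e₀` independent of `θ`, and
`D ≥ E φ - |E (φ - θ) - E φ| - |Q ψ| ≥ e₀ - 2 θ - 10 θ > 0` for small `θ`; the bound
`|E (φ - θ) - E φ| ≤ 2 θ` holds because `g` is `1`-Lipschitz (maximum of functions `cos (· - c)`).
Lower bound of `E`: `hnext` gives `c ∈ C` with `P < c < P + 2 (ψ₁ - ξ)`, `u = c - P`, and
`E φ ≥ cos (f - u) - cos f = 2 sin (f - u / 2) sin (u / 2)`, which is bounded below for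
`ψ₁ - ξ ≤ f ≤ π` (`f - u / 2` lies in a compact part of `(0, π)`); and
`E φ ≥ cos (f + 2 ξ) - cos f = - 2 sin (f + ξ) sin ξ`, bounded below for
`π ≤ f ≤ 2 π - 2 ξ + θ` (`f + ξ` lies in `[π + ξ, 2 π - ξ + θ]`, a compact part of `(π, 2 π)` for
`θ ≤ ξ / 2`).
The regions `-ξ + θ ≤ ψ ≤ 2 π - ξ + θ` cover a full period.
-/

namespace Pool.Agent.H45.TC

open Pool.Agent.H50.CP Complex Set

/-- the difference of two cosines -/
private lemma caseB_cos_sub (a θ : ℝ) (h0 : 0 ≤ θ) (h1 : θ ≤ 1) : Real.cos (a - θ) ≤ Real.cos a + θ := by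
  have hpi := Real.pi_gt_three
  have e : Real.cos (a - θ) - Real.cos a = 2 * Real.sin (a - θ / 2) * Real.sin (θ / 2) := by
    have e1 : a - θ = (a - θ / 2) - θ / 2 := by ring
    have e2 : Real.cos a = Real.cos ((a - θ / 2) + θ / 2) := by congr 1; ring
    rw [e1, e2, Real.cos_sub, Real.cos_add]
    ring
  have hs0 : 0 ≤ Real.sin (θ / 2) := Real.sin_nonneg_of_nonneg_of_le_pi (by linarith only [h0]) (by linarith only [h1, hpi])
  have hs1 : Real.sin (θ / 2) ≤ θ / 2 := Real.sin_le (by linarith only [h0])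
  have hs2 : Real.sin (a - θ / 2) ≤ 1 := Real.sin_le_one _
  linarith only [e, hs1, mul_le_mul_of_nonneg_right hs2 hs0]

/-- the difference of two cosines, in the other order -/
private lemma caseB_F (x y u v : ℝ) : (Real.cos (x - u) - Real.cos (x - v)) - (Real.cos (y - u) - Real.cos (y - v)) =
    4 * Real.cos ((x + y) / 2 - (u + v) / 2) * Real.sin ((x - y) / 2) * Real.sin ((u - v) / 2) := by
  have h1 : Real.cos (x - u) - Real.cos (y - u) =
      -2 * Real.sin (((x - u) + (y - u)) / 2) * Real.sin (((x - u) - (y - u)) / 2) := Real.cos_sub_cos _ _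
  have h2 : Real.cos (x - v) - Real.cos (y - v) =
      -2 * Real.sin (((x - v) + (y - v)) / 2) * Real.sin (((x - v) - (y - v)) / 2) := Real.cos_sub_cos _ _
  have h3 : Real.sin (((x - v) + (y - v)) / 2) - Real.sin (((x - u) + (y - u)) / 2) =
      2 * Real.sin ((((x - v) + (y - v)) / 2 - ((x - u) + (y - u)) / 2) / 2) *
        Real.cos ((((x - v) + (y - v)) / 2 + ((x - u) + (y - u)) / 2) / 2) := Real.sin_sub_sin _ _
  have e1 : ((x - u) - (y - u)) / 2 = (x - y) / 2 := by ring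
  have e2 : ((x - v) - (y - v)) / 2 = (x - y) / 2 := by ring
  have e3 : (((x - v) + (y - v)) / 2 - ((x - u) + (y - u)) / 2) / 2 = (u - v) / 2 := by ring
  have e4 : (((x - v) + (y - v)) / 2 + ((x - u) + (y - u)) / 2) / 2 = (x + y) / 2 - (u + v) / 2 := by ring
  rw [e1] at h1
  rw [e2] at h2
  rw [e3, e4] at h3
  have h4 : (Real.cos (x - u) - Real.cos (x - v)) - (Real.cos (y - u) - Real.cos (y - v)) =
      (Real.cos (x - u) - Real.cos (y - u)) - (Real.cos (x - v) - Real.cos (y - v)) := by ring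
  rw [h4, h1, h2]
  linear_combination (2 * Real.sin ((x - y) / 2)) * h3

/-- the parameters `ψ₁` and `t` -/
private lemma caseB_param {ξ b : ℝ} (h0 : 0 < ξ) (h1 : ξ < Real.pi / 2) (hb : 0 ≤ b) (hb1 : b < ξ)
    (htan : Real.sin (ξ + b) * Real.cos ξ < 2 * Real.sin ξ * Real.cos (ξ + b)) :
    ∃ ψ₁ t : ℝ, ξ + b < ψ₁ ∧ ψ₁ < Real.pi / 2 ∧ 0 < t ∧ t ≤ 1 / 2 ∧
      (2 * t + Real.cos ξ) * Real.sin ψ₁ < 2 * Real.sin ξ * Real.cos ψ₁ := by
  have hc : 0 < Real.cos ξ := Real.cos_pos_of_mem_Ioo ⟨by linarith only [h0, h1], h1⟩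
  have hs : 0 < Real.sin ξ := Real.sin_pos_of_pos_of_lt_pi h0 (by linarith only [h0, h1])
  have hs' : 0 < Real.sin (ξ + b) := Real.sin_pos_of_pos_of_lt_pi (by linarith only [h0, hb]) (by linarith only [h1, hb1])
  have hlt : ξ + b < Real.pi / 2 := by
    by_contra hcon
    have h2 : Real.cos (ξ + b) ≤ 0 := Real.cos_nonpos_of_pi_div_two_le_of_le (not_lt.1 hcon) (by linarith only [h1, hb1, hcon])
    linarith only [htan, mul_pos hs' hc, mul_nonneg hs.le (neg_nonneg.2 h2)]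
  have hcont : Continuous fun x : ℝ => 2 * Real.sin ξ * Real.cos x - Real.cos ξ * Real.sin x := by fun_prop
  have hev : ∀ᶠ x in nhds (ξ + b), 0 < 2 * Real.sin ξ * Real.cos x - Real.cos ξ * Real.sin x :=
    hcont.continuousAt.eventually (lt_mem_nhds (by linarith only [htan]))
  obtain ⟨δ, hδ, hball⟩ := Metric.eventually_nhds_iff.1 hev
  set ψ₁ := ξ + b + min (δ / 2) ((Real.pi / 2 - (ξ + b)) / 2) with hψ
  have hm : 0 < min (δ / 2) ((Real.pi / 2 - (ξ + b)) / 2) := lt_min (by linarith only [hδ]) (by linarith only [hlt])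
  have hm1 : min (δ / 2) ((Real.pi / 2 - (ξ + b)) / 2) ≤ δ / 2 := min_le_left _ _
  have hm2 : min (δ / 2) ((Real.pi / 2 - (ξ + b)) / 2) ≤ (Real.pi / 2 - (ξ + b)) / 2 := min_le_right _ _
  have hpos : 0 < 2 * Real.sin ξ * Real.cos ψ₁ - Real.cos ξ * Real.sin ψ₁ := by
    apply hball
    rw [Real.dist_eq, hψ, add_sub_cancel_left, abs_of_pos hm]
    linarith only [hm, hm1]
  set γ := 2 * Real.sin ξ * Real.cos ψ₁ - Real.cos ξ * Real.sin ψ₁ with hγ
  have hψ0 : 0 < ψ₁ := by linarith only [h0, hb, hm]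
  have hψ2 : ψ₁ < Real.pi / 2 := by linarith only [hm, hm2]
  have hs1 : 0 ≤ Real.sin ψ₁ := Real.sin_nonneg_of_nonneg_of_le_pi hψ0.le (by linarith only [h0, hb, hm, hm2])
  have hs2 : Real.sin ψ₁ ≤ 1 := Real.sin_le_one _
  have hc1 : Real.cos ψ₁ ≤ 1 := Real.cos_le_one _
  have hc0 : 0 ≤ Real.cos ψ₁ := Real.cos_nonneg_of_neg_pi_div_two_le_of_le (by linarith only [h0, hb, hm, hm2]) hψ2.le
  have hsξ : Real.sin ξ ≤ 1 := Real.sin_le_one _
  have hγ2 : γ ≤ 2 := by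
    have h3 : Real.sin ξ * Real.cos ψ₁ ≤ 1 * 1 := mul_le_mul hsξ hc1 hc0 (by norm_num)
    have h4 : 0 ≤ Real.cos ξ * Real.sin ψ₁ := mul_nonneg hc.le hs1
    rw [hγ]
    linarith only [h3, h4]
  refine ⟨ψ₁, γ / 4, by linarith only [hm], hψ2, by linarith only [hpos], by linarith only [hγ2], ?_⟩
  have h5 : γ / 2 * Real.sin ψ₁ ≤ γ / 2 * 1 := mul_le_mul_of_nonneg_left hs2 (by linarith only [hpos])
  linarith only [hpos, h5]

/-- the properties of the set of angles relative to the normal of the long edge -/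
private structure CaseBRel (C : Set ℝ) (G : ℝ → ℝ) (ξ b : ℝ) : Prop where
  att : ∀ ψ, ∃ u ∈ C, |ψ - u| ≤ Real.pi / 2 ∧ G ψ = Real.cos (ψ - u)
  le : ∀ ψ, ∀ u ∈ C, Real.cos (ψ - u) ≤ G ψ
  right : ξ ∈ C
  left : -ξ ∈ C
  gap : ∀ u ∈ C, u ≤ -ξ ∨ ξ ≤ u
  next : ∀ ε : ℝ, 0 < ε → ∃ u ∈ C, ξ < u ∧ u < ξ + 2 * b + ε

/-- the lower bound far from the long edge -/
private lemma caseB_low {C : Set ℝ} {G : ℝ → ℝ} {ξ b ψ₁ : ℝ} (h : CaseBRel C G ξ b) (h0 : 0 < ξ)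
    (h1 : ξ < Real.pi / 2) (hψ : ξ + b < ψ₁) (hψ1 : ψ₁ < Real.pi / 2) :
    ∃ e₀ : ℝ, 0 < e₀ ∧ ∀ ψ, ψ₁ ≤ ψ → ψ ≤ 2 * Real.pi - ξ / 2 → e₀ ≤ G ψ - Real.cos (ψ - ξ) := by
  obtain ⟨u, hu, hu1, hu2⟩ := h.next (2 * (ψ₁ - ξ - b)) (by linarith only [hψ])
  have hcont : Continuous fun ψ : ℝ => max (Real.cos (ψ - u) - Real.cos (ψ - ξ)) (Real.cos (ψ + ξ) - Real.cos (ψ - ξ)) := by
    fun_prop
  have hsξ : 0 < Real.sin ξ := Real.sin_pos_of_pos_of_lt_pi h0 (by linarith only [h0, hψ1, hu1, hu2])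
  have hne : (Set.Icc ψ₁ (2 * Real.pi - ξ / 2)).Nonempty := ⟨ψ₁, le_rfl, by linarith only [h0, hψ1, hu1, hu2]⟩
  obtain ⟨m, hm, hmin⟩ := (isCompact_Icc (a := ψ₁) (b := 2 * Real.pi - ξ / 2)).exists_isMinOn hne hcont.continuousOn
  refine ⟨max (Real.cos (m - u) - Real.cos (m - ξ)) (Real.cos (m + ξ) - Real.cos (m - ξ)), ?_, fun ψ h2 h3 => ?_⟩
  · rcases le_total m (Real.pi + ξ) with hm1 | hm1
    · apply lt_max_of_lt_left
      have e : Real.cos (m - u) - Real.cos (m - ξ) =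
          -2 * Real.sin (((m - u) + (m - ξ)) / 2) * Real.sin (((m - u) - (m - ξ)) / 2) := Real.cos_sub_cos _ _
      have e1 : ((m - u) - (m - ξ)) / 2 = -((u - ξ) / 2) := by ring
      rw [e, e1, Real.sin_neg]
      have k1 : 0 < Real.sin ((u - ξ) / 2) := Real.sin_pos_of_pos_of_lt_pi (by linarith only [hu1]) (by linarith only [h0, hψ1, hu1, hu2])
      have k2 : 0 < Real.sin (((m - u) + (m - ξ)) / 2) :=
        Real.sin_pos_of_pos_of_lt_pi (by linarith only [hu2, hm.1]) (by linarith only [hu1, hm1])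
      linarith only [mul_pos k1 k2]
    · apply lt_max_of_lt_right
      have e : Real.cos (m + ξ) - Real.cos (m - ξ) = -2 * Real.sin m * Real.sin ξ := by
        rw [Real.cos_add, Real.cos_sub]
        ring
      have k1 : Real.sin m < 0 := by
        have k2 : Real.sin (m - 2 * Real.pi) < 0 :=
          Real.sin_neg_of_neg_of_neg_pi_lt (by linarith only [h0, hm.2]) (by linarith only [h0, hm1])
        rwa [Real.sin_sub_two_pi] at k2
      rw [e]
      linarith only [mul_pos (neg_pos.2 k1) hsξ]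
  · have k1 := hmin (show ψ ∈ Set.Icc ψ₁ (2 * Real.pi - ξ / 2) from ⟨h2, h3⟩)
    refine le_trans k1 (max_le ?_ ?_)
    · have := h.le ψ u hu
      linarith only [this]
    · have := h.le ψ (-ξ) h.left
      rw [sub_neg_eq_add] at this
      linarith only [this]

/-- the upper bound on the left of the normal of the long edge -/
private lemma caseB_up {C : Set ℝ} {G : ℝ → ℝ} {ξ b : ℝ} (h : CaseBRel C G ξ b) (h0 : 0 < ξ)
    (h1 : ξ < Real.pi / 2) {ψ : ℝ} (h2 : -ξ ≤ ψ) (h3 : ψ ≤ 0) : G ψ ≤ Real.cos (ψ + ξ) := by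
  obtain ⟨u, hu, hu1, hu2⟩ := h.att ψ
  rw [abs_le] at hu1
  rw [hu2]
  rcases h.gap u hu with h4 | h4
  · exact Real.cos_le_cos_of_nonneg_of_le_pi (by linarith only [h2]) (by linarith only [hu1]) (by linarith only [h4])
  · rw [← Real.cos_neg (ψ - u)]
    exact Real.cos_le_cos_of_nonneg_of_le_pi (by linarith only [h2]) (by linarith only [hu1]) (by linarith only [h3, h4])

/-- the excess is monotone on the right of the normal of the long edge -/
private lemma caseB_mono {C : Set ℝ} {G : ℝ → ℝ} {ξ b : ℝ} (h : CaseBRel C G ξ b) (h0 : 0 < ξ)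
    (h1 : ξ < Real.pi / 2) {ψ θ : ℝ} (hθ : 0 ≤ θ) (h2 : θ ≤ ψ) (h3 : ψ < Real.pi / 2) :
    G (ψ - θ) - Real.cos (ψ - θ - ξ) ≤ G ψ - Real.cos (ψ - ξ) := by
  obtain ⟨u, hu, hu1, hu2⟩ := h.att (ψ - θ)
  rw [abs_le] at hu1
  have hr := h.le ψ ξ h.right
  have hr2 := h.le ψ u hu
  rw [hu2]
  rcases h.gap u hu with h4 | h4
  · have k1 : Real.cos (ψ - θ - u) ≤ Real.cos (ψ - θ - ξ) := by
      rw [← Real.cos_abs (ψ - θ - ξ)]
      refine Real.cos_le_cos_of_nonneg_of_le_pi (abs_nonneg _) (by linarith only [hu1]) ?_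
      rw [abs_le]
      constructor <;> linarith
    linarith only [hr, k1]
  · have e := caseB_F ψ (ψ - θ) u ξ
    have k1 : 0 ≤ Real.sin ((ψ - (ψ - θ)) / 2) :=
      Real.sin_nonneg_of_nonneg_of_le_pi (by linarith only [hθ]) (by linarith only [h0, h1, h2, h3])
    have k2 : 0 ≤ Real.sin ((u - ξ) / 2) :=
      Real.sin_nonneg_of_nonneg_of_le_pi (by linarith only [h4]) (by linarith only [h0, hθ, h3, hu1])
    have k3 : 0 ≤ Real.cos ((ψ + (ψ - θ)) / 2 - (u + ξ) / 2) :=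
      Real.cos_nonneg_of_neg_pi_div_two_le_of_le (by linarith only [h1, hθ, h2, hu1]) (by linarith only [h0, h3, hu1])
    have k4 := mul_nonneg (mul_nonneg (mul_nonneg (by norm_num : (0 : ℝ) ≤ 4) k3) k1) k2
    linarith only [hr2, e, k4]

/-- the placement, relative to the normal of the long edge -/
private lemma caseB_core {C : Set ℝ} {G : ℝ → ℝ} {ξ b : ℝ} (h : CaseBRel C G ξ b) (h0 : 0 < ξ)
    (h1 : ξ < Real.pi / 2) (hb : 0 ≤ b) (hb1 : b < ξ)
    (htan : Real.sin (ξ + b) * Real.cos ξ < 2 * Real.sin ξ * Real.cos (ξ + b)) :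
    ∃ θ α β : ℝ, (∀ ψ, α * Real.cos ψ + β * Real.sin ψ + G (ψ - θ) < 2 * G ψ) ∧
      G 0 ≤ α * Real.cos θ + β * Real.sin θ := by
  obtain ⟨ψ₁, t, hψ, hψ1, ht, ht1, hψt⟩ := caseB_param h0 h1 hb hb1 htan
  obtain ⟨e₀, he₀, hlow⟩ := caseB_low h h0 h1 hψ hψ1
  have hpi := Real.pi_gt_three
  have hcξ : 0 < Real.cos ξ := Real.cos_pos_of_mem_Ioo ⟨by linarith only [h0, hpi], h1⟩
  have hcξ1 : Real.cos ξ ≤ 1 := Real.cos_le_one _
  have hsξ : 0 < Real.sin ξ := Real.sin_pos_of_pos_of_lt_pi h0 (by linarith only [hb, hψ, hψ1, hpi])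
  obtain ⟨θ, hθ, hθξ, hθs, hθt, hθe⟩ : ∃ θ : ℝ, 0 < θ ∧ θ ≤ ξ / 2 ∧ θ ≤ Real.sin ξ ∧ θ ≤ t ∧ θ ≤ e₀ / 8 := by
    refine ⟨min (min (ξ / 2) (Real.sin ξ)) (min t (e₀ / 8)), ?_, ?_, ?_, ?_, ?_⟩
    · exact lt_min (lt_min (by linarith only [h0]) hsξ) (lt_min ht (by linarith only [he₀]))
    · exact (min_le_left _ _).trans (min_le_left _ _)
    · exact (min_le_left _ _).trans (min_le_right _ _)
    · exact (min_le_right _ _).trans (min_le_left _ _)
    · exact (min_le_right _ _).trans (min_le_right _ _)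
  have hθ1 : θ ≤ 1 / 2 := hθt.trans ht1
  set κ := t / 2 with hκ
  have hκ0 : 0 < κ := by linarith only [ht, hκ]
  have hsθ : 0 < Real.sin θ := Real.sin_pos_of_pos_of_lt_pi hθ (by linarith only [hb, hψ, hψ1, hpi, hθξ])
  have hsθ1 : Real.sin θ ≤ θ := Real.sin_le hθ.le
  have hsθ2 : θ - θ ^ 3 / 4 < Real.sin θ := by
    have k1 := Real.sin_gt_sub_cube hθ
    have k2 : 0 < θ ^ 3 := by positivity
    linarith only [hsθ1, k1]
  have hcθ : 1 - θ ^ 2 / 2 ≤ Real.cos θ := Real.one_sub_sq_div_two_le_cos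
  have hcθ1 : Real.cos θ ≤ 1 := Real.cos_le_one _
  have hθ2 : θ ^ 2 ≤ θ := by nlinarith only [ht1, hθ, hθt]
  have hθ3 : θ ^ 2 ≤ t := by linarith only [hθt, hθ2]
  have hsub : Real.sin (ξ - θ) ≤ Real.sin ξ := Real.sin_le_sin_of_le_of_le_pi_div_two (by linarith only [h0, hpi, hθξ]) h1.le (by linarith only [hθ])
  have hsub0 : 0 < Real.sin (ξ - θ) := Real.sin_pos_of_pos_of_lt_pi (by linarith only [hθ, hθξ]) (by linarith only [hb, hψ, hψ1, hpi, hθ])
  have hκθ : 0 < κ * θ ^ 2 := by positivity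
  set α := 2 * Real.cos ξ - Real.cos (ξ - θ) - κ * θ ^ 2 with hα
  set β := Real.sin ξ + t * θ with hβ
  have hper : ∀ ψ, G (ψ + 2 * Real.pi) = G ψ := by
    intro ψ
    apply le_antisymm
    · obtain ⟨u, hu, _, hu2⟩ := h.att (ψ + 2 * Real.pi)
      rw [hu2]
      have e : ψ + 2 * Real.pi - u = (ψ - u) + 2 * Real.pi := by ring
      rw [e, Real.cos_add_two_pi]
      exact h.le ψ u hu
    · obtain ⟨u, hu, _, hu2⟩ := h.att ψ
      rw [hu2]
      have e : Real.cos (ψ - u) = Real.cos (ψ + 2 * Real.pi - u) := by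
        have e : ψ + 2 * Real.pi - u = (ψ - u) + 2 * Real.pi := by ring
        rw [e, Real.cos_add_two_pi]
      rw [e]
      exact h.le _ u hu
  have hperiod : Function.Periodic G (2 * Real.pi) := hper
  -- the main inequality on a period
  have hmain : ∀ ψ, -ξ + θ ≤ ψ → ψ ≤ 2 * Real.pi - ξ + θ →
      α * Real.cos ψ + β * Real.sin ψ + G (ψ - θ) < 2 * G ψ := by
    intro ψ hl hr
    rcases le_total ψ 0 with r1 | r1
    · -- region 1
      have k1 : G (ψ - θ) ≤ Real.cos (ψ - θ + ξ) := caseB_up h h0 h1 (by linarith only [hl]) (by linarith only [hθ, r1])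
      have k2 : Real.cos (ψ + ξ) ≤ G ψ := by
        have := h.le ψ (-ξ) h.left
        rwa [sub_neg_eq_add] at this
      have e1 : Real.cos (ψ - θ + ξ) = Real.cos ψ * Real.cos (ξ - θ) - Real.sin ψ * Real.sin (ξ - θ) := by
        rw [← Real.cos_add]
        congr 1
        ring
      rw [Real.cos_add] at k2
      rw [e1] at k1
      have hc : 0 < Real.cos ψ := Real.cos_pos_of_mem_Ioo ⟨by linarith only [hb, hψ, hψ1, hθ, hl], by linarith only [hpi, r1]⟩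
      have hs : Real.sin ψ ≤ 0 := Real.sin_nonpos_of_nonpos_of_neg_pi_le r1 (by linarith only [hb, hψ, hψ1, hpi, hθ, hl])
      have k3 : 0 < Real.cos ψ * (κ * θ ^ 2) := mul_pos hc hκθ
      have k4 : 0 ≤ (-Real.sin ψ) * (2 * Real.sin ξ - Real.sin (ξ - θ) + β) :=
        mul_nonneg (by linarith only [hs]) (by rw [hβ]; linarith only [hsξ, hsub, mul_pos ht hθ])
      rw [hα]
      linarith only [k1, k2, k3, k4]
    rcases le_total ψ θ with r2 | r2
    · -- region 2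
      have k1 : G (ψ - θ) ≤ Real.cos (ψ - θ + ξ) := caseB_up h h0 h1 (by linarith only [hθ, hθξ, r1]) (by linarith only [r2])
      have k2 : Real.cos (ψ - ξ) ≤ G ψ := h.le ψ ξ h.right
      have e1 : Real.cos (ψ - θ + ξ) = Real.cos ψ * Real.cos (ξ - θ) - Real.sin ψ * Real.sin (ξ - θ) := by
        rw [← Real.cos_add]
        congr 1
        ring
      rw [Real.cos_sub] at k2
      rw [e1] at k1
      have hc : 0 < Real.cos ψ := Real.cos_pos_of_mem_Ioo ⟨by linarith only [hpi, r1], by linarith only [h1, hpi, hθξ, r2]⟩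
      have hs : 0 ≤ Real.sin ψ := Real.sin_nonneg_of_nonneg_of_le_pi r1 (by linarith only [h1, hpi, hθξ, r2])
      have k3 : 0 < Real.cos ψ * (κ * θ ^ 2) := mul_pos hc hκθ
      have k5 : t * θ ≤ Real.sin ξ := by
        have : t * θ ≤ 1 * θ := mul_le_mul_of_nonneg_right (by linarith only [ht1]) hθ.le
        linarith only [hθs, this]
      have k4 : 0 ≤ Real.sin ψ * (2 * Real.sin ξ + Real.sin (ξ - θ) - β) :=
        mul_nonneg hs (by rw [hβ]; linarith only [hsub0, k5])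
      rw [hα]
      linarith only [k1, k2, k3, k4]
    rcases le_total ψ ψ₁ with r3 | r3
    · -- region 3
      have k1 := caseB_mono h h0 h1 hθ.le r2 (by linarith only [hψ1, r3])
      have k2 : Real.cos (ψ - ξ) ≤ G ψ := h.le ψ ξ h.right
      have hs : 0 ≤ Real.sin ψ := Real.sin_nonneg_of_nonneg_of_le_pi r1 (by linarith only [hψ1, hpi, r3])
      have hs1 : Real.sin ψ ≤ Real.sin ψ₁ :=
        Real.sin_le_sin_of_le_of_le_pi_div_two (by linarith only [hpi, hθ, r2]) hψ1.le r3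
      have hc1 : Real.cos ψ₁ ≤ Real.cos ψ := Real.cos_le_cos_of_nonneg_of_le_pi r1 (by linarith only [hψ1, hpi]) r3
      have hc : 0 ≤ Real.cos ψ := Real.cos_nonneg_of_neg_pi_div_two_le_of_le (by linarith only [hpi, hθ, r2]) (by linarith only [hψ1, r3])
      have e1 : Real.cos (ψ - θ - ξ) = Real.cos ψ * (Real.cos ξ * Real.cos θ - Real.sin ξ * Real.sin θ) +
          Real.sin ψ * (Real.sin ξ * Real.cos θ + Real.cos ξ * Real.sin θ) := by
        rw [← Real.cos_add, ← Real.sin_add, ← Real.cos_sub]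
        congr 1
        ring
      have e2 : Real.cos (ξ - θ) = Real.cos ξ * Real.cos θ + Real.sin ξ * Real.sin θ := Real.cos_sub _ _
      have e3 : Real.cos (ψ - ξ) = Real.cos ψ * Real.cos ξ + Real.sin ψ * Real.sin ξ := Real.cos_sub _ _
      have k3 : 0 ≤ Real.cos ψ * (κ * θ ^ 2) := mul_nonneg hc hκθ.le
      have k4 : 0 ≤ Real.sin ψ * (Real.sin ξ * (1 - Real.cos θ)) :=
        mul_nonneg hs (mul_nonneg hsξ.le (by linarith only [hcθ1]))
      have k5 : θ ≤ 2 * Real.sin θ := by nlinarith only [hsθ2, hθ2]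
      have k6 : t * θ * Real.sin ψ ≤ t * (2 * Real.sin θ) * Real.sin ψ :=
        mul_le_mul_of_nonneg_right (mul_le_mul_of_nonneg_left k5 ht.le) hs
      have k7 : 0 < 2 * Real.sin ξ * Real.cos ψ - (2 * t + Real.cos ξ) * Real.sin ψ := by
        have k8 : (2 * t + Real.cos ξ) * Real.sin ψ ≤ (2 * t + Real.cos ξ) * Real.sin ψ₁ :=
          mul_le_mul_of_nonneg_left hs1 (by linarith only [ht, hcξ])
        have k9 : 2 * Real.sin ξ * Real.cos ψ₁ ≤ 2 * Real.sin ξ * Real.cos ψ :=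
          mul_le_mul_of_nonneg_left hc1 (by linarith only [hsξ])
        linarith only [hψt, k8, k9]
      have k10 := mul_pos hsθ k7
      rw [e1, e3] at k1
      rw [e3] at k2
      rw [hα, hβ, e2]
      linarith only [k1, k2, k3, k4, k6, k10]
    · -- region 4
      have k1 := hlow ψ r3 (by linarith only [hθξ, hr])
      have k2 : G (ψ - θ) ≤ G ψ + θ := by
        obtain ⟨u, hu, _, hu2⟩ := h.att (ψ - θ)
        rw [hu2]
        have e : ψ - θ - u = (ψ - u) - θ := by ring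
        rw [e]
        have := caseB_cos_sub (ψ - u) θ hθ.le (by linarith only [ht1, hθt])
        have := h.le ψ u hu
        linarith
      have e3 : Real.cos (ψ - ξ) = Real.cos ψ * Real.cos ξ + Real.sin ψ * Real.sin ξ := Real.cos_sub _ _
      rw [e3] at k1
      have k3 : Real.cos (ξ - θ) - Real.cos ξ ≤ θ := by
        have := caseB_cos_sub ξ θ hθ.le (by linarith only [ht1, hθt])
        linarith only [this]
      have k4 : 0 ≤ Real.cos (ξ - θ) - Real.cos ξ := by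
        have := Real.cos_le_cos_of_nonneg_of_le_pi (by linarith only [hθ, hθξ] : 0 ≤ ξ - θ) (by linarith only [h1, hpi] : ξ ≤ Real.pi) (by linarith only [hθ])
        linarith only [this]
      have k5 : κ * θ ^ 2 ≤ θ := by nlinarith only [ht1, hκ, hθ2]
      have k6 : -(2 * θ) ≤ Real.cos ψ * (Real.cos (ξ - θ) - Real.cos ξ + κ * θ ^ 2) := by
        have := Real.neg_one_le_cos ψ
        linarith only [k3, k5, mul_nonneg (by linarith only [this] : 0 ≤ 1 + Real.cos ψ)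
          (by linarith only [hκθ, k4] : 0 ≤ Real.cos (ξ - θ) - Real.cos ξ + κ * θ ^ 2)]
      have k7 : t * θ * Real.sin ψ ≤ θ := by
        have k8 : t * θ * Real.sin ψ ≤ t * θ * 1 := mul_le_mul_of_nonneg_left (Real.sin_le_one _) (by positivity)
        nlinarith only [ht1, hθ, k8]
      rw [hα, hβ]
      linarith only [hθ, hθe, k1, k2, k6, k7]
  refine ⟨θ, α, β, fun ψ => ?_, ?_⟩
  · obtain ⟨n, hn, _⟩ := existsUnique_add_zsmul_mem_Ico (show (0 : ℝ) < 2 * Real.pi by linarith only [hpi]) ψ (-ξ + θ)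
    have hn : -ξ + θ ≤ ψ + n • (2 * Real.pi) ∧ ψ + n • (2 * Real.pi) < -ξ + θ + 2 * Real.pi := hn
    have k := hmain (ψ + n • (2 * Real.pi)) hn.1 (by linarith only [hn])
    have e1 : G (ψ + n • (2 * Real.pi)) = G ψ := hperiod.zsmul n ψ
    have e2 : G (ψ + n • (2 * Real.pi) - θ) = G (ψ - θ) := by
      have : ψ + n • (2 * Real.pi) - θ = (ψ - θ) + n • (2 * Real.pi) := by ring
      rw [this]
      exact hperiod.zsmul n _
    have e3 : Real.cos (ψ + n • (2 * Real.pi)) = Real.cos ψ := Real.cos_periodic.zsmul n ψ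
    have e4 : Real.sin (ψ + n • (2 * Real.pi)) = Real.sin ψ := Real.sin_periodic.zsmul n ψ
    rw [e1, e2, e3, e4] at k
    exact k
  · have k1 : G 0 ≤ Real.cos ξ := by
      have := caseB_up h h0 h1 (by linarith only [h0] : -ξ ≤ 0) le_rfl
      rwa [zero_add] at this
    have e : α * Real.cos θ + β * Real.sin θ - Real.cos ξ = -(Real.cos ξ * (1 - Real.cos θ) ^ 2) +
        Real.sin ξ * Real.sin θ * (1 - Real.cos θ) + t * θ * Real.sin θ - κ * θ ^ 2 * Real.cos θ := by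
      rw [hα, hβ, Real.cos_sub]
      ring
    have k2 : (1 - Real.cos θ) ^ 2 ≤ (θ ^ 2 / 2) ^ 2 := pow_le_pow_left₀ (by linarith only [hcθ1]) (by linarith only [hcθ]) 2
    have k3 : Real.cos ξ * (1 - Real.cos θ) ^ 2 ≤ (θ ^ 2 / 2) ^ 2 := by
      have : Real.cos ξ * (1 - Real.cos θ) ^ 2 ≤ 1 * (θ ^ 2 / 2) ^ 2 :=
        mul_le_mul hcξ1 k2 (sq_nonneg _) (by norm_num)
      linarith only [this]
    have k4 : 0 ≤ Real.sin ξ * Real.sin θ * (1 - Real.cos θ) :=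
      mul_nonneg (mul_nonneg hsξ.le hsθ.le) (by linarith only [hcθ1])
    have k5 : t * θ * (θ - θ ^ 3 / 4) ≤ t * θ * Real.sin θ :=
      mul_le_mul_of_nonneg_left hsθ2.le (by positivity)
    have k6 : κ * θ ^ 2 * Real.cos θ ≤ κ * θ ^ 2 * 1 := mul_le_mul_of_nonneg_left hcθ1 hκθ.le
    have k7 : 0 ≤ θ ^ 2 * (t / 2 - t * θ ^ 2 / 4 - θ ^ 2 / 4) := by
      apply mul_nonneg (sq_nonneg _)
      have : t * θ ^ 2 ≤ 1 * t := mul_le_mul (by linarith only [ht1]) hθ3 (sq_nonneg _) (by norm_num)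
      linarith only [hθt, hθ2, this]
    have k8 : κ = t / 2 := hκ
    rw [k8] at k6 e
    linarith only [k1, e, k3, k4, k5, k6, k7]

theorem caseB {C : Set ℝ} {g : ℝ → ℝ} (hC : Cyc C g) {ξ b P : ℝ} (h0 : 0 < ξ)
    (h1 : ξ < Real.pi / 2) (hb : 0 ≤ b) (hb1 : b < ξ) (hP : P ∈ C) (hP' : P - 2 * ξ ∈ C)
    (hgap : ∀ c ∈ C, ¬ (P - 2 * ξ < c ∧ c < P))
    (hnext : ∀ ε : ℝ, 0 < ε → ∃ c ∈ C, P < c ∧ c < P + 2 * b + ε)
    (htan : Real.sin (ξ + b) * Real.cos ξ < 2 * Real.sin ξ * Real.cos (ξ + b)) : Gain g := by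
  have hrel : CaseBRel {u | u + (P - ξ) ∈ C} (fun ψ => g (ψ + (P - ξ))) ξ b := by
    refine ⟨fun ψ => ?_, fun ψ u hu => ?_, ?_, ?_, fun u hu => ?_, fun ε hε => ?_⟩
    · obtain ⟨c, hc, hc1, hc2⟩ := hC.att (ψ + (P - ξ))
      refine ⟨c - (P - ξ), ?_, ?_, ?_⟩
      · show c - (P - ξ) + (P - ξ) ∈ C
        rwa [sub_add_cancel]
      · have e : ψ - (c - (P - ξ)) = ψ + (P - ξ) - c := by ring
        rw [e]
        exact hc1
      · show g (ψ + (P - ξ)) = _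
        rw [hc2]
        congr 1
        ring
    · have := hC.le (ψ + (P - ξ)) (u + (P - ξ)) hu
      have e : ψ - u = ψ + (P - ξ) - (u + (P - ξ)) := by ring
      rw [e]
      exact this
    · show ξ + (P - ξ) ∈ C
      have e : ξ + (P - ξ) = P := by ring
      rw [e]
      exact hP
    · show -ξ + (P - ξ) ∈ C
      have e : -ξ + (P - ξ) = P - 2 * ξ := by ring
      rw [e]
      exact hP'
    · have := hgap (u + (P - ξ)) hu
      by_contra hcon
      push Not at hcon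
      exact this ⟨by linarith only [hcon], by linarith only [hcon]⟩
    · obtain ⟨c, hc, hc1, hc2⟩ := hnext ε hε
      refine ⟨c - (P - ξ), ?_, by linarith only [hc1], by linarith only [hc2]⟩
      show c - (P - ξ) + (P - ξ) ∈ C
      rwa [sub_add_cancel]
  obtain ⟨θ, α, β, hmain, hfin⟩ := caseB_core hrel h0 h1 hb hb1 htan
  have hip : ∀ φ, ip ((α : ℂ) * ex (P - ξ) + (β : ℂ) * (I * ex (P - ξ))) (ex φ) =
      α * Real.cos (φ - (P - ξ)) + β * Real.sin (φ - (P - ξ)) := by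
    intro φ
    have k1 : Real.cos (φ - (P - ξ)) = Real.cos φ * Real.cos (P - ξ) + Real.sin φ * Real.sin (P - ξ) := Real.cos_sub _ _
    have k2 : Real.sin (φ - (P - ξ)) = Real.sin φ * Real.cos (P - ξ) - Real.cos φ * Real.sin (P - ξ) := Real.sin_sub _ _
    rw [k1, k2, ip_add_left, ip_smul_left, ip_smul_left, ip_ex, ip_ex, mul_re, mul_im, ex_re, ex_im, I_re, I_im]
    ring
  refine ⟨θ, (α : ℂ) * ex (P - ξ) + (β : ℂ) * (I * ex (P - ξ)), P - ξ + θ, fun φ => ?_, ?_⟩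
  · rw [hip]
    have k := hmain (φ - (P - ξ))
    have e1 : φ - (P - ξ) - θ + (P - ξ) = φ - θ := by ring
    have e2 : φ - (P - ξ) + (P - ξ) = φ := by ring
    simp only [e1, e2] at k
    exact k
  · rw [hip]
    have e1 : P - ξ + θ - (P - ξ) = θ := by ring
    have e2 : P - ξ + θ - θ = 0 + (P - ξ) := by ring
    rw [e1, e2]
    exact hfin

end Pool.Agent.H45.TC
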