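import Pool.Agent.H45.TC.Defs2

set_option autoImplicit false

/-!
# Case C: long figures

PROOF. `x = cos ξ`, `s = sin ξ`, `ζ = π / 2 - ξ` (`sin ζ = x`, `cos ζ = s`). `x < .618` gives
`x + x ^ 2 < 1`, so `x < s ^ 2`, and `s > 78 / 100`. Let `θ₁ ∈ (0, π / 2)` with `sin θ₁ = x / s`
(`< s = sin ξ`, so `θ₁ < ξ`). Choose `θ` slightly larger than `θ₁` such that
(1) `θ < ξ`, (2) `cos (ξ - θ) < 2 x` (at `θ₁`: `cos (ξ - θ₁) = x cos θ₁ + s sin θ₁ =
x (1 + cos θ₁) < 2 x`; continuity), (3) `s sin θ > x` (`sin` is increasing), so also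
(4) `θ > ζ` (`sin θ > x / s > x = sin ζ`).

The copy: `τ = - θ`, `φ₀ = θ₀ - θ`, `w = w₁ ex (θ₀ - π / 2) + w₂ ex θ₀` with
`w₁ = 2 s - cos (θ - ζ) - ε`, `w₂ = 2 x - cos (ξ - θ) - ε`, `ε > 0` small. `w₁ > 0`, `w₂ > 0`.

Second condition: `g (φ₀ - τ) = g θ₀ ≤ cos ξ = x` (gap), and
`ip w (ex (θ₀ - θ)) = w₁ sin θ + w₂ cos θ`; for `ε = 0` it is
`2 s sin θ - cos (θ - ζ) sin θ + 2 x cos θ - cos (ξ - θ) cos θ` with
`cos (θ - ζ) = s cos θ + x sin θ`, `cos (ξ - θ) = x cos θ + s sin θ`, which equals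
`x + (1 - cos θ) * ... `: precisely, it is `x + 2 (1 - cos θ) (s sin θ - x) ` (check: both sides are
`2 s sin θ + 2 x cos θ - x - 2 s sin θ cos θ`, up to the sign conventions; use `cos ^ 2 + sin ^ 2 = 1`).
It is `> x`, hence also for small `ε`.

First condition, `φ = θ₀ + ψ`: `ip w (ex φ) = w₁ sin ψ + w₂ cos ψ` up to sign
(`ex (θ₀ - π / 2) = - I ex θ₀`, so the first term is `- w₁ sin ψ`), `|ip w (ex φ)| ≤
w₁ |sin ψ| + w₂ |cos ψ|`. The support function of the copy is sublinear: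
`g (φ - τ) ≤ |cos ψ| g (θ₀ - τ) + |sin ψ| g (θ₀ - π / 2 - τ)` (for `c ∈ C` with
`g (φ - τ) = cos (φ - τ - c)` expand `cos (ψ + (θ₀ - τ - c)) = cos ψ cos (θ₀ - τ - c) -
sin ψ sin (θ₀ - τ - c)` and use `|cos (θ₀ - τ - c)| ≤ g (θ₀ - τ)`, and
`|sin (θ₀ - τ - c)| = |cos (θ₀ - π / 2 - τ - c)| ≤ g (θ₀ - π / 2 - τ)`; the absolute values by
`c + π ∈ C`). And `g (θ₀ - τ) = g (θ₀ + θ) ≤ cos (ξ - θ)` (the nearest point of `C` is at distance
`≥ ξ - θ` because of the gap, `0 < θ < ξ`), `g (θ₀ - π / 2 + θ) ≤ cos (θ - ζ)` (the angle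
`θ₀ - π / 2 + θ = θ₀ - ξ + (θ - ζ)` lies in the gap, at distance `θ - ζ` from `θ₀ - ξ` and at distance
`≥ θ - ζ` from `θ₀ + ξ`, as `2 θ ≤ 2 ξ < π`). Finally `g φ ≥ s |sin ψ| + x |cos ψ|` (the four points
`θ₀ ± ξ`, `θ₀ ± ξ + π` of `C`). So
`2 g φ - g (φ - τ) - ip w (ex φ) ≥ |sin ψ| (2 s - cos (θ - ζ) - w₁) + |cos ψ| (2 x - cos (ξ - θ) - w₂)
= ε (|sin ψ| + |cos ψ|) > 0`.
-/

namespace Pool.Agent.H45.TC

open Pool.Agent.H50.CP Complex Set

/-- at distance at least `d` the cosine is at most `cos d` -/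
private lemma caseC_cos_le {a d : ℝ} (hd : 0 ≤ d) (h : d ≤ |a|) (ha : |a| ≤ Real.pi / 2) :
    Real.cos a ≤ Real.cos d := by
  rw [← Real.cos_abs a]
  exact Real.cos_le_cos_of_nonneg_of_le_pi hd (by linarith [Real.pi_pos]) h

private lemma caseC_lin {a A : ℝ} (h1 : a ≤ A) (h2 : -a ≤ A) (s : ℝ) : s * a ≤ |s| * A := by
  have h3 : |a| ≤ A := abs_le.2 ⟨by linarith, h1⟩
  calc s * a ≤ |s * a| := le_abs_self _
    _ = |s| * |a| := abs_mul s a
    _ ≤ |s| * A := mul_le_mul_of_nonneg_left h3 (abs_nonneg s)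

theorem caseC {C : Set ℝ} {g : ℝ → ℝ} (hC : Cyc C g) {ξ θ₀ : ℝ} (h0 : 0 < ξ)
    (h1 : ξ < Real.pi / 2) (hx : Real.cos ξ < 618 / 1000)
    (hgap : ∀ c ∈ C, ¬ (θ₀ - ξ < c ∧ c < θ₀ + ξ)) (e1 : θ₀ - ξ ∈ C) (e2 : θ₀ + ξ ∈ C) :
    Gain g := by
  have hpi := Real.pi_pos
  set x := Real.cos ξ with hxd
  set s := Real.sin ξ with hsd
  have hx0 : 0 < x := Real.cos_pos_of_mem_Ioo ⟨by linarith, h1⟩
  have hs0 : 0 < s := Real.sin_pos_of_pos_of_lt_pi h0 (by linarith)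
  have hsx : s ^ 2 + x ^ 2 = 1 := Real.sin_sq_add_cos_sq ξ
  have hx2 : x ^ 2 ≤ 618 / 1000 * x := by
    rw [sq]
    exact mul_le_mul_of_nonneg_right hx.le hx0.le
  have hxs : x < s ^ 2 := by linarith
  have hs78 : 78 / 100 < s := by
    by_contra hcon
    rw [not_lt] at hcon
    have : s ^ 2 ≤ (78 / 100) ^ 2 := pow_le_pow_left₀ hs0.le hcon 2
    norm_num at this
    linarith
  have hs1 : s < 1 := by
    by_contra hcon
    rw [not_lt] at hcon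
    have h2 : (1 : ℝ) ≤ s ^ 2 := one_le_pow₀ hcon
    have h3 : 0 < x ^ 2 := pow_pos hx0 2
    linarith
  -- the angle
  have hq0 : 0 < x / s := div_pos hx0 hs0
  have hqs : x / s < s := by
    rw [div_lt_iff₀ hs0, ← sq]
    exact hxs
  set θ₁ := Real.arcsin (x / s) with hθ₁
  have hsin1 : Real.sin θ₁ = x / s := Real.sin_arcsin (by linarith) (by linarith)
  have hθ₁0 : 0 < θ₁ := Real.arcsin_pos.2 hq0
  have hθ₁ξ : θ₁ < ξ := by
    rw [hθ₁, Real.arcsin_lt_iff_lt_sin ⟨by linarith, by linarith⟩ ⟨by linarith, h1.le⟩]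
    exact hqs
  have hc1 : Real.cos (ξ - θ₁) < 2 * x := by
    rw [Real.cos_sub, hsin1, ← hxd, ← hsd]
    have e : s * (x / s) = x := by field_simp
    rw [e]
    have hc : Real.cos θ₁ < 1 := by
      have := Real.cos_lt_cos_of_nonneg_of_le_pi (x := 0) (y := θ₁) le_rfl (by linarith) hθ₁0
      rwa [Real.cos_zero] at this
    have h2 := mul_lt_mul_of_pos_left hc hx0
    linarith
  have hcont : ContinuousAt (fun t : ℝ => Real.cos (ξ - t)) θ₁ := by fun_prop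
  have hev : ∀ᶠ t in nhds θ₁, Real.cos (ξ - t) < 2 * x := hcont.eventually_lt_const hc1
  obtain ⟨θ, hθa, hθb, hθc⟩ : ∃ θ, θ₁ < θ ∧ θ < ξ ∧ Real.cos (ξ - θ) < 2 * x := by
    have h2 : ∀ᶠ t in nhdsWithin θ₁ (Set.Ioi θ₁), Real.cos (ξ - t) < 2 * x := hev.filter_mono nhdsWithin_le_nhds
    have h3 : ∀ᶠ t in nhdsWithin θ₁ (Set.Ioi θ₁), t < ξ := Ioo_mem_nhdsGT hθ₁ξ |> fun h => by
      filter_upwards [h] with t ht using ht.2
    have h4 : ∀ᶠ t in nhdsWithin θ₁ (Set.Ioi θ₁), θ₁ < t := by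
      filter_upwards [self_mem_nhdsWithin] with t ht using ht
    obtain ⟨t, ht⟩ := (h2.and (h3.and h4)).exists
    exact ⟨t, ht.2.2, ht.2.1, ht.1⟩
  have hθ0 : 0 < θ := hθ₁0.trans hθa
  set S := Real.sin θ with hSd
  set K := Real.cos θ with hKd
  have hSx : x / s < S := by
    rw [← hsin1]
    exact Real.sin_lt_sin_of_lt_of_le_pi_div_two (by linarith) (by linarith) hθa
  have hsS : x < s * S := by
    rw [div_lt_iff₀ hs0] at hSx
    linarith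
  have hS0 : 0 < S := hq0.trans hSx
  have hS1 : S ≤ 1 := Real.sin_le_one _
  have hK1 : K < 1 := by
    have := Real.cos_lt_cos_of_nonneg_of_le_pi (x := 0) (y := θ) le_rfl (by linarith) hθ0
    rwa [Real.cos_zero] at this
  have hSK : S ^ 2 + K ^ 2 = 1 := Real.sin_sq_add_cos_sq θ
  have hxS : x < S := by
    have h2 : s * S ≤ 1 * S := mul_le_mul_of_nonneg_right hs1.le hS0.le
    linarith
  have hζ : Real.pi / 2 - ξ < θ := by
    by_contra hcon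
    rw [not_lt] at hcon
    have : Real.sin θ ≤ Real.sin (Real.pi / 2 - ξ) :=
      Real.sin_le_sin_of_le_of_le_pi_div_two (by linarith) (by linarith) hcon
    rw [Real.sin_pi_div_two_sub] at this
    linarith
  -- bounds for g
  have hnn : ∀ c ∈ C, c ≤ θ₀ - ξ ∨ θ₀ + ξ ≤ c := by
    intro c hc
    have := hgap c hc
    rw [not_and_or, not_lt, not_lt] at this
    exact this
  have b1 : g θ₀ ≤ x := by
    obtain ⟨c, hc, hc1, hc2⟩ := hC.att θ₀
    rw [hc2]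
    refine caseC_cos_le h0.le ?_ hc1
    rcases hnn c hc with h | h
    · exact le_trans (by linarith) (le_abs_self _)
    · exact le_trans (by linarith) (neg_le_abs _)
  have b2 : g (θ₀ + θ) ≤ Real.cos (ξ - θ) := by
    obtain ⟨c, hc, hc1, hc2⟩ := hC.att (θ₀ + θ)
    rw [hc2]
    refine caseC_cos_le (by linarith) ?_ hc1
    rcases hnn c hc with h | h
    · exact le_trans (by linarith) (le_abs_self _)
    · exact le_trans (by linarith) (neg_le_abs _)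
  have b3 : g (θ₀ - Real.pi / 2 + θ) ≤ Real.cos (θ - (Real.pi / 2 - ξ)) := by
    obtain ⟨c, hc, hc1, hc2⟩ := hC.att (θ₀ - Real.pi / 2 + θ)
    rw [hc2]
    refine caseC_cos_le (by linarith) ?_ hc1
    rcases hnn c hc with h | h
    · exact le_trans (by linarith) (le_abs_self _)
    · exact le_trans (by linarith) (neg_le_abs _)
  have b4 : ∀ ψ, s * |Real.sin ψ| + x * |Real.cos ψ| ≤ g (θ₀ + ψ) := by
    intro ψ
    have f2 : Real.cos ψ * x + Real.sin ψ * s ≤ g (θ₀ + ψ) := by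
      have := hC.le (θ₀ + ψ) _ e2
      rwa [show θ₀ + ψ - (θ₀ + ξ) = ψ - ξ by ring, Real.cos_sub] at this
    have f1 : Real.cos ψ * x - Real.sin ψ * s ≤ g (θ₀ + ψ) := by
      have := hC.le (θ₀ + ψ) _ e1
      rwa [show θ₀ + ψ - (θ₀ - ξ) = ψ + ξ by ring, Real.cos_add] at this
    have f4 : -(Real.cos ψ * x + Real.sin ψ * s) ≤ g (θ₀ + ψ) := by
      have := hC.le (θ₀ + ψ) _ ((hC.per _).1 e2)
      rwa [show θ₀ + ψ - (θ₀ + ξ + Real.pi) = (ψ - ξ) - Real.pi by ring, Real.cos_sub_pi, Real.cos_sub] at this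
    have f3 : -(Real.cos ψ * x - Real.sin ψ * s) ≤ g (θ₀ + ψ) := by
      have := hC.le (θ₀ + ψ) _ ((hC.per _).1 e1)
      rwa [show θ₀ + ψ - (θ₀ - ξ + Real.pi) = (ψ + ξ) - Real.pi by ring, Real.cos_sub_pi, Real.cos_add] at this
    rcases abs_cases (Real.sin ψ) with ⟨h, _⟩ | ⟨h, _⟩ <;> rcases abs_cases (Real.cos ψ) with ⟨h', _⟩ | ⟨h', _⟩ <;>
      rw [h, h'] <;> linarith
  have hneg : ∀ t, ∀ c ∈ C, -Real.cos (t - c) ≤ g t := by
    intro t c hc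
    have := hC.le t _ ((hC.per c).1 hc)
    rwa [show t - (c + Real.pi) = (t - c) - Real.pi by ring, Real.cos_sub_pi] at this
  have b5 : ∀ ψ, g (θ₀ + ψ + θ) ≤ |Real.cos ψ| * Real.cos (ξ - θ) + |Real.sin ψ| * Real.cos (θ - (Real.pi / 2 - ξ)) := by
    intro ψ
    obtain ⟨c, hc, -, hc2⟩ := hC.att (θ₀ + ψ + θ)
    rw [hc2, show θ₀ + ψ + θ - c = ψ + (θ₀ + θ - c) by ring, Real.cos_add]
    have u1 := caseC_lin ((hC.le (θ₀ + θ) c hc).trans b2) ((hneg (θ₀ + θ) c hc).trans b2) (Real.cos ψ)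
    have e3 : Real.cos (θ₀ - Real.pi / 2 + θ - c) = Real.sin (θ₀ + θ - c) := by
      rw [show θ₀ - Real.pi / 2 + θ - c = (θ₀ + θ - c) - Real.pi / 2 by ring, Real.cos_sub_pi_div_two]
    have u2 := caseC_lin ((hC.le (θ₀ - Real.pi / 2 + θ) c hc).trans b3)
      ((hneg (θ₀ - Real.pi / 2 + θ) c hc).trans b3) (-Real.sin ψ)
    rw [e3, abs_neg] at u2
    linarith
  have hcξ : Real.cos (ξ - θ) = x * K + s * S := Real.cos_sub ξ θ
  have hcζ : Real.cos (θ - (Real.pi / 2 - ξ)) = S * x + K * s := by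
    rw [show θ - (Real.pi / 2 - ξ) = (θ + ξ) - Real.pi / 2 by ring, Real.cos_sub_pi_div_two, Real.sin_add]
  -- the translation
  obtain ⟨ε, hε0, hε1, hε2, hε3⟩ : ∃ ε : ℝ, 0 < ε ∧ ε ≤ 2 * x - Real.cos (ξ - θ) ∧ ε ≤ 2 * s - 1 ∧
      ε ≤ (1 - K) * (s * S - x) := by
    refine ⟨min (2 * x - Real.cos (ξ - θ)) (min (2 * s - 1) ((1 - K) * (s * S - x))), ?_, min_le_left _ _,
      (min_le_right _ _).trans (min_le_left _ _), (min_le_right _ _).trans (min_le_right _ _)⟩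
    refine lt_min (by linarith) (lt_min (by linarith) (mul_pos (by linarith) (by linarith)))
  set w₁ := 2 * s - Real.cos (θ - (Real.pi / 2 - ξ)) - ε with hw₁
  set w₂ := 2 * x - Real.cos (ξ - θ) - ε with hw₂
  have hw₁0 : 0 ≤ w₁ := by
    have := Real.cos_le_one (θ - (Real.pi / 2 - ξ))
    linarith
  have hw₂0 : 0 ≤ w₂ := by linarith
  have hip : ∀ ψ, ip ((w₁ : ℂ) * ex (θ₀ - Real.pi / 2) + (w₂ : ℂ) * ex θ₀) (ex (θ₀ + ψ)) =
      -(w₁ * Real.sin ψ) + w₂ * Real.cos ψ := by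
    intro ψ
    rw [ip_add_left, ip_pol, ip_pol, show θ₀ - Real.pi / 2 - (θ₀ + ψ) = -(ψ + Real.pi / 2) by ring,
      show θ₀ - (θ₀ + ψ) = -ψ by ring, Real.cos_neg, Real.cos_neg, Real.cos_add_pi_div_two]
    ring
  refine ⟨-θ, (w₁ : ℂ) * ex (θ₀ - Real.pi / 2) + (w₂ : ℂ) * ex θ₀, θ₀ - θ, fun φ => ?_, ?_⟩
  · obtain ⟨ψ, rfl⟩ : ∃ ψ, φ = θ₀ + ψ := ⟨φ - θ₀, by ring⟩
    rw [hip, sub_neg_eq_add]
    have u1 := b4 ψ
    have u2 := b5 ψ
    have u3 : -(w₁ * Real.sin ψ) ≤ w₁ * |Real.sin ψ| := by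
      rw [← mul_neg]
      exact mul_le_mul_of_nonneg_left (neg_le_abs _) hw₁0
    have u4 : w₂ * Real.cos ψ ≤ w₂ * |Real.cos ψ| := mul_le_mul_of_nonneg_left (le_abs_self _) hw₂0
    have u5 : 0 < |Real.sin ψ| + |Real.cos ψ| := by
      have a1 := abs_nonneg (Real.sin ψ)
      have a2 := abs_nonneg (Real.cos ψ)
      rcases (add_nonneg a1 a2).lt_or_eq with h | h
      · exact h
      · exfalso
        have z1 : Real.sin ψ = 0 := abs_eq_zero.1 (by linarith)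
        have z2 : Real.cos ψ = 0 := abs_eq_zero.1 (by linarith)
        have := Real.sin_sq_add_cos_sq ψ
        rw [z1, z2] at this
        norm_num at this
    have u6 := mul_pos hε0 u5
    have e5 : w₁ * |Real.sin ψ| + w₂ * |Real.cos ψ| + (|Real.cos ψ| * Real.cos (ξ - θ) +
        |Real.sin ψ| * Real.cos (θ - (Real.pi / 2 - ξ))) = 2 * (s * |Real.sin ψ| + x * |Real.cos ψ|) -
        ε * (|Real.sin ψ| + |Real.cos ψ|) := by
      rw [hw₁, hw₂]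
      ring
    linarith
  · rw [show θ₀ - θ - -θ = θ₀ by ring, show θ₀ - θ = θ₀ + -θ by ring, hip, Real.sin_neg, Real.cos_neg]
    refine b1.trans ?_
    rw [← hSd, ← hKd, hw₁, hw₂, hcξ, hcζ]
    have e6 : -((2 * s - (S * x + K * s) - ε) * -S) + (2 * x - (x * K + s * S) - ε) * K =
        x + 2 * ((1 - K) * (s * S - x)) - ε * (S + K) + x * (1 - (S ^ 2 + K ^ 2)) := by ring
    rw [e6, hSK]
    have e7 : ε * (S + K) ≤ ε * 2 := mul_le_mul_of_nonneg_left (by linarith) hε0.le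
    have e8 : x * (1 - 1) = 0 := by ring
    linarith

end Pool.Agent.H45.TC
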