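import Pool.Agent.H45.TC.Defs2

set_option autoImplicit false

/-!
# The gaps of a closed periodic set of angles

PROOF. `C` is closed, nonempty (`att`), `C + π = C`. Let `δ θ = Metric.infDist θ C`; it is continuous
with period `π`, so it attains its maximum `ξ` at some `θ₀`. `ξ > 0` as `C ≠ univ` (closed). For every
`θ` there is `c ∈ C` with `|θ - c| = δ θ ≤ ξ` (`IsClosed.exists_infDist_eq_dist`), and
`δ θ ≤ π / 2` (`att`), so `ξ ≤ π / 2`, and `cos ξ ≤ cos (θ - c) ≤ g θ`.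

`(θ₀ - ξ, θ₀ + ξ)` does not meet `C`. Both `θ₀ + ξ` and `θ₀ - ξ` are in `C`: one of them is, as the
distance is attained; if `θ₀ + ξ ∉ C` then for small `e > 0` the interval
`(θ₀ - ξ, θ₀ + ξ + 2 e)` does not meet `C` (`C` closed), so `δ (θ₀ + e) > ξ` unless `θ₀ - ξ ∈ C` is
at distance `≤ ξ` from `θ₀ + e`, which it is not (`ξ + e`). The same on the other side. Let
`P = θ₀ + ξ`.

Call `P'` good if `P' ∈ C`, `P' - 2 ξ ∈ C` and `(P' - 2 ξ, P')` does not meet `C`. `P` is good.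
Case 1: for every good `P'` the interval `(P', P' + 2 ξ)` does not meet `C`. Then for a good `P'` the
point `P' + 2 ξ` is in `C` (otherwise, `C` being closed, there is `e > 0` such that
`(P', P' + 2 ξ + 2 e)` does not meet `C` and `δ (P' + ξ + e) > ξ`), so it is good. By induction all
`P + 2 ξ k`, `k ∈ ℕ`, are good, so `C ∩ [P, ∞)` consists of the points `P + 2 ξ k`, `k ∈ ℕ`. By the
period `π` (`c + N π ∈ C` for all natural `N`): first, `P + π ∈ C` gives `π = 2 ξ m`, `m ∈ ℕ`; for any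
`c ∈ C` choose `N` with `c + N π ≥ P`, then `c + N π = P + 2 ξ k` and `c = P + 2 ξ (k - m N)`; and
conversely `P + 2 ξ k` for `k ∈ ℤ` is `P + 2 ξ (k + m N) - N π ∈ C` for large `N`.
Case 2: some good `P'` has a point of `C` in `(P', P' + 2 ξ)`. Let
`q = sInf (C ∩ Ioi P')`; `P' ≤ q < P' + 2 ξ`, `b = (q - P') / 2`. If `q > P'` then `q ∈ C` (closed).
There is no point of `C` in `(P', P' + 2 b)`, and for `ε > 0` there is one in
`(P', P' + 2 b + ε)` (definition of the infimum).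
-/

namespace Pool.Agent.H45.TC

open Pool.Agent.H50.CP Set

private lemma Gap_perN {C : Set ℝ} {g : ℝ → ℝ} (hC : Cyc C g) (k : ℕ) (c : ℝ) :
    c ∈ C ↔ c + k * Real.pi ∈ C := by
  induction k with
  | zero => simp
  | succ k ih =>
    rw [ih, hC.per]
    push_cast
    rw [show c + k * Real.pi + Real.pi = c + (k + 1) * Real.pi by ring]

private lemma Gap_perZ {C : Set ℝ} {g : ℝ → ℝ} (hC : Cyc C g) (k : ℤ) (c : ℝ) :
    c ∈ C ↔ c + k * Real.pi ∈ C := by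
  rcases Int.eq_nat_or_neg k with ⟨n, rfl | rfl⟩
  · rw [Gap_perN hC n c]
    push_cast
    rfl
  · rw [Gap_perN hC n (c + ((-(n : ℤ) : ℤ) : ℝ) * Real.pi)]
    push_cast
    rw [show c + -(n : ℝ) * Real.pi + n * Real.pi = c by ring]

private lemma Gap_shift {C : Set ℝ} {g : ℝ → ℝ} (hC : Cyc C g) (hn : C.Nonempty) (k : ℤ)
    (t : ℝ) : Metric.infDist (t + k * Real.pi) C ≤ Metric.infDist t C := by
  rw [Metric.le_infDist hn]
  intro c hc
  have h := Metric.infDist_le_dist_of_mem (x := t + k * Real.pi) ((Gap_perZ hC k c).1 hc)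
  rwa [dist_add_right] at h

/-- The data of the largest gap. -/
private lemma Gap_max {C : Set ℝ} {g : ℝ → ℝ} (hC : Cyc C g) (hne : C ≠ univ) :
    ∃ (ξ θ₀ : ℝ), 0 < ξ ∧ ξ ≤ Real.pi / 2 ∧ (∀ θ, ∃ c ∈ C, |θ - c| ≤ ξ) ∧
      (∀ c ∈ C, ξ ≤ |θ₀ - c|) := by
  have hpi := Real.pi_pos
  obtain ⟨c₀, hc₀, -⟩ := hC.att 0
  have hn : C.Nonempty := ⟨c₀, hc₀⟩
  obtain ⟨θ₀, -, hmax⟩ := (isCompact_Icc (a := (0 : ℝ)) (b := Real.pi)).exists_isMaxOn
    ⟨0, by constructor <;> linarith⟩ (Metric.continuous_infDist_pt C).continuousOn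
  have hall : ∀ t, Metric.infDist t C ≤ Metric.infDist θ₀ C := by
    intro t
    have h1 : t - ⌊t / Real.pi⌋ * Real.pi ∈ Icc (0 : ℝ) Real.pi := by
      have a1 := Int.floor_le (t / Real.pi)
      have a2 := Int.lt_floor_add_one (t / Real.pi)
      rw [le_div_iff₀ hpi] at a1
      rw [div_lt_iff₀ hpi] at a2
      constructor
      · linarith
      · linarith
    have h2 := hmax h1
    have h3 := Gap_shift hC hn ⌊t / Real.pi⌋ (t - ⌊t / Real.pi⌋ * Real.pi)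
    rw [sub_add_cancel] at h3
    exact h3.trans h2
  refine ⟨Metric.infDist θ₀ C, θ₀, ?_, ?_, ?_, ?_⟩
  · obtain ⟨x, hx⟩ := (Set.ne_univ_iff_exists_notMem C).1 hne
    exact lt_of_lt_of_le ((hC.closed.notMem_iff_infDist_pos hn).1 hx) (hall x)
  · obtain ⟨c, hc, h1, -⟩ := hC.att θ₀
    refine (Metric.infDist_le_dist_of_mem hc).trans ?_
    rwa [Real.dist_eq]
  · intro θ
    obtain ⟨c, hc, h1⟩ := hC.closed.exists_infDist_eq_dist hn θ
    refine ⟨c, hc, ?_⟩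
    rw [← Real.dist_eq, ← h1]
    exact hall θ
  · intro c hc
    rw [← Real.dist_eq]
    exact Metric.infDist_le_dist_of_mem hc

/-- No gap is longer than `2 ξ`. -/
private lemma Gap_len {C : Set ℝ} {ξ a b : ℝ} (hd : ∀ θ, ∃ c ∈ C, |θ - c| ≤ ξ)
    (h : ∀ c ∈ C, ¬ (a < c ∧ c < b)) : b - a ≤ 2 * ξ := by
  by_contra hlt
  rw [not_le] at hlt
  obtain ⟨c, hc, h1⟩ := hd ((a + b) / 2)
  rw [abs_le] at h1
  exact h c hc ⟨by linarith [h1.2], by linarith [h1.1]⟩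

private lemma Gap_right {C : Set ℝ} {ξ a : ℝ} (hcl : IsClosed C)
    (hd : ∀ θ, ∃ c ∈ C, |θ - c| ≤ ξ)
    (h : ∀ c ∈ C, ¬ (a < c ∧ c < a + 2 * ξ)) : a + 2 * ξ ∈ C := by
  by_contra hn
  obtain ⟨e, he, hb⟩ := Metric.isOpen_iff.1 hcl.isOpen_compl _ hn
  have h2 := Gap_len (C := C) (a := a) (b := a + 2 * ξ + e) hd (by
    intro c hc hlt
    rcases lt_or_ge c (a + 2 * ξ) with h3 | h3
    · exact h c hc ⟨hlt.1, h3⟩
    · refine hb ?_ hc
      rw [Metric.mem_ball, Real.dist_eq, abs_lt]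
      constructor <;> linarith [hlt.2])
  linarith

private lemma Gap_left {C : Set ℝ} {ξ a : ℝ} (hcl : IsClosed C)
    (hd : ∀ θ, ∃ c ∈ C, |θ - c| ≤ ξ)
    (h : ∀ c ∈ C, ¬ (a < c ∧ c < a + 2 * ξ)) : a ∈ C := by
  by_contra hn
  obtain ⟨e, he, hb⟩ := Metric.isOpen_iff.1 hcl.isOpen_compl _ hn
  have h2 := Gap_len (C := C) (a := a - e) (b := a + 2 * ξ) hd (by
    intro c hc hlt
    rcases lt_or_ge a c with h3 | h3
    · exact h c hc ⟨h3, hlt.2⟩
    · refine hb ?_ hc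
      rw [Metric.mem_ball, Real.dist_eq, abs_lt]
      constructor <;> linarith [hlt.1])
  linarith

private def Gap_good (C : Set ℝ) (ξ P : ℝ) : Prop :=
  P ∈ C ∧ P - 2 * ξ ∈ C ∧ ∀ c ∈ C, ¬ (P - 2 * ξ < c ∧ c < P)

private lemma Gap_case1 {C : Set ℝ} {g : ℝ → ℝ} {ξ P : ℝ} (hC : Cyc C g) (hξ : 0 < ξ)
    (hd : ∀ θ, ∃ c ∈ C, |θ - c| ≤ ξ) (hP : Gap_good C ξ P)
    (hg : ∀ P', Gap_good C ξ P' → ∀ c ∈ C, ¬ (P' < c ∧ c < P' + 2 * ξ)) (c : ℝ) :
    c ∈ C ↔ ∃ k : ℤ, c = P + 2 * ξ * k := by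
  have hpi := Real.pi_pos
  have good : ∀ k : ℕ, Gap_good C ξ (P + 2 * ξ * k) := by
    intro k
    induction k with
    | zero => simpa using hP
    | succ k ih =>
      have h1 := hg _ ih
      have h2 := Gap_right hC.closed hd h1
      have e : P + 2 * ξ * ((k + 1 : ℕ) : ℝ) = P + 2 * ξ * k + 2 * ξ := by push_cast; ring
      rw [e]
      refine ⟨h2, ?_, ?_⟩
      · rw [add_sub_cancel_right]
        exact ih.1
      · rw [add_sub_cancel_right]
        exact h1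
  have up : ∀ c ∈ C, P ≤ c → ∃ k : ℕ, c = P + 2 * ξ * k := by
    intro c hc hPc
    have h0 : 0 ≤ (c - P) / (2 * ξ) := div_nonneg (by linarith) (by linarith)
    have a1 := Nat.floor_le h0
    have a2 := Nat.lt_floor_add_one ((c - P) / (2 * ξ))
    rw [le_div_iff₀ (by linarith)] at a1
    rw [div_lt_iff₀ (by linarith)] at a2
    set k := ⌊(c - P) / (2 * ξ)⌋₊ with hk
    refine ⟨k, ?_⟩
    by_contra hne
    have h1 := (good (k + 1)).2.2 c hc
    apply h1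
    push_cast
    constructor
    · have : P + 2 * ξ * k ≤ c := by linarith
      have h2 : P + 2 * ξ * k < c := lt_of_le_of_ne this fun h => hne h.symm
      linarith
    · linarith
  obtain ⟨m, hm⟩ := up (P + Real.pi) ((hC.per P).1 hP.1) (by linarith)
  have hm' : Real.pi = 2 * ξ * m := by linarith
  have hm0 : 1 ≤ m := by
    rcases Nat.eq_zero_or_pos m with h | h
    · rw [h] at hm'
      rw [Nat.cast_zero, mul_zero] at hm'
      exact absurd hm' Real.pi_ne_zero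
    · exact h
  constructor
  · intro hc
    obtain ⟨N, hN⟩ := exists_nat_ge ((P - c) / Real.pi)
    rw [div_le_iff₀ hpi] at hN
    obtain ⟨k, hk⟩ := up (c + N * Real.pi) ((Gap_perN hC N c).1 hc) (by linarith)
    refine ⟨k - m * N, ?_⟩
    push_cast
    rw [hm'] at hk
    linear_combination hk
  · rintro ⟨k, hk⟩
    obtain ⟨N, h1⟩ : ∃ N : ℕ, 0 ≤ k + m * (N : ℤ) := by
      refine ⟨k.natAbs, ?_⟩
      have : (k.natAbs : ℤ) = |k| := Int.natCast_natAbs k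
      rw [this]
      have h2 := neg_abs_le k
      have h3 : (1 : ℤ) ≤ m := by exact_mod_cast hm0
      nlinarith [abs_nonneg k]
    obtain ⟨j, hj⟩ := Int.eq_ofNat_of_zero_le h1
    have h2 := (good j).1
    rw [Gap_perN hC N c, hk]
    have h3 : ((j : ℕ) : ℝ) = k + m * (N : ℝ) := by
      have : ((j : ℤ) : ℝ) = ((k + m * N : ℤ) : ℝ) := by
        rw [hj]
      push_cast at this
      linarith
    rw [h3] at h2
    have e : P + 2 * ξ * (k : ℝ) + (N : ℝ) * Real.pi = P + 2 * ξ * (k + m * (N : ℝ)) := by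
      rw [hm']
      ring
    rw [e]
    exact h2

theorem gap_cases {C : Set ℝ} {g : ℝ → ℝ} (hC : Cyc C g) (hne : C ≠ univ) :
    ∃ (ξ P : ℝ), 0 < ξ ∧ ξ ≤ Real.pi / 2 ∧ P ∈ C ∧ P - 2 * ξ ∈ C ∧
      (∀ c ∈ C, ¬ (P - 2 * ξ < c ∧ c < P)) ∧ (∀ θ, Real.cos ξ ≤ g θ) ∧
      ((∀ c, c ∈ C ↔ ∃ k : ℤ, c = P + 2 * ξ * k) ∨
        ∃ (P' b : ℝ), P' ∈ C ∧ P' - 2 * ξ ∈ C ∧ (∀ c ∈ C, ¬ (P' - 2 * ξ < c ∧ c < P')) ∧
          0 ≤ b ∧ b < ξ ∧ (b = 0 ∨ P' + 2 * b ∈ C) ∧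
          (∀ c ∈ C, ¬ (P' < c ∧ c < P' + 2 * b)) ∧
          (∀ ε : ℝ, 0 < ε → ∃ c ∈ C, P' < c ∧ c < P' + 2 * b + ε)) := by
  obtain ⟨ξ, θ₀, hξ, hξ2, hd, hm⟩ := Gap_max hC hne
  have hgap : ∀ c ∈ C, ¬ (θ₀ - ξ < c ∧ c < θ₀ - ξ + 2 * ξ) := by
    intro c hc hlt
    have h1 := hm c hc
    have h2 : |θ₀ - c| < ξ := by
      rw [abs_lt]
      constructor <;> linarith [hlt.1, hlt.2]
    linarith
  have hP1 := Gap_right hC.closed hd hgap
  have hP0 := Gap_left hC.closed hd hgap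
  have hgood : Gap_good C ξ (θ₀ - ξ + 2 * ξ) := by
    refine ⟨hP1, ?_, ?_⟩
    · rw [add_sub_cancel_right]
      exact hP0
    · rw [add_sub_cancel_right]
      exact hgap
  refine ⟨ξ, θ₀ - ξ + 2 * ξ, hξ, hξ2, hgood.1, hgood.2.1, hgood.2.2, ?_, ?_⟩
  · intro θ
    obtain ⟨c, hc, h1⟩ := hd θ
    have h2 : Real.cos ξ ≤ Real.cos |θ - c| :=
      Real.cos_le_cos_of_nonneg_of_le_pi (abs_nonneg _) (by linarith [Real.pi_pos]) h1
    rw [Real.cos_abs] at h2
    exact h2.trans (hC.le θ c hc)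
  · by_cases hall : ∀ P', Gap_good C ξ P' → ∀ c ∈ C, ¬ (P' < c ∧ c < P' + 2 * ξ)
    · exact Or.inl fun c => Gap_case1 hC hξ hd hgood hall c
    · right
      push Not at hall
      obtain ⟨P', hP', c, hc, hc1, hc2⟩ := hall
      set S : Set ℝ := C ∩ Ioi P' with hS
      have hSn : S.Nonempty := ⟨c, hc, hc1⟩
      have hSb : BddBelow S := ⟨P', fun x hx => le_of_lt hx.2⟩
      have h1 : P' ≤ sInf S := le_csInf hSn fun x hx => le_of_lt hx.2
      have h2 : sInf S ≤ c := csInf_le hSb ⟨hc, hc1⟩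
      have e : P' + 2 * ((sInf S - P') / 2) = sInf S := by ring
      refine ⟨P', (sInf S - P') / 2, hP'.1, hP'.2.1, hP'.2.2, by linarith, by linarith, ?_, ?_, ?_⟩
      · right
        rw [e]
        have h3 := csInf_mem_closure hSn hSb
        have h4 : closure S ⊆ C := (closure_mono inter_subset_left).trans
          (by rw [hC.closed.closure_eq])
        exact h4 h3
      · rw [e]
        intro x hx hlt
        have := csInf_le hSb ⟨hx, hlt.1⟩
        linarith [hlt.2]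
      · rw [e]
        intro ε hε
        obtain ⟨x, hx, hlt⟩ := exists_lt_of_csInf_lt hSn (show sInf S < sInf S + ε by linarith)
        exact ⟨x, hx.1, hx.2, hlt⟩

end Pool.Agent.H45.TC
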