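import Pool.Agent.H45.TC.Defs2

set_option autoImplicit false

/-!
# A gain gives two larger half copies

PROOF. `sup K` is continuous (`|sup K φ - sup K φ'| ≤ D ‖ex φ - ex φ'‖`, `D` a bound of the norms on
`K`; or take a maximum over a compact set), `2 π`-periodic, and `sup K > 0`. By compactness of
`[0, 2 π]` there is `m > 0` with `ip w (ex φ) + g (φ - τ) + m ≤ 2 g φ` for all `φ`. Let
`w' = w + (m / 2) ex φ₀`: then `ip w' (ex φ) + g (φ - τ) + m / 2 ≤ 2 g φ` for all `φ` and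
`g (φ₀ - τ) < ip w' (ex φ₀)`. The left side `ip w' (ex φ) + g (φ - τ)` is bounded, so for some
`t > 1`: `t * (ip w' (ex φ) + g (φ - τ)) ≤ 2 g φ` for all `φ`.

Let `A = {(t / 2) (ρ w' + ex τ * x) | x ∈ K}`, `B = {-(t / 2) (ρ w' + ex τ * x) | x ∈ K}`. Both are
isometric copies of `(t / 2) • K`, `t / 2 > 1 / 2`. `A ⊆ K`: `K` is closed and convex, so
`y ∈ K` if `ip y (ex φ) ≤ sup K φ` for all `φ` (separation; for a linear functional `f ≠ 0` there are
`R > 0` and `φ` with `f z = R ip z (ex φ)`, see `sep_unit` in `TC/Iso.lean`), and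
`ip (ex τ * x) (ex φ) = ip x (ex (φ - τ)) ≤ sup K (φ - τ) = ρ g (φ - τ)`, so
`ip ((t / 2) (ρ w' + ex τ x)) (ex φ) ≤ (t / 2) ρ (ip w' (ex φ) + g (φ - τ)) ≤ ρ g φ = sup K φ`.
`B = -A ⊆ K` by symmetry. They are separated by `ip · (ex φ₀)`: on `A` it is
`≥ (t / 2) (ρ ip w' (ex φ₀) - ρ g (φ₀ - τ)) > 0` (`-x ∈ K`), on `B` it is `< 0`.
`SepSets` is defined in `Pool/Agent/H90/Clone/Geom.lean`; `Two` and `IsCopy` in
`Pool/Agent/H21/Tri/Two.lean`, `Basic.lean`; the end of the proof of `rot_gain2` in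
`Pool/Agent/H50/CP/Rot2.lean` shows how to construct the isometries and the functional.
-/

namespace Pool.Agent.H45.TC

open Pool.Agent.H90.Clone Pool.Agent.H21.Tri Pool.Agent.H50.CP Complex Set Pointwise

private lemma suff_ex_cont : Continuous ex := by
  unfold ex
  fun_prop

private lemma suff_sup_cont {K : Set ℂ} (hK : IsConvexFigure K) : Continuous (sup K) := by
  unfold sup
  refine IsCompact.continuous_sSup (f := fun (θ : ℝ) (x : ℂ) => ip x (ex θ)) hK.1 ?_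
  have h1 : Continuous fun q : ℝ × ℂ => ip q.2 (ex q.1) :=
    ip_cont.comp (continuous_snd.prodMk (suff_ex_cont.comp continuous_fst))
  exact h1

/-- a positive gap -/
private lemma suff_gap {g : ℝ → ℝ} (hc : Continuous g) (hp : ∀ φ, g (φ + 2 * Real.pi) = g φ)
    {τ : ℝ} {w : ℂ} (h1 : ∀ φ, ip w (ex φ) + g (φ - τ) < 2 * g φ) :
    ∃ m : ℝ, 0 < m ∧ ∀ φ, ip w (ex φ) + g (φ - τ) + m ≤ 2 * g φ := by
  obtain ⟨G, hG⟩ : ∃ G : ℝ → ℝ, G = fun φ => 2 * g φ - ip w (ex φ) - g (φ - τ) := ⟨_, rfl⟩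
  have hGc : Continuous G := by
    rw [hG]
    exact ((continuous_const.mul hc).sub (ip_cont_ang w)).sub
      (hc.comp (continuous_id.sub continuous_const))
  have hGp : Function.Periodic G (2 * Real.pi) := by
    intro φ
    rw [hG]
    have e1 : φ + 2 * Real.pi - τ = (φ - τ) + 2 * Real.pi := by ring
    change 2 * g (φ + 2 * Real.pi) - ip w (ex (φ + 2 * Real.pi)) - g (φ + 2 * Real.pi - τ) =
      2 * g φ - ip w (ex φ) - g (φ - τ)
    rw [hp φ, ex_add_two_pi, e1, hp (φ - τ)]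
  have hpi : 0 < 2 * Real.pi := by positivity
  obtain ⟨x, _, hx⟩ := (isCompact_Icc (a := (0 : ℝ)) (b := 2 * Real.pi)).exists_isMinOn
    ⟨0, le_rfl, hpi.le⟩ hGc.continuousOn
  refine ⟨G x, ?_, fun φ => ?_⟩
  · rw [hG]
    have := h1 x
    change 0 < 2 * g x - ip w (ex x) - g (x - τ)
    linarith
  · obtain ⟨y, hy, hyφ⟩ := hGp.exists_mem_Ico₀ hpi φ
    have h2 : G x ≤ G y := hx ⟨hy.1, hy.2.le⟩
    rw [← hyφ] at h2
    have h3 : G φ = 2 * g φ - ip w (ex φ) - g (φ - τ) := by rw [hG]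
    linarith

private lemma suff_ip_rot {w : ℂ} (hw : ‖w‖ = 1) (a b : ℂ) : ip (w * a) (w * b) = ip a b := by
  have h := ip_self_one hw
  simp only [ip, mul_re, mul_im]
  linear_combination (a.re * b.re + a.im * b.im) * h

private lemma suff_rot (x : ℂ) (τ φ : ℝ) : ip (ex τ * x) (ex φ) = ip x (ex (φ - τ)) := by
  have e1 : ex φ = ex τ * ex (φ - τ) := by
    have h := ex_add_ex (φ - τ) τ
    rwa [sub_add_cancel] at h
  rw [e1, suff_ip_rot (norm_ex τ)]

theorem two_of_gain {K : Set ℂ} (hK : IsConvexFigure K) (hs : CSym K) {ρ : ℝ} {g : ℝ → ℝ}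
    (hρ : 0 < ρ) (hg : ∀ φ, sup K φ = ρ * g φ) (hG : Gain g) : Two K := by
  obtain ⟨τ, w, φ₀, h1, h2⟩ := hG
  have hgs : g = fun φ => ρ⁻¹ * sup K φ := by
    funext φ
    rw [hg φ]
    field_simp
  have hgc : Continuous g := by
    rw [hgs]
    exact continuous_const.mul (suff_sup_cont hK)
  have hgp : ∀ φ, g (φ + 2 * Real.pi) = g φ := by
    intro φ
    rw [hgs]
    change ρ⁻¹ * sup K (φ + 2 * Real.pi) = ρ⁻¹ * sup K φ
    unfold sup
    rw [ex_add_two_pi]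
  obtain ⟨m, hm, h3⟩ := suff_gap hgc hgp h1
  obtain ⟨w', hw'⟩ : ∃ w' : ℂ, w' = w + ((m / 2 : ℝ) : ℂ) * ex φ₀ := ⟨_, rfl⟩
  have h4 : ∀ φ, ip w' (ex φ) + g (φ - τ) + m / 2 ≤ 2 * g φ := by
    intro φ
    have e1 := ip_ex_le_norm (ex φ₀) φ
    rw [norm_ex] at e1
    have e2 := h3 φ
    rw [hw', ip_add_left, ip_smul_left]
    nlinarith
  have h5 : g (φ₀ - τ) ≤ ip w' (ex φ₀) := by
    have e1 : ip (ex φ₀) (ex φ₀) = 1 := by
      have := ip_self_one (norm_ex φ₀)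
      simp only [ip]
      linarith
    rw [hw', ip_add_left, ip_smul_left, e1]
    linarith
  -- the factor `t`
  obtain ⟨D, hD⟩ := hK.1.isBounded.exists_norm_le
  obtain ⟨b, hb⟩ : ∃ b : ℝ, b = ‖w'‖ + ρ⁻¹ * |D| := ⟨_, rfl⟩
  have hb0 : 0 ≤ b := by rw [hb]; positivity
  have h6 : ∀ φ, ip w' (ex φ) + g (φ - τ) ≤ b := by
    intro φ
    obtain ⟨p, hp⟩ := top_exists hK (φ - τ)
    have e1 : g (φ - τ) ≤ ρ⁻¹ * |D| := by
      rw [hgs]
      change ρ⁻¹ * sup K (φ - τ) ≤ ρ⁻¹ * |D|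
      refine mul_le_mul_of_nonneg_left ?_ (by positivity)
      rw [sup_eq hp]
      exact (ip_ex_le_norm p _).trans ((hD p hp.1).trans (le_abs_self D))
    have e2 := ip_ex_le_norm w' φ
    rw [hb]
    linarith
  obtain ⟨s, hs'⟩ : ∃ s : ℝ, s = (m / 2) / (b + 1) := ⟨_, rfl⟩
  have hs0 : 0 < s := by rw [hs']; positivity
  have hsb : s * (b + 1) = m / 2 := by
    rw [hs']
    field_simp
  obtain ⟨l, hl⟩ : ∃ l : ℝ, l = (1 + s) / 2 := ⟨_, rfl⟩
  have hl0 : 0 < l := by rw [hl]; positivity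
  have h7 : ∀ φ, l * (ip w' (ex φ) + g (φ - τ)) ≤ g φ := by
    intro φ
    have e1 := h4 φ
    have e2 := h6 φ
    rw [hl]
    nlinarith
  have hA : ∀ x ∈ K, (l : ℂ) * ((ρ : ℂ) * w' + ex τ * x) ∈ K := by
    intro x hx
    by_contra hcon
    obtain ⟨v, hv1, hv2⟩ := sep_pt hK hcon
    obtain ⟨c, rfl, -, -⟩ := exists_ang hv1 0
    obtain ⟨p, hp⟩ := top_exists hK c
    have e1 := hv2 p hp.1
    rw [← sup_eq hp, hg, ip_smul_left, ip_add_left, ip_smul_left, suff_rot] at e1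
    have e2 := le_sup hK hx (c - τ)
    rw [hg] at e2
    have e3 : l * (ρ * ip w' (ex c) + ip x (ex (c - τ))) ≤ ρ * (l * (ip w' (ex c) + g (c - τ))) := by
      have e4 : l * (ρ * ip w' (ex c) + ip x (ex (c - τ))) ≤
          l * (ρ * ip w' (ex c) + ρ * g (c - τ)) :=
        mul_le_mul_of_nonneg_left (by linarith) hl0.le
      linarith
    have e5 := mul_le_mul_of_nonneg_left (h7 c) hρ.le
    linarith
  have hApos : ∀ x ∈ K, 0 ≤ ip ((l : ℂ) * ((ρ : ℂ) * w' + ex τ * x)) (ex φ₀) := by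
    intro x hx
    rw [ip_smul_left, ip_add_left, ip_smul_left, suff_rot]
    have e1 := le_sup hK (hs x hx) (φ₀ - τ)
    rw [hg, ip_neg_left] at e1
    have e2 := mul_le_mul_of_nonneg_left h5 hρ.le
    exact mul_nonneg hl0.le (by linarith)
  refine ⟨l, (fun x => (l : ℂ) * ((ρ : ℂ) * w' + ex τ * x)) '' K,
    (fun x => -((l : ℂ) * ((ρ : ℂ) * w' + ex τ * x))) '' K, by rw [hl]; linarith, ?_, ?_, ?_, ?_, ?_⟩
  · refine ⟨(rotation ⟨ex τ, mem_sphere_zero_iff_norm.mpr (norm_ex τ)⟩).toIsometryEquiv.trans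
      (IsometryEquiv.addRight ((l : ℂ) * ((ρ : ℂ) * w'))), ?_⟩
    rw [← image_smul, image_image]
    apply image_congr
    intro x _
    change (l : ℂ) * ((ρ : ℂ) * w' + ex τ * x) = ex τ * (l • x) + (l : ℂ) * ((ρ : ℂ) * w')
    simp only [real_smul]
    ring
  · refine ⟨((rotation ⟨ex τ, mem_sphere_zero_iff_norm.mpr (norm_ex τ)⟩).toIsometryEquiv.trans
      (IsometryEquiv.addRight ((l : ℂ) * ((ρ : ℂ) * w')))).trans (IsometryEquiv.neg ℂ), ?_⟩
    rw [← image_smul, image_image]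
    apply image_congr
    intro x _
    change -((l : ℂ) * ((ρ : ℂ) * w' + ex τ * x)) = -(ex τ * (l • x) + (l : ℂ) * ((ρ : ℂ) * w'))
    simp only [real_smul]
    ring
  · rintro _ ⟨x, hx, rfl⟩
    exact hA x hx
  · rintro _ ⟨x, hx, rfl⟩
    exact hs _ (hA x hx)
  · -- separation by `ip · (ex φ₀)`
    obtain ⟨f, hf⟩ : ∃ f : ℂ →L[ℝ] ℝ, ∀ z, f z = ip z (ex φ₀) := by
      refine ⟨(ex φ₀).re • Complex.reCLM + (ex φ₀).im • Complex.imCLM, fun z => ?_⟩
      simp [ip]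
      ring
    have hf0 : f ≠ 0 := by
      rintro rfl
      have e1 := hf (ex φ₀)
      have e2 : ip (ex φ₀) (ex φ₀) = 1 := by
        have := ip_self_one (norm_ex φ₀)
        simp only [ip]
        linarith
      rw [e2] at e1
      simp at e1
    refine SepSets.symm ⟨f, 0, hf0, ?_, ?_⟩
    · rintro _ ⟨x, hx, rfl⟩
      rw [hf, ip_neg_left]
      have := hApos x hx
      linarith
    · rintro _ ⟨x, hx, rfl⟩
      rw [hf]
      exact hApos x hx

end Pool.Agent.H45.TC
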