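import Mathlib

set_option autoImplicit false

/-!
# The two conditions cover everything

PROOF. `x = cos ξ ∈ [.618, 1)`, `y = cos (ξ + b) ≥ (2 x - 1) / x > 0` by `hA`. The claim is
`x sin (ξ + b) < 2 sin ξ y`, both sides are `≥ 0`; squared: `x ^ 2 (1 - y ^ 2) < 4 (1 - x ^ 2) y ^ 2`,
i.e. `x ^ 2 < y ^ 2 (4 - 3 x ^ 2)`. As `x y ≥ 2 x - 1 > 0` it is enough that
`x ^ 4 < (2 x - 1) ^ 2 (4 - 3 x ^ 2)`, and
`(2 x - 1) ^ 2 (4 - 3 x ^ 2) - x ^ 4 = (1 - x) (13 x ^ 3 + x ^ 2 - 12 x + 4)`, where the cubic is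
`> 0` on `[.618, 1]` (value `.034` at `.618`, increasing).
-/

namespace Pool.Agent.H45.TC

theorem trigD {ξ b : ℝ} (h0 : 0 < ξ) (h1 : ξ < Real.pi / 2) (hb : 0 ≤ b) (hb1 : b < ξ)
    (hx : 618 / 1000 ≤ Real.cos ξ) (hA : 2 * Real.cos ξ - 1 ≤ Real.cos ξ * Real.cos (ξ + b)) :
    Real.sin (ξ + b) * Real.cos ξ < 2 * Real.sin ξ * Real.cos (ξ + b) := by
  have hs : 0 < Real.sin ξ := Real.sin_pos_of_pos_of_lt_pi h0 (by linarith [Real.pi_pos])
  have hx1 : Real.cos ξ < 1 := by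
    nlinarith [Real.sin_sq_add_cos_sq ξ, Real.cos_le_one ξ]
  have e1 := Real.sin_sq_add_cos_sq ξ
  have e2 := Real.sin_sq_add_cos_sq (ξ + b)
  generalize Real.cos ξ = x at *
  generalize Real.sin ξ = s at *
  generalize Real.cos (ξ + b) = y at *
  generalize Real.sin (ξ + b) = t at *
  have hx0 : 0 < x := by linarith
  have hxy : 0 < x * y := by linarith
  have hy : 0 < y := by
    by_contra h
    push Not at h
    nlinarith
  have hq : 0 < 13 * x ^ 3 + x ^ 2 - 12 * x + 4 := by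
    have h2 : 0 ≤ (x - 618 / 1000) * (13 * (x ^ 2 + 618 / 1000 * x + (618 / 1000) ^ 2) + (x + 618 / 1000) - 12) := by
      apply mul_nonneg (by linarith)
      nlinarith
    nlinarith
  have h3 : x ^ 4 < (2 * x - 1) ^ 2 * (4 - 3 * x ^ 2) := by
    have h4 : 0 < (1 - x) * (13 * x ^ 3 + x ^ 2 - 12 * x + 4) := mul_pos (by linarith) hq
    nlinarith
  have h5 : 0 < 4 - 3 * x ^ 2 := by nlinarith
  have h6 : (2 * x - 1) ^ 2 ≤ (x * y) ^ 2 := by
    apply pow_le_pow_left₀ (by linarith) hA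
  have h7 : x ^ 4 < (x * y) ^ 2 * (4 - 3 * x ^ 2) :=
    lt_of_lt_of_le h3 (mul_le_mul_of_nonneg_right h6 h5.le)
  have h8 : x ^ 2 < y ^ 2 * (4 - 3 * x ^ 2) := by
    by_contra h
    push Not at h
    have h9 : x ^ 2 * (y ^ 2 * (4 - 3 * x ^ 2)) ≤ x ^ 2 * x ^ 2 :=
      mul_le_mul_of_nonneg_left h (by positivity)
    nlinarith
  have h10 : (t * x) ^ 2 < (2 * s * y) ^ 2 := by
    have a1 : t ^ 2 = 1 - y ^ 2 := by linarith
    have a2 : s ^ 2 = 1 - x ^ 2 := by linarith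
    have a3 : (t * x) ^ 2 = (1 - y ^ 2) * x ^ 2 := by rw [mul_pow, a1]
    have a4 : (2 * s * y) ^ 2 = 4 * (1 - x ^ 2) * y ^ 2 := by rw [mul_pow, mul_pow, a2]; ring
    rw [a3, a4]
    nlinarith
  exact lt_of_pow_lt_pow_left₀ 2 (by positivity) h10

end Pool.Agent.H45.TC
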