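import Pool.Agent.H45.TC.Faces
import Pool.Agent.H45.TC.Suff
import Pool.Agent.H45.TC.CaseA
import Pool.Agent.H45.TC.CaseB
import Pool.Agent.H45.TC.CaseC
import Pool.Agent.H45.TC.Trig
import Pool.Agent.H45.TC.Gap

set_option autoImplicit false

/-!
# Centrally symmetric figures: discs and regular polygons

PROOF. Take `ρ`, `C`, `g` from `cyc_exists`. If `C = univ`, all points of norm `ρ` are in `K`
(`exists_pol`), so the closed ball is (`x = ‖x‖ ex c` is a convex combination of `± ρ ex c`); with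
`‖x‖ ≤ ρ` on `K`: `K = closedBall 0 ρ`. Otherwise take `ξ`, `P` from `gap_cases`.

`ξ < π / 2`: if `ξ = π / 2` then `g (P - ξ) ≤ cos ξ = 0` (the point `c` with
`g (P - ξ) = cos (P - ξ - c)`, `|P - ξ - c| ≤ π / 2`, is outside the gap `(P - 2 ξ, P)`), but
`ρ g = sup K > 0` (`top_pos`, `sup_eq`).

Second alternative (`P'`, `b`): there is a `Gain g`, contradiction with `two_of_gain`. Indeed:
if `cos ξ < 618 / 1000` use `caseC` with `θ₀ = P' - ξ`. Otherwise, if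
`2 cos ξ - 1 ≤ cos ξ cos (ξ + b)`, use `trigD` and `caseB`. Otherwise `b ≠ 0` (for `b = 0`:
`2 x - 1 - x ^ 2 = - (1 - x) ^ 2 ≤ 0`), so `P' + 2 b ∈ C`; use `caseA` with `η = b`,
`θ₀ = P' - ξ`, `n = P' + b`; `ξ + b ≤ π / 2` because `P' - 2 ξ + π ∈ C` is `> P'` (`ξ < π / 2`) and
there is no point of `C` in `(P', P' + 2 b)`, so `P' + 2 b ≤ P' - 2 ξ + π`.

First alternative: `C = {P + 2 ξ k | k ∈ ℤ}`. As `P + π ∈ C`: `π = 2 ξ m`, `m : ℤ`, `m ≥ 2` because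
`0 < ξ < π / 2`. So `K = convexHull {ρ ex (P + π k / m) | k ∈ ℤ} = RegPoly (2 m) 0 (ρ ex P)`
(`ex (P + π k / m) = ex P * exp (2 π I (k / (2 m)))`).
-/

namespace Pool.Agent.H45.TC

open Pool.Agent.H90.Clone Pool.Agent.H21.Tri Pool.Agent.H50.CP Complex Set Pointwise

/-- if all points of norm `ρ` are in `K`, the ball is -/
private lemma CSFin_ball {K : Set ℂ} (hK : IsConvexFigure K) (hs : CSym K) {ρ : ℝ} (hρ : 0 < ρ)
    (hle : ∀ x ∈ K, ‖x‖ ≤ ρ) (hall : ∀ c : ℝ, (ρ : ℂ) * ex c ∈ K) :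
    K = Metric.closedBall 0 ρ := by
  apply Subset.antisymm
  · intro x hx
    rw [mem_closedBall_zero_iff]
    exact hle x hx
  · intro x hx
    rw [mem_closedBall_zero_iff] at hx
    obtain ⟨c, hc, -, -⟩ := exists_pol x 0
    have h1 := hall c
    have h2 := hs _ h1
    have hn := norm_nonneg x
    have ht0 : 0 ≤ (1 + ‖x‖ / ρ) / 2 := by positivity
    have ht1 : 0 ≤ (1 - ‖x‖ / ρ) / 2 := by
      have : ‖x‖ / ρ ≤ 1 := (div_le_one hρ).2 hx
      linarith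
    have h3 := hK.2.1 h1 h2 ht0 ht1 (by ring)
    have e : ((1 + ‖x‖ / ρ) / 2) • ((ρ : ℂ) * ex c) + ((1 - ‖x‖ / ρ) / 2) • (-((ρ : ℂ) * ex c)) =
        x := by
      have hρ' : (ρ : ℂ) ≠ 0 := by exact_mod_cast hρ.ne'
      conv_rhs => rw [hc]
      rw [real_smul, real_smul]
      push_cast
      field_simp
      ring
    rwa [e] at h3

/-- the radius of a gap is less than a right angle -/
private lemma CSFin_lt {K : Set ℂ} (hK : IsConvexFigure K) (hs : CSym K) {ρ : ℝ} {C : Set ℝ}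
    {g : ℝ → ℝ} (hC : Cyc C g) (hg : ∀ θ, sup K θ = ρ * g θ) {ξ P : ℝ}
    (h1 : ξ ≤ Real.pi / 2) (hgap : ∀ c ∈ C, ¬ (P - 2 * ξ < c ∧ c < P)) : ξ < Real.pi / 2 := by
  rcases eq_or_lt_of_le h1 with h | h
  · exfalso
    obtain ⟨c, hc, habs, hgc⟩ := hC.att (P - ξ)
    have h0 : Real.cos (P - ξ - c) = 0 := by
      rw [abs_le] at habs
      by_cases hlow : P - 2 * ξ < c
      · have h3 : P ≤ c := by
          by_contra hlt
          exact hgap c hc ⟨hlow, not_le.1 hlt⟩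
        have : P - ξ - c = -(Real.pi / 2) := le_antisymm (by linarith) (by linarith [habs.1])
        rw [this, Real.cos_neg, Real.cos_pi_div_two]
      · have h3 : c ≤ P - 2 * ξ := not_lt.1 hlow
        have : P - ξ - c = Real.pi / 2 := le_antisymm (by linarith [habs.2]) (by linarith)
        rw [this, Real.cos_pi_div_two]
    obtain ⟨p, hp⟩ := top_exists hK (P - ξ)
    have h3 := top_pos hK hs hp
    rw [← sup_eq hp, hg, hgc, h0, mul_zero] at h3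
    exact lt_irrefl _ h3
  · exact h

/-- the second alternative gives a gain -/
private lemma CSFin_gain {C : Set ℝ} {g : ℝ → ℝ} (hC : Cyc C g) {ξ P b : ℝ} (h0 : 0 < ξ)
    (h1 : ξ < Real.pi / 2) (hmin : ∀ θ, Real.cos ξ ≤ g θ) (hP : P ∈ C) (hP' : P - 2 * ξ ∈ C)
    (hgap : ∀ c ∈ C, ¬ (P - 2 * ξ < c ∧ c < P)) (hb : 0 ≤ b) (hb1 : b < ξ)
    (hb2 : b = 0 ∨ P + 2 * b ∈ C) (hgap2 : ∀ c ∈ C, ¬ (P < c ∧ c < P + 2 * b))
    (hnext : ∀ ε : ℝ, 0 < ε → ∃ c ∈ C, P < c ∧ c < P + 2 * b + ε) : Gain g := by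
  have e1 : P - ξ - ξ = P - 2 * ξ := by ring
  have e2 : P - ξ + ξ = P := by ring
  have hgap' : ∀ c ∈ C, ¬ (P - ξ - ξ < c ∧ c < P - ξ + ξ) := by
    rw [e1, e2]
    exact hgap
  rcases lt_or_ge (Real.cos ξ) (618 / 1000) with hx | hx
  · exact caseC hC h0 h1 hx hgap' (by rw [e1]; exact hP') (by rw [e2]; exact hP)
  · rcases le_or_gt (2 * Real.cos ξ - 1) (Real.cos ξ * Real.cos (ξ + b)) with hA | hA
    · exact caseB hC h0 h1 hb hb1 hP hP' hgap hnext (trigD h0 h1 hb hb1 hx hA)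
    · have hb0 : b ≠ 0 := by
        intro hb0
        rw [hb0, add_zero] at hA
        nlinarith [sq_nonneg (1 - Real.cos ξ)]
      have hbp : 0 < b := lt_of_le_of_ne hb (Ne.symm hb0)
      have hbC : P + 2 * b ∈ C := hb2.resolve_left hb0
      have h3 : P - 2 * ξ + Real.pi ∈ C := (hC.per _).1 hP'
      have h4 : ξ + b ≤ Real.pi / 2 := by
        by_contra hlt
        push Not at hlt
        exact hgap2 _ h3 ⟨by linarith, by linarith⟩
      have e3 : P + b - b = P := by ring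
      have e4 : P + b + b = P + 2 * b := by ring
      exact caseA hC (n := P + b) hx hmin hbp hb1 h4 hgap' (by rw [e3]; exact hP)
        (by rw [e4]; exact hbC) hA

/-- the vertices of a regular polygon as points of a circle -/
private lemma CSFin_vertex (ρ P ξ : ℝ) (m : ℕ) (hm : Real.pi = 2 * ξ * m) (hm0 : m ≠ 0) (k : ℤ) :
    (ρ : ℂ) * ex (P + 2 * ξ * k) = 0 + (ρ : ℂ) * ex P *
      Complex.exp (2 * Real.pi * I * (k / ((2 * m : ℕ) : ℂ) : ℂ)) := by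
  rw [zero_add, ex_add_ex, ex, ex]
  have hm' : (m : ℂ) ≠ 0 := by exact_mod_cast hm0
  have hπ : (Real.pi : ℂ) = 2 * (ξ : ℂ) * (m : ℂ) := by
    have := congrArg (fun t : ℝ => (t : ℂ)) hm
    push_cast at this
    exact this
  have e : (((2 * ξ * k : ℝ) : ℂ) * I) = 2 * Real.pi * I * (k / ((2 * m : ℕ) : ℂ) : ℂ) := by
    rw [hπ]
    push_cast
    field_simp
  rw [e]
  ring

private lemma CSFin_reg {K : Set ℂ} {ρ : ℝ} {C : Set ℝ} {g : ℝ → ℝ} (hρ : 0 < ρ) (hC : Cyc C g)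
    (hhull : K = convexHull ℝ ((fun c : ℝ => (ρ : ℂ) * ex c) '' C)) {ξ P : ℝ} (h0 : 0 < ξ)
    (h1 : ξ < Real.pi / 2) (hP : P ∈ C) (hreg : ∀ c, c ∈ C ↔ ∃ k : ℤ, c = P + 2 * ξ * k) :
    ∃ (m : ℕ) (w : ℂ), 2 ≤ m ∧ w ≠ 0 ∧ K = RegPoly (2 * m) 0 w := by
  have hpi := Real.pi_pos
  obtain ⟨k, hk⟩ := (hreg _).1 ((hC.per P).1 hP)
  have hk' : Real.pi = 2 * ξ * k := by linarith
  have hk1 : (1 : ℝ) < (k : ℝ) := by
    by_contra hlt
    push Not at hlt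
    nlinarith
  have hk2 : (1 : ℤ) < k := by exact_mod_cast hk1
  obtain ⟨m, rfl⟩ := Int.eq_ofNat_of_zero_le (by linarith : (0 : ℤ) ≤ k)
  have hm1 : 1 < m := by exact_mod_cast hk2
  have hm : Real.pi = 2 * ξ * m := by exact_mod_cast hk'
  refine ⟨m, (ρ : ℂ) * ex P, hm1, mul_ne_zero (by exact_mod_cast hρ.ne') (ex_ne P), ?_⟩
  rw [hhull, RegPoly]
  congr 1
  ext z
  constructor
  · rintro ⟨c, hc, rfl⟩
    obtain ⟨j, rfl⟩ := (hreg c).1 hc
    exact ⟨j, (CSFin_vertex ρ P ξ m hm (by omega) j).symm⟩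
  · rintro ⟨j, rfl⟩
    exact ⟨P + 2 * ξ * j, (hreg _).2 ⟨j, rfl⟩, CSFin_vertex ρ P ξ m hm (by omega) j⟩

theorem cs_class {K : Set ℂ} (hK : IsConvexFigure K) (hs : CSym K) (h2 : ¬ Two K) :
    (∃ ρ : ℝ, 0 < ρ ∧ K = Metric.closedBall 0 ρ) ∨
    (∃ (m : ℕ) (w : ℂ), 2 ≤ m ∧ w ≠ 0 ∧ K = RegPoly (2 * m) 0 w) := by
  obtain ⟨ρ, C, g, hρ, hC, hg, hCm, hle, hhull⟩ := cyc_exists hK hs h2
  by_cases hne : C = univ
  · left
    refine ⟨ρ, hρ, CSFin_ball hK hs hρ hle fun c => (hCm c).1 ?_⟩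
    rw [hne]
    exact mem_univ c
  · obtain ⟨ξ, P, h0, h1, hP, hP2, hgap, hmin, hcase⟩ := gap_cases hC hne
    have hlt : ξ < Real.pi / 2 := CSFin_lt hK hs hC hg h1 hgap
    rcases hcase with hreg | ⟨P', b, hP', hP2', hgap', hb, hb1, hb2, hgap2, hnext⟩
    · exact Or.inr (CSFin_reg hρ hC hhull h0 hlt hP hreg)
    · exact absurd (two_of_gain hK hs hρ hg
        (CSFin_gain hC h0 hlt hmin hP' hP2' hgap' hb hb1 hb2 hgap2 hnext)) h2

end Pool.Agent.H45.TC
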