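import Pool.Agent.H45.TC.Iso
import Pool.Agent.H50.CP.Rot

set_option autoImplicit false

/-!
# If no boundary segment ends in a corner, then only constant width leaves no room

The first order condition for a copy turned about a support point gives
`w (θ - τ) ≥ cos τ * w θ` for the width `w`; iterated this shows that `w` is constant.
-/

namespace Pool.Agent.H45.TC

open Pool.Agent.H90.Clone Pool.Agent.H21.Tri Pool.Agent.H50.CP Complex Set Pointwise

lemma ip_I_left (a b : ℂ) : ip (I * a) b = -ip a (I * b) := by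
  simp only [ip, mul_re, mul_im, I_re, I_im]
  ring

lemma first_order {F : Set ℂ} (hF : IsConvexFigure F) (hn : NoCornerSegment F) (h : ¬ Two F)
    {d : ℂ} (hd : ‖d‖ = 1) : ∃ p ∈ F, ∃ q ∈ F, (∀ x ∈ F, ip x d ≤ ip p d) ∧
      (∀ x ∈ F, ip q d ≤ ip x d) ∧ ip p (I * d) ≤ ip q (I * d) := by
  by_contra hcon
  push Not at hcon
  have hd0 : d ≠ 0 := by
    rintro rfl
    simp at hd
  have hc : ∀ e : ℂ, Continuous fun x : ℂ => ip x e := by
    intro e
    unfold ip
    fun_prop
  obtain ⟨pt, hpt, hpt'⟩ := exists_top hF d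
  obtain ⟨qb, hqb, hqb'⟩ := exists_bot hF d
  -- the faces
  have hT : IsCompact (F ∩ {x | ip x d = ip pt d}) :=
    hF.1.inter_right (isClosed_eq (hc d) continuous_const)
  have hB : IsCompact (F ∩ {x | ip x d = ip qb d}) :=
    hF.1.inter_right (isClosed_eq (hc d) continuous_const)
  obtain ⟨p0, ⟨hp0, hp0'⟩, hp0m⟩ := hT.exists_isMinOn ⟨pt, hpt, rfl⟩ (hc (I * d)).continuousOn
  obtain ⟨q1, ⟨hq1, hq1'⟩, hq1m⟩ := hB.exists_isMaxOn ⟨qb, hqb, rfl⟩ (hc (I * d)).continuousOn
  have hp0' : ip p0 d = ip pt d := hp0'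
  have hq1' : ip q1 d = ip qb d := hq1'
  have hp0t : ∀ x ∈ F, ip x d ≤ ip p0 d := fun x hx => by rw [hp0']; exact hpt' x hx
  have hq1b : ∀ x ∈ F, ip q1 d ≤ ip x d := fun x hx => by rw [hq1']; exact hqb' x hx
  have hm := hcon p0 hp0 q1 hq1 hp0t hq1b
  set m := ip p0 (I * d) - ip q1 (I * d) with hmd
  have hm0 : 0 < m := by rw [hmd]; linarith
  obtain ⟨z0, hz0⟩ := hF.2.2
  obtain ⟨r, hr, hball⟩ := Metric.isOpen_iff.1 isOpen_interior z0 hz0
  have hin : ∀ ν : ℂ, ‖ν‖ = 1 → (∀ x ∈ F, ip x ν ≤ ip p0 ν) → 0 < ip (p0 - z0) ν := by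
    intro ν hν hs
    have h1 : z0 + ((r / 2 : ℝ) : ℂ) * ν ∈ F := by
      apply interior_subset
      apply hball
      rw [Metric.mem_ball, dist_eq_norm, add_sub_cancel_left, norm_mul, hν, mul_one, norm_real,
        Real.norm_eq_abs, abs_of_pos (by positivity)]
      linarith
    have h2 := hs _ h1
    have h3 : ip ν ν = 1 := by
      have := ip_self_one hν
      simp only [ip]
      linarith
    rw [ip_add_left, ip_smul_left, h3] at h2
    rw [ip_sub_left]
    linarith
  have hk := hin d hd hp0t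
  set k := ip (p0 - z0) d with hkd
  have hε : 0 < m / (4 * k) := by positivity
  apply h
  refine rot_gain hF (p := p0) (q0 := q1) (d := d)
    (c := ((m / (4 * k) : ℝ) : ℂ) * (p0 - z0)) hp0 hq1 hd0 hp0t hq1b ?_ ?_
  · intro q hq hqd
    rw [ip_smul_left, ← hkd]
    have e1 : m / (4 * k) * k = m / 4 := by field_simp
    rw [e1]
    have h1 : ip q (I * d) ≤ ip q1 (I * d) := hq1m ⟨hq, by
      change ip q d = ip qb d
      rw [hqd, hq1']⟩
    rw [ip_sub_left]
    linarith
  · intro ν hν hs f hf hfν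
    have h1 := mul_pos hε (hin ν hν hs)
    rw [ip_smul_left]
    by_cases hνd : ν = d
    · subst hνd
      rw [ip_I_left]
      have h2 : ip p0 (I * ν) ≤ ip f (I * ν) := hp0m ⟨hf, by
        change ip f ν = ip pt ν
        rw [hfν, hp0']⟩
      rw [ip_sub_left]
      linarith
    · have := hn p0 hp0 ν d hν hd hνd hs hp0t f hf hfν
      rw [this, sub_self, mul_zero]
      have e2 : ip 0 ν = 0 := by simp [ip]
      rw [e2]
      linarith

lemma width_turn {F : Set ℂ} (hF : IsConvexFigure F) (hn : NoCornerSegment F) (h : ¬ Two F)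
    {d : ℂ} (hd : ‖d‖ = 1) {τ : ℝ} (h0 : 0 ≤ Real.sin τ) :
    Real.cos τ * width F d ≤ width F (Complex.exp (-(τ * I)) * d) := by
  obtain ⟨p, hp, q, hq, h1, h2, h3⟩ := first_order hF hn h hd
  refine le_trans ?_ (width_le hF hp hq)
  rw [width_eq hp hq h1 h2]
  have e : ∀ x : ℂ, ip x (Complex.exp (-(τ * I)) * d) =
      Real.cos τ * ip x d - Real.sin τ * ip x (I * d) := by
    intro x
    have e1 : Complex.exp (-(τ * I)) = (Real.cos τ : ℂ) - (Real.sin τ : ℂ) * I := by
      rw [← neg_mul, ← ofReal_neg, exp_mul_I, ← ofReal_cos, ← ofReal_sin, Real.cos_neg,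
        Real.sin_neg]
      push_cast
      ring
    rw [e1]
    simp only [ip, mul_re, mul_im, sub_re, sub_im, ofReal_re, ofReal_im, I_re, I_im]
    ring
  rw [e, e]
  nlinarith

lemma width_iter {F : Set ℂ} (hF : IsConvexFigure F) (hn : NoCornerSegment F) (h : ¬ Two F)
    {τ : ℝ} (h0 : 0 ≤ Real.sin τ) (h1 : 0 ≤ Real.cos τ) (k : ℕ) : ∀ d : ℂ, ‖d‖ = 1 →
    Real.cos τ ^ k * width F d ≤ width F (Complex.exp (-((k * τ : ℝ) * I)) * d) := by
  induction k with
  | zero => intro d _; simp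
  | succ k ih =>
    intro d hd
    have h2 := width_turn hF hn h hd h0
    have hd' : ‖Complex.exp (-(τ * I)) * d‖ = 1 := by
      rw [norm_mul, hd, mul_one, ← neg_mul, ← ofReal_neg, norm_exp_ofReal_mul_I]
    have h3 := ih _ hd'
    have h4 := mul_le_mul_of_nonneg_left h2 (pow_nonneg h1 k)
    have e : Complex.exp (-((k * τ : ℝ) * I)) * (Complex.exp (-(τ * I)) * d) =
        Complex.exp (-(((k + 1 : ℕ) * τ : ℝ) * I)) * d := by
      rw [← mul_assoc, ← Complex.exp_add]
      congr 2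
      push_cast
      ring
    rw [e] at h3
    calc Real.cos τ ^ (k + 1) * width F d = Real.cos τ ^ k * (Real.cos τ * width F d) := by ring
      _ ≤ _ := h4.trans h3

lemma width_mono {F : Set ℂ} (hF : IsConvexFigure F) (hn : NoCornerSegment F) (h : ¬ Two F)
    {t : ℝ} (ht : 0 ≤ t) {d : ℂ} (hd : ‖d‖ = 1) :
    width F d ≤ width F (Complex.exp (-(t * I)) * d) := by
  by_contra hcon
  push Not at hcon
  set W := width F d with hW
  set W' := width F (Complex.exp (-(t * I)) * d) with hW'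
  have hWpos : 0 < W := width_pos hF hd
  obtain ⟨n, hn1⟩ := exists_nat_gt (max (t + 1) (t ^ 2 * W / (W - W')))
  have hn2 : t + 1 < n := lt_of_le_of_lt (le_max_left _ _) hn1
  have hn3 : t ^ 2 * W / (W - W') < n := lt_of_le_of_lt (le_max_right _ _) hn1
  have hn0 : (0 : ℝ) < n := by linarith
  set τ := t / n with hτ
  have hτ0 : 0 ≤ τ := by positivity
  have hτ1 : τ ≤ 1 := by
    rw [hτ, div_le_one hn0]
    linarith
  have hpi := Real.pi_gt_three
  have hs : 0 ≤ Real.sin τ := Real.sin_nonneg_of_nonneg_of_le_pi hτ0 (by linarith)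
  have hc1 : 1 - τ ^ 2 / 2 ≤ Real.cos τ := Real.one_sub_sq_div_two_le_cos
  have hc0 : 0 ≤ 1 - τ ^ 2 / 2 := by nlinarith
  have h1 := width_iter hF hn h hs (hc0.trans hc1) n d hd
  have e : ((n : ℝ) * τ : ℝ) = t := by rw [hτ]; field_simp
  rw [e, ← hW, ← hW'] at h1
  have h2 : (1 - τ ^ 2 / 2) ^ n ≤ Real.cos τ ^ n := pow_le_pow_left₀ hc0 hc1 n
  have h3 : 1 + n * (-(τ ^ 2 / 2)) ≤ (1 + (-(τ ^ 2 / 2))) ^ n :=
    one_add_mul_le_pow (by nlinarith) n
  have h4 : (1 - n * (τ ^ 2 / 2)) * W ≤ W' := by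
    have h5 : 1 - n * (τ ^ 2 / 2) ≤ Real.cos τ ^ n := by
      refine le_trans ?_ h2
      refine le_trans (le_of_eq ?_) (h3.trans (le_of_eq ?_))
      · ring
      · ring
    exact (mul_le_mul_of_nonneg_right h5 hWpos.le).trans h1
  have h6 : n * (τ ^ 2 / 2) = t ^ 2 / (2 * n) := by
    rw [hτ]; field_simp
  rw [h6] at h4
  have h7 : t ^ 2 * W < n * (W - W') := by
    rwa [div_lt_iff₀ (by linarith)] at hn3
  have h8 : t ^ 2 / (2 * n) * W < W - W' := by
    rw [div_mul_eq_mul_div, div_lt_iff₀ (by linarith)]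
    nlinarith
  nlinarith

theorem cw_of_not_two {F : Set ℂ} (hF : IsConvexFigure F) (hn : NoCornerSegment F)
    (h : ¬ Two F) : ConstantWidth F := by
  have key : ∀ d e : ℂ, ‖d‖ = 1 → ‖e‖ = 1 → width F d ≤ width F e := by
    intro d e hd he
    have hd0 : d ≠ 0 := by
      rintro rfl
      simp at hd
    set u := e / d with hu
    have hu1 : ‖u‖ = 1 := by rw [hu, norm_div, hd, he, div_one]
    have h1 : Complex.exp (arg u * I) = u := by
      have := norm_mul_exp_arg_mul_I u
      rwa [hu1, ofReal_one, one_mul] at this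
    have h2 : Complex.exp (-(((2 * Real.pi - arg u : ℝ) : ℂ) * I)) = u := by
      have e1 : -(((2 * Real.pi - arg u : ℝ) : ℂ) * I) = arg u * I - 2 * Real.pi * I := by
        push_cast
        ring
      rw [e1, Complex.exp_sub, Complex.exp_two_pi_mul_I, div_one]
      exact h1
    have ht : 0 ≤ 2 * Real.pi - arg u := by
      have := arg_le_pi u
      have := Real.pi_pos
      linarith
    have h3 := width_mono hF hn h ht hd
    rw [h2, hu, div_mul_cancel₀ _ hd0] at h3
    exact h3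
  exact ⟨width F 1, fun d hd => le_antisymm (key d 1 hd norm_one) (key 1 d norm_one hd)⟩

end Pool.Agent.H45.TC
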