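import Pool.Agent.H50.CP.Fin

set_option autoImplicit false

/-!
# Packing two clones: definitions
-/

namespace Pool.Agent.H45.TC

open Pool.Agent.H90.Clone Pool.Agent.H21.Tri Pool.Agent.H50.CP Complex Set

/-- Every two `F`-clones of total area `1` can be packed in some `F`-clone of area `S`. -/
def PairAdmissible (F : Set ℂ) (S : ℝ) : Prop :=
  ∀ G : Fin 2 → Set ℂ, (∀ i, IsClone F (G i)) → ∑ i, area (G i) = 1 →
    ∃ Q : Set ℂ, IsClone F Q ∧ area Q = S ∧ CanPack G Q

/-- The regular polygon with the `n` vertices `z + w exp(2 π i k / n)`. -/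
noncomputable def RegPoly (n : ℕ) (z w : ℂ) : Set ℂ :=
  convexHull ℝ (range fun k : ℤ => z + w * Complex.exp (2 * Real.pi * I * (k / n : ℂ)))

/-- The width of `F` in the direction `d`. -/
noncomputable def width (F : Set ℂ) (d : ℂ) : ℝ :=
  sSup ((fun x => ip x d) '' F) - sInf ((fun x => ip x d) '' F)

/-- All widths of `F` are equal. -/
def ConstantWidth (F : Set ℂ) : Prop := ∃ w : ℝ, ∀ d : ℂ, ‖d‖ = 1 → width F d = w

/-- No boundary segment of `F` ends in a corner: at a point with two different support lines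
none of these lines meets `F` in a second point. Smooth figures and strictly convex figures
have this property. -/
def NoCornerSegment (F : Set ℂ) : Prop :=
  ∀ p ∈ F, ∀ d e : ℂ, ‖d‖ = 1 → ‖e‖ = 1 → d ≠ e → (∀ x ∈ F, ip x d ≤ ip p d) →
    (∀ x ∈ F, ip x e ≤ ip p e) → ∀ f ∈ F, ip f d = ip p d → f = p

end Pool.Agent.H45.TC
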