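import Pool.Agent.H45.TC.Ang

set_option autoImplicit false

/-!
# Cyclic sets of angles and gains
-/

namespace Pool.Agent.H45.TC

open Pool.Agent.H50.CP Set

/-- A closed set of angles with period `π`, and the support function
`g θ = max {cos (θ - c) : c ∈ C}` of the convex hull of the points of the unit circle with
angles in `C`. -/
structure Cyc (C : Set ℝ) (g : ℝ → ℝ) : Prop where
  closed : IsClosed C
  per : ∀ c, c ∈ C ↔ c + Real.pi ∈ C
  att : ∀ θ, ∃ c ∈ C, |θ - c| ≤ Real.pi / 2 ∧ g θ = Real.cos (θ - c)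
  le : ∀ θ, ∀ c ∈ C, Real.cos (θ - c) ≤ g θ

/-- A half copy turned by `τ` with centre `w / 2` lies in the interior of the figure with the
support function `g`, and the origin is not in its interior. -/
def Gain (g : ℝ → ℝ) : Prop := ∃ (τ : ℝ) (w : ℂ) (φ₀ : ℝ),
  (∀ φ, ip w (ex φ) + g (φ - τ) < 2 * g φ) ∧ g (φ₀ - τ) ≤ ip w (ex φ₀)

end Pool.Agent.H45.TC
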