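import Pool.Agent.H45.TC.Mirror

set_option autoImplicit false

/-!
# Edges are symmetric about their feet
-/

namespace Pool.Agent.H45.TC

open Pool.Agent.H90.Clone Pool.Agent.H21.Tri Pool.Agent.H50.CP Complex Set Pointwise

private lemma Edge1_small {A : ℝ} (hA : 0 < A) (B : ℝ) : ∃ δ : ℝ, 0 < δ ∧ δ ≤ Real.pi / 4 ∧
    ∀ x : ℝ, 0 ≤ x → x ≤ δ → 0 < Real.cos x * A - Real.sin x * B := by
  have hcont : Continuous fun x : ℝ => Real.cos x * A - Real.sin x * B := by fun_prop
  have hev : ∀ᶠ x in nhds (0 : ℝ), 0 < Real.cos x * A - Real.sin x * B :=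
    hcont.continuousAt.eventually (lt_mem_nhds (by simpa using hA))
  obtain ⟨δ, hδ, H⟩ := Metric.eventually_nhds_iff.mp hev
  have hpi := Real.pi_pos
  refine ⟨min (δ / 2) (Real.pi / 4), by positivity, min_le_right _ _, fun x h0 h1 => ?_⟩
  apply H
  have : x ≤ δ / 2 := h1.trans (min_le_left _ _)
  rw [Real.dist_eq, sub_zero, abs_of_nonneg h0]
  linarith

theorem edge1 {K : Set ℂ} (hK : IsConvexFigure K) (hs : CSym K) (h2 : ¬ Two K) {θ : ℝ} {p : ℂ}
    (hp : Last K θ p) (ht : 0 < ip p (I * ex θ)) :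
    ∃ (a b : ℝ) (p1 : ℂ), a ≤ θ ∧ θ < a + Real.pi / 2 ∧ θ < b ∧ b < θ + Real.pi / 2 ∧
      Top K a p ∧ Top K b p ∧ First K a p1 ∧ ip (p + p1) (I * ex a) = 0 := by
  have hpi := Real.pi_pos
  have h0 := top_pos hK hs hp.1
  obtain ⟨δ, hδ0, hδ1, hδ⟩ := Edge1_small ht (ip p (ex θ))
  -- points of the faces shortly after `θ`
  have hpos : ∀ s : ℝ, θ < s → s ≤ θ + δ → ∀ f, Top K s f → 0 < ip f (I * ex s) := by
    intro s h3 h4 f hf
    have h5 := hp.1.mono_left hf h3 (by linarith)
    have h6 := hp.1.2 f hf.1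
    have h7 := hδ (s - θ) (by linarith) (by linarith)
    rw [ip_Iex_sub f θ s]
    have hc : 0 ≤ Real.cos (s - θ) := Real.cos_nonneg_of_neg_pi_div_two_le_of_le (by linarith)
      (by linarith)
    have hsn : 0 ≤ Real.sin (s - θ) := Real.sin_nonneg_of_nonneg_of_le_pi (by linarith)
      (by linarith)
    have h8 := mul_le_mul_of_nonneg_left h5 hc
    have h9 := mul_le_mul_of_nonneg_left h6 hsn
    linarith
  set b := θ + δ with hb
  have hθb : θ < b := by linarith
  obtain ⟨p', hp'⟩ := first_exists hK b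
  obtain ⟨a, p1, hab, hba, haT, hp1, hle⟩ := pplus hK hs h2 hp' (hpos b hθb le_rfl p' hp'.1)
  have haθ : a ≤ θ := by
    by_contra hc
    push Not at hc
    have h3 := hpos a hc hab.le p' haT
    have h4 := hpos a hc hab.le p1 hp1.1
    rw [ip_add_left] at hle
    linarith
  have hpp : p' = p := by
    have h3 : Top K θ p' := haT.cone hp'.1 haθ hθb.le (by linarith)
    exact (last_of_two h3 hp'.1 hθb (by linarith)).unique hp
  rw [hpp] at haT hle hp'
  have hbT : Top K b p := hp'.1
  have hlastA : Last K a p := last_of_two haT hbT hab (by linarith)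
  refine ⟨a, b, p1, haθ, by linarith, hθb, by linarith, haT, hbT, hp1, le_antisymm hle ?_⟩
  -- the other inequality
  have hpa : 0 < ip p (I * ex a) := by
    rw [ip_Iex_sub p θ a]
    have hc : 0 < Real.cos (a - θ) := Real.cos_pos_of_mem_Ioo ⟨by linarith, by linarith⟩
    have hsn : Real.sin (a - θ) ≤ 0 := Real.sin_nonpos_of_nonpos_of_neg_pi_le (by linarith)
      (by linarith)
    nlinarith [mul_pos hc ht, mul_nonneg (neg_nonneg.2 hsn) h0.le]
  have hp1a : ip p1 (I * ex a) < 0 := by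
    rw [ip_add_left] at hle
    linarith
  obtain ⟨δ', hδ0', hδ1', hδ'⟩ := Edge1_small (neg_pos.2 hp1a) (ip p1 (ex a))
  have hneg : ∀ s : ℝ, s < a → a - δ' ≤ s → ∀ f, Top K s f → ip f (I * ex s) < 0 := by
    intro s h3 h4 f hf
    have h5 := hf.mono_right hp1.1 h3 (by linarith)
    have h6 := hp1.1.2 f hf.1
    have h7 := hδ' (a - s) (by linarith) (by linarith)
    rw [ip_Iex_sub f a s]
    have e1 : Real.cos (s - a) = Real.cos (a - s) := by rw [← Real.cos_neg, neg_sub]
    have e2 : Real.sin (s - a) = -Real.sin (a - s) := by rw [← Real.sin_neg, neg_sub]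
    rw [e1, e2]
    have hc : 0 ≤ Real.cos (a - s) := Real.cos_nonneg_of_neg_pi_div_two_le_of_le (by linarith)
      (by linarith)
    have hsn : 0 ≤ Real.sin (a - s) := Real.sin_nonneg_of_nonneg_of_le_pi (by linarith)
      (by linarith)
    have h8 := mul_le_mul_of_nonneg_left h5 hc
    have h9 := mul_le_mul_of_nonneg_left h6 hsn
    linarith
  set σ := a - δ' with hσ
  have hσa : σ < a := by linarith
  obtain ⟨q, hq⟩ := last_exists hK σ
  obtain ⟨β, q2, hσβ, hβσ, hβT, hq2, hge⟩ := pminus hK hs h2 hq (hneg σ hσa le_rfl q hq.1)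
  rcases lt_trichotomy β a with hβ | hβ | hβ
  · exfalso
    have h3 := hneg β hβ hσβ.le q hβT
    have h4 := hneg β hβ hσβ.le q2 hq2.1
    rw [ip_add_left] at hge
    linarith
  · rw [hβ] at hβT hq2 hge
    have h3 : q = p1 := (first_of_two hq.1 hβT hσa (by linarith)).unique hp1
    have h4 : q2 = p := hq2.unique hlastA
    rw [h3, h4, add_comm] at hge
    exact hge
  · exfalso
    have h3 : Top K a q := hq.1.cone hβT hσa.le hβ.le (by linarith)
    have h4 := first_of_two hq.1 h3 hσa (by linarith)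
    have h5 := last_of_two h3 hβT hβ (by linarith)
    have h6 := h4.only h5 haT
    have h7 := h4.only h5 hp1.1
    rw [h6, ← h7] at hpa
    linarith

end Pool.Agent.H45.TC
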