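import Pool.Agent.H45.TC.Edge1

set_option autoImplicit false

/-!
# Every face is a point or one of the ends of a symmetric edge
-/

namespace Pool.Agent.H45.TC

open Pool.Agent.H90.Clone Pool.Agent.H21.Tri Pool.Agent.H50.CP Complex Set Pointwise

theorem edge2 {K : Set ℂ} (hK : IsConvexFigure K) (hs : CSym K) (h2 : ¬ Two K) {θ : ℝ} {p : ℂ}
    (hp : Last K θ p) (ht : 0 < ip p (I * ex θ)) :
    ∃ (c a : ℝ), p = (‖p‖ : ℂ) * ex c ∧ a ≤ θ ∧ θ < c ∧ c < a + Real.pi / 2 ∧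
      (∀ s, a ≤ s → s ≤ c → Top K s p) ∧ First K a ((‖p‖ : ℂ) * ex (2 * a - c)) := by
  have hpi := Real.pi_pos
  obtain ⟨a, b, p1, haθ, hθa, hθb, hbθ, haT, hbT, hp1, hsum⟩ := edge1 hK hs h2 hp ht
  obtain ⟨c, hc, hc1, hc2⟩ := exists_pol p θ
  have h0 := top_pos hK hs hp.1
  have hpn : 0 < ‖p‖ := lt_of_lt_of_le h0 (ip_ex_le_norm p θ)
  have ipx : ∀ s : ℝ, ip p (ex s) = ‖p‖ * Real.cos (c - s) := by
    intro s
    conv_lhs => rw [hc]
    rw [ip_pol]
  have ipI : ∀ s : ℝ, ip p (I * ex s) = ‖p‖ * Real.sin (c - s) := by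
    intro s
    conv_lhs => rw [hc]
    rw [ip_pol_I]
  have hcos : 0 < Real.cos (c - θ) := by
    rw [ipx] at h0
    exact pos_of_mul_pos_right h0 hpn.le
  have hsin : 0 < Real.sin (c - θ) := by
    rw [ipI] at ht
    exact pos_of_mul_pos_right ht hpn.le
  have hcθ : θ < c := by
    by_contra hcon
    push Not at hcon
    have := Real.sin_nonpos_of_nonpos_of_neg_pi_le (show c - θ ≤ 0 by linarith) (by linarith)
    linarith
  have hcθ2 : c < θ + Real.pi / 2 := by
    by_contra hcon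
    push Not at hcon
    have := Real.cos_nonpos_of_pi_div_two_le_of_le (show Real.pi / 2 ≤ c - θ by linarith)
      (by linarith)
    linarith
  have hca : c < a + Real.pi / 2 := by
    have h3 := top_pos hK hs haT
    rw [ipx] at h3
    have h4 : 0 < Real.cos (c - a) := pos_of_mul_pos_right h3 hpn.le
    by_contra hcon
    push Not at hcon
    have := Real.cos_nonpos_of_pi_div_two_le_of_le (show Real.pi / 2 ≤ c - a by linarith)
      (by linarith)
    linarith
  have hp1eq : p1 = (‖p‖ : ℂ) * ex (2 * a - c) := by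
    apply eq_of_ip (θ := a)
    · rw [ip_pol, ← haT.eq hp1.1, ipx]
      congr 1
      rw [← Real.cos_neg]
      congr 1
      ring
    · rw [ip_pol_I]
      rw [ip_add_left, ipI] at hsum
      have e : Real.sin (2 * a - c - a) = -Real.sin (c - a) := by
        rw [← Real.sin_neg]
        congr 1
        ring
      rw [e]
      linarith
  -- the point `p` is extreme in its own direction
  set S : Set ℝ := {s | Top K s p} ∩ Icc θ (θ + Real.pi / 2) with hS
  have hSc : IsCompact S := isCompact_Icc.inter_left (top_closed K p)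
  have hbS : b ∈ S := ⟨hbT, hθb.le, hbθ.le⟩
  set m := sSup S with hm
  have hmS : m ∈ S := hSc.sSup_mem ⟨b, hbS⟩
  have hmT : Top K m p := hmS.1
  have hbm : b ≤ m := le_csSup hSc.bddAbove hbS
  have hcm : c ≤ m := by
    by_contra hcon
    push Not at hcon
    obtain ⟨q, hq⟩ := last_exists hK m
    have h3 : 0 < ip p (I * ex m) := by
      rw [ipI]
      exact mul_pos hpn (Real.sin_pos_of_pos_of_lt_pi (by linarith) (by linarith))
    have h4 : 0 < ip q (I * ex m) := lt_of_lt_of_le h3 (hq.2 p hmT)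
    obtain ⟨a', b', q1, ha'm, hma', hmb', hb'm, ha'T, hb'T, hq1, hsum'⟩ := edge1 hK hs h2 hq h4
    by_cases hqp : q = p
    · rw [hqp] at hb'T
      have h5 : m < min b' (θ + Real.pi / 2) := lt_min hmb' (by linarith)
      have h6 : Top K (min b' (θ + Real.pi / 2)) p :=
        hmT.cone hb'T h5.le (min_le_left _ _) (by linarith)
      have h7 : min b' (θ + Real.pi / 2) ∈ S := ⟨h6, by linarith [hmS.2.1], min_le_right _ _⟩
      have h8 := le_csSup hSc.bddAbove h7
      linarith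
    · rcases eq_or_lt_of_le ha'm with hE | hE
      · rw [hE] at hq1 hsum'
        have h5 : First K m p := first_of_two hp.1 hmT (by linarith) (by linarith)
        have h6 : q1 = p := hq1.unique h5
        rw [h6, ip_add_left] at hsum'
        linarith
      · have h5 := first_of_two ha'T hq.1 hE (by linarith)
        have h6 := last_of_two hq.1 hb'T hmb' (by linarith)
        exact hqp (h5.only h6 hmT).symm
  have hcT : Top K c p := haT.cone hmT (by linarith) hcm (by linarith [hmS.2.2])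
  refine ⟨c, a, hc, haθ, hcθ, hca, fun s h3 h4 => haT.cone hcT h3 h4 (by linarith), ?_⟩
  rw [← hp1eq]
  exact hp1

lemma conj_ex (c : ℝ) : (starRingEnd ℂ) (ex c) = ex (-c) := by
  apply Complex.ext
  · rw [conj_re, ex_re, ex_re, Real.cos_neg]
  · rw [conj_im, ex_im, ex_im, Real.sin_neg]

lemma conj_pol (R c : ℝ) : (starRingEnd ℂ) ((R : ℂ) * ex c) = (R : ℂ) * ex (-c) := by
  rw [map_mul, conj_ofReal, conj_ex]

lemma edge2' {K : Set ℂ} (hK : IsConvexFigure K) (hs : CSym K) (h2 : ¬ Two K) {θ : ℝ} {p : ℂ}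
    (hp : First K θ p) (ht : ip p (I * ex θ) < 0) :
    ∃ (c a : ℝ), p = (‖p‖ : ℂ) * ex c ∧ θ ≤ a ∧ c < θ ∧ a < c + Real.pi / 2 ∧
      (∀ s, c ≤ s → s ≤ a → Top K s p) := by
  have h3 : Last (cj K) (-θ) ((starRingEnd ℂ) p) := cj_last.2 hp
  have h4 : 0 < ip ((starRingEnd ℂ) p) (I * ex (-θ)) := by
    rw [cj_ip_I]
    linarith
  obtain ⟨c, a, hc, haθ, hθc, hca, hT, -⟩ := edge2 (cj_fig hK) (cj_sym hs) (cj_two hK h2) h3 h4
  refine ⟨-c, -a, ?_, by linarith, by linarith, by linarith, fun s h5 h6 => ?_⟩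
  · have h5 := congrArg (starRingEnd ℂ) hc
    rw [conj_conj, conj_pol, RCLike.norm_conj] at h5
    exact h5
  · apply cj_top.1
    exact hT (-s) (by linarith) (by linarith)

private lemma Edge2_pos {K : Set ℂ} (hK : IsConvexFigure K) (hs : CSym K) (h2 : ¬ Two K) {θ : ℝ}
    {p : ℂ} (hp : Top K θ p) (hmax : ∀ f, Top K θ f → ‖f‖ ≤ ‖p‖) (ht : 0 < ip p (I * ex θ)) :
    ∃ (c₁ c₂ : ℝ), c₁ ≤ θ ∧ θ ≤ c₂ ∧ c₂ < c₁ + Real.pi ∧
      (∀ s, c₁ ≤ s → s ≤ (c₁ + c₂) / 2 → Top K s ((‖p‖ : ℂ) * ex c₁)) ∧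
      (∀ s, (c₁ + c₂) / 2 ≤ s → s ≤ c₂ → Top K s ((‖p‖ : ℂ) * ex c₂)) := by
  have hpi := Real.pi_pos
  have hlast : Last K θ p := by
    refine ⟨hp, fun f hf => ?_⟩
    have h3 := ip_sq f θ
    have h4 := ip_sq p θ
    rw [← hp.eq hf] at h3
    have h5 := hmax f hf
    have h6 : ip f (I * ex θ) ^ 2 ≤ ip p (I * ex θ) ^ 2 := by
      have : ‖f‖ ^ 2 ≤ ‖p‖ ^ 2 := pow_le_pow_left₀ (norm_nonneg f) h5 2
      linarith
    exact (abs_le_of_sq_le_sq' h6 ht.le).2
  obtain ⟨c, a, hc, haθ, hθc, hca, hT, hF⟩ := edge2 hK hs h2 hlast ht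
  have hpn : 0 < ‖p‖ := lt_of_lt_of_le (top_pos hK hs hp) (ip_ex_le_norm p θ)
  have hneg : ip ((‖p‖ : ℂ) * ex (2 * a - c)) (I * ex a) < 0 := by
    rw [ip_pol_I]
    have : Real.sin (2 * a - c - a) < 0 :=
      Real.sin_neg_of_neg_of_neg_pi_lt (by linarith) (by linarith)
    exact mul_neg_of_pos_of_neg hpn this
  obtain ⟨c', a', hc', haa', hc'a, ha'c', hT'⟩ := edge2' hK hs h2 hF hneg
  have hn : ‖(‖p‖ : ℂ) * ex (2 * a - c)‖ = ‖p‖ := by
    rw [norm_mul, norm_ex, mul_one, norm_real, Real.norm_eq_abs, abs_of_pos hpn]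
  rw [hn] at hc'
  have hcc : 2 * a - c = c' := by
    have h3 : Real.cos (2 * a - c - a) = Real.cos (c' - a) := by
      have h4 : ip ((‖p‖ : ℂ) * ex (2 * a - c)) (ex a) = ip ((‖p‖ : ℂ) * ex c') (ex a) := by
        rw [← hc']
      rw [ip_pol, ip_pol] at h4
      exact mul_left_cancel₀ hpn.ne' h4
    have h4 : Real.cos (c - a) = Real.cos (a - c') := by
      rw [← Real.cos_neg (c - a), ← Real.cos_neg (a - c')]
      have e1 : -(c - a) = 2 * a - c - a := by ring
      have e2 : -(a - c') = c' - a := by ring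
      rw [e1, e2]
      exact h3
    have h5 := Real.injOn_cos (show c - a ∈ Icc 0 Real.pi from ⟨by linarith, by linarith⟩)
      (show a - c' ∈ Icc 0 Real.pi from ⟨by linarith, by linarith⟩) h4
    linarith
  refine ⟨2 * a - c, c, by linarith, by linarith, by linarith, fun s h3 h4 => ?_,
    fun s h3 h4 => ?_⟩
  · apply hT' s (by linarith) (by linarith)
  · rw [← hc]
    exact hT s (by linarith) h4

theorem chord {K : Set ℂ} (hK : IsConvexFigure K) (hs : CSym K) (h2 : ¬ Two K) {θ : ℝ} {p : ℂ}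
    (hp : Top K θ p) (hmax : ∀ f, Top K θ f → ‖f‖ ≤ ‖p‖) :
    ∃ (c₁ c₂ : ℝ), c₁ ≤ θ ∧ θ ≤ c₂ ∧ c₂ < c₁ + Real.pi ∧
      (∀ s, c₁ ≤ s → s ≤ (c₁ + c₂) / 2 → Top K s ((‖p‖ : ℂ) * ex c₁)) ∧
      (∀ s, (c₁ + c₂) / 2 ≤ s → s ≤ c₂ → Top K s ((‖p‖ : ℂ) * ex c₂)) := by
  have hpi := Real.pi_pos
  rcases lt_trichotomy (ip p (I * ex θ)) 0 with ht | ht | ht
  · have h3 : Top (cj K) (-θ) ((starRingEnd ℂ) p) := cj_top.2 hp
    have h4 : 0 < ip ((starRingEnd ℂ) p) (I * ex (-θ)) := by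
      rw [cj_ip_I]
      linarith
    have hn : ‖(starRingEnd ℂ) p‖ = ‖p‖ := RCLike.norm_conj p
    obtain ⟨c₁, c₂, k1, k2, k3, k4, k5⟩ := Edge2_pos (cj_fig hK) (cj_sym hs) (cj_two hK h2) h3
      (fun f hf => by
        have h5 : Top (cj K) (-θ) ((starRingEnd ℂ) ((starRingEnd ℂ) f)) := by
          rwa [conj_conj]
        have h6 := hmax _ (cj_top.1 h5)
        rw [RCLike.norm_conj] at h6
        rw [hn]
        exact h6) h4
    rw [hn] at k4 k5
    refine ⟨-c₂, -c₁, by linarith, by linarith, by linarith, fun s h5 h6 => ?_,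
      fun s h5 h6 => ?_⟩
    · apply cj_top.1
      rw [conj_pol, neg_neg]
      exact k5 (-s) (by linarith) (by linarith)
    · apply cj_top.1
      rw [conj_pol, neg_neg]
      exact k4 (-s) (by linarith) (by linarith)
  · have h3 := ip_sq p θ
    have h4 := top_pos hK hs hp
    have h5 : ip p (ex θ) = ‖p‖ := by
      rw [ht] at h3
      have h6 : ip p (ex θ) ^ 2 = ‖p‖ ^ 2 := by linarith
      exact (sq_eq_sq₀ h4.le (norm_nonneg p)).1 h6
    have h6 : p = (‖p‖ : ℂ) * ex θ := by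
      apply eq_of_ip (θ := θ)
      · rw [ip_pol, sub_self, Real.cos_zero, mul_one, h5]
      · rw [ip_pol_I, sub_self, Real.sin_zero, mul_zero, ht]
    refine ⟨θ, θ, le_rfl, le_rfl, by linarith, fun s h7 h8 => ?_, fun s h7 h8 => ?_⟩
    · have : s = θ := le_antisymm (by linarith) h7
      rw [this, ← h6]
      exact hp
    · have : s = θ := le_antisymm h8 (by linarith)
      rw [this, ← h6]
      exact hp
  · exact Edge2_pos hK hs h2 hp hmax ht

end Pool.Agent.H45.TC
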