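import Mathlib

set_option autoImplicit false

/-!
# A function that loses at most a factor `cos` is constant

PROOF. Let `θ, θ'` and `t = θ' - θ`. For `n ≥ |t| + 1` the points `θ + k t / n`, `k = 0, ..., n`,
give `f θ' ≥ cos (t / n) ^ n * f θ` (induction; `|t / n| ≤ 1`, so the cosine is positive). By
`Real.one_sub_sq_div_two_le_cos` and Bernoulli (`one_add_mul_le_pow`)
`cos (t / n) ^ n ≥ 1 - t ^ 2 / (2 n)`, which tends to `1`; so `f θ' ≥ f θ` (compare `width_mono` in
`Pool/Agent/H45/TC/Cw.lean`). Exchange `θ` and `θ'`.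
-/

namespace Pool.Agent.H45.TC

private lemma iter_step {f : ℝ → ℝ}
    (h : ∀ θ θ' : ℝ, |θ' - θ| ≤ 1 → Real.cos (θ' - θ) * f θ ≤ f θ') {s : ℝ} (hs : |s| ≤ 1)
    (θ : ℝ) (k : ℕ) : Real.cos s ^ k * f θ ≤ f (θ + k * s) := by
  have hc : 0 ≤ Real.cos s := by
    have h1 := Real.one_sub_sq_div_two_le_cos (x := s)
    have h2 : s ^ 2 ≤ 1 := by
      rw [← sq_abs]
      nlinarith [abs_nonneg s]
    linarith
  induction k with
  | zero => simp
  | succ k ih =>
    have h1 := h (θ + k * s) (θ + (k + 1 : ℕ) * s) (by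
      have e : θ + (k + 1 : ℕ) * s - (θ + k * s) = s := by
        push_cast
        ring
      rw [e]
      exact hs)
    have e : θ + (k + 1 : ℕ) * s - (θ + k * s) = s := by
      push_cast
      ring
    rw [e] at h1
    refine le_trans ?_ h1
    rw [pow_succ', mul_assoc]
    exact mul_le_mul_of_nonneg_left ih hc

private lemma iter_mono {f : ℝ → ℝ} (h0 : ∀ θ, 0 ≤ f θ)
    (h : ∀ θ θ' : ℝ, |θ' - θ| ≤ 1 → Real.cos (θ' - θ) * f θ ≤ f θ') (θ θ' : ℝ) :
    f θ ≤ f θ' := by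
  have key : ∀ n : ℕ, |θ' - θ| + 1 ≤ n → (1 - (θ' - θ) ^ 2 / (2 * n)) * f θ ≤ f θ' := by
    intro n hn
    have hn0 : (0 : ℝ) < n := by
      have := abs_nonneg (θ' - θ)
      linarith
    have hs : |(θ' - θ) / n| ≤ 1 := by
      rw [abs_div, abs_of_pos hn0, div_le_one hn0]
      linarith
    have h1 := iter_step h hs θ n
    have e : θ + n * ((θ' - θ) / n) = θ' := by
      field_simp
      ring
    rw [e] at h1
    refine le_trans ?_ h1
    apply mul_le_mul_of_nonneg_right _ (h0 θ)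
    have h2 := Real.one_sub_sq_div_two_le_cos (x := (θ' - θ) / n)
    have h3 : ((θ' - θ) / n) ^ 2 ≤ 1 := by
      rw [← sq_abs]
      nlinarith [abs_nonneg ((θ' - θ) / n)]
    have h4 := one_add_mul_le_pow (a := -(((θ' - θ) / n) ^ 2 / 2)) (by linarith) n
    calc 1 - (θ' - θ) ^ 2 / (2 * n) = 1 + (n : ℝ) * (-(((θ' - θ) / n) ^ 2 / 2)) := by
          field_simp
          ring
      _ ≤ (1 + -(((θ' - θ) / n) ^ 2 / 2)) ^ n := h4
      _ ≤ Real.cos ((θ' - θ) / n) ^ n := by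
          apply pow_le_pow_left₀
          · linarith
          · linarith
  have hlim : Filter.Tendsto (fun n : ℕ => (1 - (θ' - θ) ^ 2 / (2 * n)) * f θ) Filter.atTop
      (nhds ((1 - 0) * f θ)) := by
    apply Filter.Tendsto.mul_const
    apply Filter.Tendsto.const_sub
    have h1 : Filter.Tendsto (fun n : ℕ => ((θ' - θ) ^ 2 / 2) / (n : ℝ)) Filter.atTop (nhds 0) :=
      tendsto_const_div_atTop_nhds_zero_nat _
    refine h1.congr ?_
    intro n
    rw [div_div]
  have h2 := le_of_tendsto hlim (by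
    obtain ⟨N, hN⟩ := exists_nat_ge (|θ' - θ| + 1)
    filter_upwards [Filter.eventually_ge_atTop N] with n hn
    exact key n (hN.trans (by exact_mod_cast hn)))
  simpa using h2

theorem const_of_cos {f : ℝ → ℝ} (h0 : ∀ θ, 0 ≤ f θ)
    (h : ∀ θ θ' : ℝ, |θ' - θ| ≤ 1 → Real.cos (θ' - θ) * f θ ≤ f θ') : ∀ θ θ' : ℝ, f θ = f θ' := by
  intro θ θ'
  exact le_antisymm (iter_mono h0 h θ θ') (iter_mono h0 h θ' θ)

end Pool.Agent.H45.TC
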