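import Pool.Agent.H45.TC.Edge2
import Pool.Agent.H45.TC.Iter
import Pool.Agent.H45.TC.Defs2

set_option autoImplicit false

/-!
# A centrally symmetric figure without two larger half copies is inscribed in a circle

PROOF. Let `M θ` be the largest norm of a point of the face in the direction `θ`
(`topmax_exists`; define `M` by choice, `M θ = ‖p‖` for the chosen point). `M ≥ 0`.

Claim: `cos (θ' - θ) * M θ ≤ M θ'` for `|θ' - θ| ≤ 1`. Take the point `p` of maximal norm of the face
`θ`, `R = ‖p‖`, and `c₁ ≤ θ ≤ c₂` from `chord`. If `c₁ ≤ θ' ≤ c₂` then one of `R ex c₁`, `R ex c₂`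
is extreme in the direction `θ'` and has norm `R`, so `M θ' ≥ R`. If `θ' > c₂`: `R ex c₂ ∈ K`, so for
the chosen point `p'` of the face `θ'`: `M θ' ≥ ip p' (ex θ') ≥ ip (R ex c₂) (ex θ') =
R cos (c₂ - θ') ≥ R cos (θ' - θ)` (`0 ≤ θ' - c₂ ≤ θ' - θ ≤ 1`). The same for `θ' < c₁`. If
`cos (θ' - θ) * M θ ≤ M θ` is needed use `M θ ≥ 0`.

By `const_of_cos` `M` is constant, `M = ρ`. `ρ > 0` by `top_pos` and `ip_ex_le_norm`. So every face
contains a point of norm `ρ`; write it as `ρ ex c` (`exists_pol`). `‖x‖ ≤ ρ` for `x ∈ K`: for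
`x = ‖x‖ ex c` and a point `p` of the face `c`: `‖x‖ = ip x (ex c) ≤ ip p (ex c) ≤ ‖p‖ ≤ ρ`.

`cyc_exists`: `C = {c | ρ ex c ∈ K}` is closed (`K` is closed, `ex` continuous) and
`c ∈ C ↔ c + π ∈ C` (`ex_add_pi`, `CSym`); `g θ = sup K θ / ρ`. For a point `ρ ex c` of the face `θ`:
`g θ = cos (c - θ) > 0` (`sup_eq`, `ip_pol`, `top_pos`); choose the representative `c` with
`|θ - c| ≤ π` (`exists_pol`), then `cos > 0` gives `|θ - c| ≤ π / 2`. `le`: `le_sup`. The last clause:
`⊇` is clear. `⊆`: the set `Z = {ρ ex c | c ∈ C}` is compact (`Z = K ∩ sphere 0 ρ`), so its convex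
hull is compact (`IsCompact.convexHull`) and a point `x ∈ K` outside could be separated strictly
(`geometric_hahn_banach_compact_closed` or `geometric_hahn_banach_closed_point`; for a linear
functional `f ≠ 0` there are `R > 0` and `θ` with `f z = R ip z (ex θ)`, see `sep_unit` in
`TC/Iso.lean`), but the face `θ` contains a point of `Z`.
-/

namespace Pool.Agent.H45.TC

open Pool.Agent.H90.Clone Pool.Agent.H21.Tri Pool.Agent.H50.CP Complex Set Pointwise

theorem Faces_norm_pol {R : ℝ} (hR : 0 ≤ R) (c : ℝ) : ‖(R : ℂ) * ex c‖ = R := by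
  rw [norm_mul, norm_ex, mul_one, norm_real, Real.norm_eq_abs, abs_of_nonneg hR]

theorem Faces_compact_hull {Z : Set ℂ} (hZ : IsCompact Z) : IsCompact (convexHull ℝ Z) := by
  classical
  rcases Z.eq_empty_or_nonempty with h0 | ⟨z0, hz0⟩
  · rw [h0, convexHull_empty]
    exact isCompact_empty
  set Φ : (Fin 3 → ℝ) × (Fin 3 → ℂ) → ℂ := fun p => ∑ i, p.1 i • p.2 i with hΦ
  have hc : Continuous Φ := by
    rw [hΦ]
    fun_prop
  have hK : IsCompact (stdSimplex ℝ (Fin 3) ×ˢ Set.pi Set.univ (fun _ : Fin 3 => Z)) :=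
    (isCompact_stdSimplex ℝ (Fin 3)).prod (isCompact_univ_pi fun _ => hZ)
  have himg : convexHull ℝ Z = Φ '' (stdSimplex ℝ (Fin 3) ×ˢ Set.pi Set.univ
      (fun _ : Fin 3 => Z)) := by
    apply Set.Subset.antisymm
    · intro x hx
      obtain ⟨ι, hι, z, w, h1, h2, h3, h4, h5⟩ := eq_pos_convex_span_of_mem_convexHull hx
      have hcard : Fintype.card ι ≤ 3 := by
        have := h2.card_le_finrank_succ
        have h6 : Module.finrank ℝ (vectorSpan ℝ (Set.range z)) ≤ 2 := by
          have := Submodule.finrank_le (vectorSpan ℝ (Set.range z))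
          rwa [Complex.finrank_real_complex] at this
        omega
      obtain ⟨e⟩ := Function.Embedding.nonempty_of_card_le (α := ι) (β := Fin 3)
        (by rw [Fintype.card_fin]; exact hcard)
      refine ⟨(Function.extend e w 0, Function.extend e z (fun _ => z0)), ⟨⟨?_, ?_⟩, ?_⟩, ?_⟩
      · intro k
        by_cases hk : ∃ i, e i = k
        · obtain ⟨i, rfl⟩ := hk
          change 0 ≤ Function.extend e w 0 (e i)
          rw [e.injective.extend_apply]
          exact (h3 i).le
        · change 0 ≤ Function.extend e w 0 k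
          rw [Function.extend_apply' _ _ _ hk]
          exact le_rfl
      · change ∑ k, Function.extend e w 0 k = 1
        rw [← h4]
        symm
        refine Fintype.sum_of_injective e e.injective _ _ ?_ ?_
        · intro k hk
          rw [Function.extend_apply' _ _ _ (by simpa using hk)]
          rfl
        · intro i
          rw [e.injective.extend_apply]
      · intro k _
        change Function.extend e z (fun _ => z0) k ∈ Z
        by_cases hk : ∃ i, e i = k
        · obtain ⟨i, rfl⟩ := hk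
          rw [e.injective.extend_apply]
          exact h1 ⟨i, rfl⟩
        · rw [Function.extend_apply' _ _ _ hk]
          exact hz0
      · change ∑ k, Function.extend e w 0 k • Function.extend e z (fun _ => z0) k = x
        rw [← h5]
        symm
        refine Fintype.sum_of_injective e e.injective _ _ ?_ ?_
        · intro k hk
          rw [Function.extend_apply' _ _ _ (by simpa using hk)]
          simp
        · intro i
          rw [e.injective.extend_apply, e.injective.extend_apply]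
    · rintro _ ⟨⟨w, z⟩, ⟨hw, hz⟩, rfl⟩
      exact (convex_convexHull ℝ Z).sum_mem (fun i _ => hw.1 i) hw.2
        (fun i _ => subset_convexHull ℝ Z (hz i (Set.mem_univ i)))
  rw [himg]
  exact hK.image hc

theorem faces {K : Set ℂ} (hK : IsConvexFigure K) (hs : CSym K) (h2 : ¬ Two K) :
    ∃ ρ : ℝ, 0 < ρ ∧ (∀ x ∈ K, ‖x‖ ≤ ρ) ∧ ∀ θ : ℝ, ∃ c : ℝ, Top K θ ((ρ : ℂ) * ex c) := by
  choose p hp hmax using topmax_exists hK
  have hclaim : ∀ θ θ' : ℝ, |θ' - θ| ≤ 1 → Real.cos (θ' - θ) * ‖p θ‖ ≤ ‖p θ'‖ := by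
    intro θ θ' hθ
    obtain ⟨c₁, c₂, h1, h2', h3, ha, hb⟩ := chord hK hs h2 (hp θ) (hmax θ)
    have hR : 0 ≤ ‖p θ‖ := norm_nonneg _
    have hpi := Real.pi_gt_three
    rw [abs_le] at hθ
    have hcos1 : Real.cos (θ' - θ) * ‖p θ‖ ≤ ‖p θ‖ := by
      have := Real.cos_le_one (θ' - θ)
      nlinarith
    have t1 : Top K c₁ ((‖p θ‖ : ℂ) * ex c₁) := ha c₁ le_rfl (by linarith)
    have t2 : Top K c₂ ((‖p θ‖ : ℂ) * ex c₂) := hb c₂ (by linarith) le_rfl
    by_cases k1 : θ' < c₁
    · have k2 := (hp θ').2 _ t1.1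
      rw [ip_pol] at k2
      have k3 := ip_ex_le_norm (p θ') θ'
      have k4 : Real.cos (θ' - θ) ≤ Real.cos (c₁ - θ') := by
        rw [← Real.cos_neg (θ' - θ)]
        exact Real.cos_le_cos_of_nonneg_of_le_pi (by linarith) (by linarith) (by linarith)
      have k5 := mul_le_mul_of_nonneg_right k4 hR
      linarith
    · by_cases k2 : c₂ < θ'
      · have k3 := (hp θ').2 _ t2.1
        rw [ip_pol] at k3
        have k4 := ip_ex_le_norm (p θ') θ'
        have k5 : Real.cos (θ' - θ) ≤ Real.cos (c₂ - θ') := by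
          rw [← Real.cos_neg (c₂ - θ')]
          exact Real.cos_le_cos_of_nonneg_of_le_pi (by linarith) (by linarith) (by linarith)
        have k6 := mul_le_mul_of_nonneg_right k5 hR
        linarith
      · rw [not_lt] at k1 k2
        rcases le_total θ' ((c₁ + c₂) / 2) with k3 | k3
        · have := hmax θ' _ (ha θ' k1 k3)
          rw [Faces_norm_pol hR] at this
          linarith
        · have := hmax θ' _ (hb θ' k3 k2)
          rw [Faces_norm_pol hR] at this
          linarith
  have hconst := const_of_cos (f := fun θ => ‖p θ‖) (fun θ => norm_nonneg _) hclaim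
  have hc : ∀ θ, ‖p θ‖ = ‖p 0‖ := fun θ => hconst θ 0
  refine ⟨‖p 0‖, ?_, ?_, ?_⟩
  · exact lt_of_lt_of_le (top_pos hK hs (hp 0)) (ip_ex_le_norm _ _)
  · intro x hx
    obtain ⟨c, h1, _, _⟩ := exists_pol x 0
    have h3 := (hp c).2 x hx
    have h4 : ip x (ex c) = ‖x‖ := by
      conv_lhs => rw [h1]
      rw [ip_pol, sub_self, Real.cos_zero, mul_one]
    rw [h4] at h3
    rw [← hc c]
    exact h3.trans (ip_ex_le_norm _ _)
  · intro θ
    obtain ⟨c, h1, _, _⟩ := exists_pol (p θ) 0
    refine ⟨c, ?_⟩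
    rw [← hc θ, ← h1]
    exact hp θ

theorem cyc_exists {K : Set ℂ} (hK : IsConvexFigure K) (hs : CSym K) (h2 : ¬ Two K) :
    ∃ (ρ : ℝ) (C : Set ℝ) (g : ℝ → ℝ), 0 < ρ ∧ Cyc C g ∧ (∀ θ, sup K θ = ρ * g θ) ∧
      (∀ c, c ∈ C ↔ (ρ : ℂ) * ex c ∈ K) ∧ (∀ x ∈ K, ‖x‖ ≤ ρ) ∧
      K = convexHull ℝ ((fun c : ℝ => (ρ : ℂ) * ex c) '' C) := by
  obtain ⟨ρ, hρ, hle, hface⟩ := faces hK hs h2
  have hexc : Continuous ex := by
    unfold ex
    fun_prop
  refine ⟨ρ, {c | (ρ : ℂ) * ex c ∈ K}, fun θ => sup K θ / ρ, hρ, ⟨?_, ?_, ?_, ?_⟩, ?_, ?_,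
    hle, ?_⟩
  · exact hK.1.isClosed.preimage (continuous_const.mul hexc)
  · intro c
    have e : (ρ : ℂ) * ex (c + Real.pi) = -((ρ : ℂ) * ex c) := by rw [ex_add_pi]; ring
    change (ρ : ℂ) * ex c ∈ K ↔ (ρ : ℂ) * ex (c + Real.pi) ∈ K
    rw [e]
    constructor
    · intro h
      exact hs _ h
    · intro h
      have := hs _ h
      rwa [neg_neg] at this
  · intro θ
    obtain ⟨c0, hc0⟩ := hface θ
    have hn : ‖(ρ : ℂ) * ex c0‖ = ρ := Faces_norm_pol hρ.le c0
    obtain ⟨c, h1, h3, h4⟩ := exists_pol ((ρ : ℂ) * ex c0) θ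
    rw [hn] at h1
    rw [h1] at hc0
    have hval : sup K θ / ρ = Real.cos (θ - c) := by
      rw [sup_eq hc0, ip_pol, mul_div_cancel_left₀ _ hρ.ne', ← Real.cos_neg]
      congr 1
      ring
    refine ⟨c, hc0.1, ?_, hval⟩
    have hpos : 0 < Real.cos (θ - c) := by
      rw [← hval]
      exact div_pos (by rw [sup_eq hc0]; exact top_pos hK hs hc0) hρ
    by_contra hgt
    rw [not_le] at hgt
    have habs : |θ - c| ≤ Real.pi := abs_le.2 ⟨by linarith, by linarith⟩
    have := Real.cos_nonpos_of_pi_div_two_le_of_le hgt.le (by linarith [Real.pi_pos])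
    rw [Real.cos_abs] at this
    linarith
  · intro θ c hc
    have h := le_sup hK hc θ
    rw [ip_pol] at h
    rw [le_div_iff₀ hρ, ← Real.cos_neg]
    have e : -(θ - c) = c - θ := by ring
    rw [e]
    linarith
  · intro θ
    rw [mul_div_cancel₀ _ hρ.ne']
  · intro c
    rfl
  · apply Set.Subset.antisymm
    · have hZ : ((fun c : ℝ => (ρ : ℂ) * ex c) '' {c | (ρ : ℂ) * ex c ∈ K}) =
          K ∩ {z | ‖z‖ = ρ} := by
        ext z
        constructor
        · rintro ⟨c, hc, rfl⟩
          exact ⟨hc, Faces_norm_pol hρ.le c⟩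
        · rintro ⟨hz, hzn⟩
          have hzn' : ‖z‖ = ρ := hzn
          obtain ⟨c, h1, _, _⟩ := exists_pol z 0
          rw [hzn'] at h1
          refine ⟨c, ?_, h1.symm⟩
          change (ρ : ℂ) * ex c ∈ K
          rw [← h1]
          exact hz
      have hcomp : IsCompact (convexHull ℝ
          ((fun c : ℝ => (ρ : ℂ) * ex c) '' {c | (ρ : ℂ) * ex c ∈ K})) := by
        rw [hZ]
        exact Faces_compact_hull
          (hK.1.inter_right (isClosed_eq continuous_norm continuous_const))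
      intro x hx
      by_contra hxn
      obtain ⟨f, u, hf1, hf2⟩ := geometric_hahn_banach_closed_point (convex_convexHull ℝ _)
        hcomp.isClosed hxn
      set D : ℂ := ⟨f 1, f I⟩ with hD
      have hfD : ∀ z, f z = ip z D := by
        intro z
        have e : z = z.re • (1 : ℂ) + z.im • I := by
          rw [real_smul, real_smul, mul_one]
          exact (re_add_im z).symm
        conv_lhs => rw [e, map_add, map_smul, map_smul]
        simp [ip, hD]
      obtain ⟨θ, h1, _, _⟩ := exists_pol D 0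
      have hfθ : ∀ z, f z = ‖D‖ * ip z (ex θ) := by
        intro z
        rw [hfD z]
        conv_lhs => rw [h1]
        rw [ip_smul_right]
      obtain ⟨c, hc⟩ := hface θ
      have h3 := hf1 _ (subset_convexHull ℝ _ ⟨c, hc.1, rfl⟩)
      have h4 := mul_le_mul_of_nonneg_left (hc.2 x hx) (norm_nonneg D)
      rw [← hfθ, ← hfθ] at h4
      linarith
    · refine convexHull_min ?_ hK.2.1
      rintro _ ⟨c, hc, rfl⟩
      exact hc

end Pool.Agent.H45.TC
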