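import Pool.Agent.H45.TC.Defs
import Pool.Agent.H50.CP.Adm

set_option autoImplicit false

/-!
# Packing two clones: the constant is at most `2`, and it is `2` iff no two copies of scale above `1/2` fit

Two clones of scales `a`, `b` fit into a clone of scale `a + b` (two homothetic copies at the points where a linear
functional is extremal), and `a + b ≤ √2 √(a² + b²)`.  If two copies of a scale `l > 1/2` fit in `F` then for
`S < 2` close to `2` either both scales are at most `l s` or `a + b ≤ s`, where `s² area F = S`.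
-/

namespace Pool.Agent.H45.TC

open Pool.Agent.H90.Clone Pool.Agent.H21.Tri Pool.Agent.H50.CP Complex Set Pointwise MeasureTheory

/-- two homothetic copies side by side -/
private lemma pair_place {F : Set ℂ} (hF : IsConvexFigure F) {a b s : ℝ} (ha : 0 < a) (hb : 0 < b)
    (hs : a + b ≤ s) :
    ∃ A B : Set ℂ, IsCopy F a A ∧ IsCopy F b B ∧ A ⊆ s • F ∧ B ⊆ s • F ∧ SepSets A B := by
  have hs0 : 0 < s := by linarith
  have hne : F.Nonempty := hF.2.2.mono interior_subset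
  have hcont : ContinuousOn (fun z : ℂ => z.re) F := Complex.continuous_re.continuousOn
  obtain ⟨q, hq, hq'⟩ := hF.1.exists_isMinOn hne hcont
  obtain ⟨p, hp, hp'⟩ := hF.1.exists_isMaxOn hne hcont
  have hm : ∀ z ∈ F, q.re ≤ z.re := fun z hz => hq' hz
  have hM : ∀ z ∈ F, z.re ≤ p.re := fun z hz => hp' hz
  have key : ∀ (c : ℝ) (w : ℂ), 0 < c → c ≤ s → w ∈ F →
      (IsometryEquiv.addRight ((s - c) • w)) '' (c • F) ⊆ s • F := by
    rintro c w hc hcs hw _ ⟨_, ⟨f, hf, rfl⟩, rfl⟩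
    refine ⟨(c / s) • f + ((s - c) / s) • w, hF.2.1 hf hw (by positivity)
      (div_nonneg (by linarith) hs0.le) (by field_simp; ring), ?_⟩
    change s • ((c / s) • f + ((s - c) / s) • w) = c • f + (s - c) • w
    rw [smul_add, smul_smul, smul_smul, mul_div_cancel₀ _ hs0.ne', mul_div_cancel₀ _ hs0.ne']
  refine ⟨(IsometryEquiv.addRight ((s - a) • q)) '' (a • F),
    (IsometryEquiv.addRight ((s - b) • p)) '' (b • F), ⟨_, rfl⟩, ⟨_, rfl⟩,
    key a q ha (by linarith) hq, key b p hb (by linarith) hp, ?_⟩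
  refine ⟨Complex.reCLM, (s - a) * q.re + a * p.re, ?_, ?_, ?_⟩
  · intro h
    have := congrArg (fun f : ℂ →L[ℝ] ℝ => f 1) h
    simp at this
  · rintro _ ⟨_, ⟨f, hf, rfl⟩, rfl⟩
    change (a • f + (s - a) • q).re ≤ _
    have h1 := mul_le_mul_of_nonneg_left (hM f hf) ha.le
    simp only [add_re, smul_re, smul_eq_mul]
    linarith
  · rintro _ ⟨_, ⟨f, hf, rfl⟩, rfl⟩
    change _ ≤ (b • f + (s - b) • p).re
    have h1 := mul_le_mul_of_nonneg_left (hm f hf) hb.le
    have h2 : 0 ≤ (s - a - b) * (p.re - q.re) :=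
      mul_nonneg (by linarith) (by linarith [hm p hp])
    simp only [add_re, smul_re, smul_eq_mul]
    nlinarith

/-- a copy of scale `l` in `F` contains, enlarged by `s`, copies of all scales `≤ l s` -/
private lemma pair_shrink {F S : Set ℂ} (hF : IsConvexFigure F) {a l s : ℝ} (ha : 0 < a)
    (hl : 0 < l) (hs : 0 < s) (has : a ≤ l * s) (hS : IsCopy F l S) :
    ∃ A : Set ℂ, IsCopy F a A ∧ A ⊆ s • S := by
  obtain ⟨g, rfl⟩ := hS
  obtain ⟨p, hp⟩ : F.Nonempty := hF.2.2.mono interior_subset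
  have hls : 0 < l * s := by positivity
  refine ⟨((IsometryEquiv.addRight ((l * s - a) • p)).trans (scaleIso s hs.ne' g)) '' (a • F),
    ⟨_, rfl⟩, ?_⟩
  rintro _ ⟨_, ⟨f, hf, rfl⟩, rfl⟩
  change scaleIso s hs.ne' g (a • f + (l * s - a) • p) ∈ _
  rw [scaleIso_apply]
  refine ⟨g (s⁻¹ • (a • f + (l * s - a) • p)), ⟨_, ⟨(a / (l * s)) • f + ((l * s - a) / (l * s)) • p,
    hF.2.1 hf hp (by positivity) (div_nonneg (by linarith) hls.le) (by field_simp; ring), ?_⟩, rfl⟩, rfl⟩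
  change l • ((a / (l * s)) • f + ((l * s - a) / (l * s)) • p) = s⁻¹ • (a • f + (l * s - a) • p)
  rw [smul_add, smul_add, smul_smul, smul_smul, smul_smul, smul_smul]
  have e1 : l * (a / (l * s)) = s⁻¹ * a := by field_simp
  have e2 : l * ((l * s - a) / (l * s)) = s⁻¹ * (l * s - a) := by field_simp
  rw [e1, e2]

private lemma pair_sep_smul {A B : Set ℂ} (h : SepSets A B) {s : ℝ} (hs : 0 < s) :
    SepSets (s • A) (s • B) := by
  obtain ⟨f, t, hf, h1, h2⟩ := h
  refine ⟨f, s * t, hf, ?_, ?_⟩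
  · rintro _ ⟨z, hz, rfl⟩
    change f (s • z) ≤ _
    rw [map_smul, smul_eq_mul]
    exact mul_le_mul_of_nonneg_left (h1 z hz) hs.le
  · rintro _ ⟨z, hz, rfl⟩
    change _ ≤ f (s • z)
    rw [map_smul, smul_eq_mul]
    exact mul_le_mul_of_nonneg_left (h2 z hz) hs.le

private lemma pair_canPack {F Q A B : Set ℂ} {G : Fin 2 → Set ℂ} {c : Fin 2 → ℝ}
    {g : Fin 2 → (ℂ ≃ᵢ ℂ)} (hG : ∀ i, G i = g i '' (c i • F)) (hA : IsCopy F (c 0) A)
    (hB : IsCopy F (c 1) B) (hAQ : A ⊆ Q) (hBQ : B ⊆ Q) (hsep : SepSets A B) : CanPack G Q := by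
  obtain ⟨h0, rfl⟩ := hA
  obtain ⟨h1, rfl⟩ := hB
  set hh : Fin 2 → (ℂ ≃ᵢ ℂ) := ![h0, h1] with hhd
  have hcomp : ∀ i, ((g i).symm.trans (hh i)) '' G i = (hh i) '' (c i • F) := by
    intro i
    rw [hG i, image_image]
    apply image_congr
    intro z _
    simp
  refine ⟨fun i => (g i).symm.trans (hh i), ?_, ?_⟩
  · intro i
    rw [hcomp i]
    fin_cases i
    · exact hAQ
    · exact hBQ
  · intro i j hij
    simp only [hcomp]
    apply SepSets.disjoint
    fin_cases i <;> fin_cases j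
    · exact absurd rfl hij
    · exact hsep
    · exact hsep.symm
    · exact absurd rfl hij

private lemma pair_refl (F : Set ℂ) (s : ℝ) : (IsometryEquiv.refl ℂ) '' (s • F) = s • F := image_id _

private lemma pair_area {F : Set ℂ} (s : ℝ) : area (s • F) = s ^ 2 * area F := by
  have := area_clone (IsometryEquiv.refl ℂ) (c := s) F
  rwa [pair_refl] at this

/-- two clones of total area `1` fit in a clone of area `2` -/
theorem pair_two {F : Set ℂ} (hF : IsConvexFigure F) : PairAdmissible F 2 := by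
  have hAF := area_pos hF
  intro G hG hsum
  choose c g hc hg using hG
  set s := Real.sqrt (2 / area F) with hs
  have hs0 : 0 < s := Real.sqrt_pos.mpr (by positivity)
  have hs2 : s ^ 2 = 2 / area F := Real.sq_sqrt (by positivity)
  rw [Fin.sum_univ_two, hg 0, hg 1, area_clone, area_clone] at hsum
  have hN : s ^ 2 = 2 * (c 0 ^ 2 + c 1 ^ 2) := by
    rw [hs2, div_eq_iff hAF.ne']
    linarith
  have hle : c 0 + c 1 ≤ s := by
    apply le_of_sq_le_sq _ hs0.le
    rw [hN]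
    nlinarith [sq_nonneg (c 0 - c 1)]
  obtain ⟨A, B, hA, hB, hAQ, hBQ, hsep⟩ := pair_place hF (hc 0) (hc 1) hle
  refine ⟨s • F, ⟨s, IsometryEquiv.refl ℂ, hs0, (pair_refl F s).symm⟩, ?_,
    pair_canPack hg hA hB hAQ hBQ hsep⟩
  rw [pair_area, hs2]
  field_simp

private lemma pair_iso_interior (k : ℂ ≃ᵢ ℂ) (A : Set ℂ) :
    interior (k '' A) = k '' interior A := by
  have a1 := (k.toHomeomorph).image_interior A
  simp only [IsometryEquiv.coe_toHomeomorph] at a1
  exact a1.symm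

/-- an admissible number for pairs below `2` gives two copies of scale `> 1/2` -/
private lemma pair_two_of_adm {F : Set ℂ} (hF : IsConvexFigure F) {σ : ℝ} (hσ : σ < 2)
    (h : PairAdmissible F σ) : Two F := by
  have hAF := area_pos hF
  set c := Real.sqrt (1 / (2 * area F)) with hcd
  have hc : 0 < c := Real.sqrt_pos.mpr (by positivity)
  have hc2 : c ^ 2 = 1 / (2 * area F) := Real.sq_sqrt (by positivity)
  have hrefl : (IsometryEquiv.refl ℂ) '' (c • F) = c • F := image_id _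
  have harea : area (c • F) = 1 / 2 := by
    have := area_clone (IsometryEquiv.refl ℂ) (c := c) F
    rw [hrefl] at this
    rw [this, hc2]
    field_simp
  obtain ⟨Q, ⟨s, g, hs, rfl⟩, hQ, hpack⟩ := h (fun _ => c • F)
    (fun _ => ⟨c, IsometryEquiv.refl ℂ, hc, hrefl.symm⟩) (by simp [harea])
  obtain ⟨h, hin, hdis⟩ := hpack
  rw [area_clone] at hQ
  have hlt : s < 2 * c := by
    have h6 : (2 * c) ^ 2 * area F = 2 := by
      rw [mul_pow, hc2]
      field_simp
    have h7 : s ^ 2 * area F < (2 * c) ^ 2 * area F := by rw [h6, hQ]; exact hσ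
    have h8 : s ^ 2 < (2 * c) ^ 2 := lt_of_mul_lt_mul_right h7 hAF.le
    exact lt_of_pow_lt_pow_left₀ 2 (by positivity) h8
  have hsi : s⁻¹ ≠ 0 := inv_ne_zero hs.ne'
  set k : Fin 2 → (ℂ ≃ᵢ ℂ) := fun i => scaleIso s⁻¹ hsi ((h i).trans g.symm) with hk
  have hk_apply : ∀ i z, k i z = s⁻¹ • g.symm (h i (s • z)) := by
    intro i z
    have e := scaleIso_apply s⁻¹ hsi ((h i).trans g.symm) z
    rw [inv_inv] at e
    exact e
  have himg : ∀ i, k i '' ((c / s) • F) = s⁻¹ • (g.symm '' (h i '' (c • F))) := by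
    intro i
    ext z
    constructor
    · rintro ⟨_, ⟨f, hf, rfl⟩, rfl⟩
      refine ⟨g.symm (h i (c • f)), ⟨_, ⟨_, ⟨f, hf, rfl⟩, rfl⟩, rfl⟩, ?_⟩
      change s⁻¹ • g.symm (h i (c • f)) = k i ((c / s) • f)
      rw [hk_apply, smul_smul, mul_div_cancel₀ c hs.ne']
    · rintro ⟨_, ⟨_, ⟨_, ⟨f, hf, rfl⟩, rfl⟩, rfl⟩, rfl⟩
      refine ⟨(c / s) • f, ⟨f, hf, rfl⟩, ?_⟩
      change k i ((c / s) • f) = s⁻¹ • g.symm (h i (c • f))
      rw [hk_apply, smul_smul, mul_div_cancel₀ c hs.ne']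
  have hsub : ∀ i, k i '' ((c / s) • F) ⊆ F := by
    intro i
    rw [himg]
    rintro _ ⟨_, ⟨z, hz, rfl⟩, rfl⟩
    obtain ⟨_, ⟨f, hf, rfl⟩, hw⟩ := hin i hz
    change s⁻¹ • g.symm z ∈ F
    rw [← hw, IsometryEquiv.symm_apply_apply]
    change s⁻¹ • (s • f) ∈ F
    rw [smul_smul, inv_mul_cancel₀ hs.ne', one_smul]
    exact hf
  have hcs : 0 < c / s := div_pos hc hs
  have hint : ∀ i, (interior (k i '' ((c / s) • F))).Nonempty := by
    intro i
    rw [pair_iso_interior, interior_smul₀ hcs.ne']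
    exact (hF.2.2.smul_set (a := c / s)).image _
  have hconv : ∀ i, Convex ℝ (k i '' ((c / s) • F)) := by
    intro i
    have hcopy : IsCopy F (c / s) (k i '' ((c / s) • F)) := ⟨k i, rfl⟩
    exact hcopy.convex hF.2.1
  have hdis' : Disjoint (interior (k 0 '' ((c / s) • F))) (interior (k 1 '' ((c / s) • F))) := by
    have h01 := hdis 0 1 (by decide)
    have h02 := (Set.disjoint_image_iff g.symm.injective).mpr h01
    have e : ∀ i, interior (k i '' ((c / s) • F)) = s⁻¹ • (g.symm '' interior (h i '' (c • F))) := by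
      intro i
      rw [himg, interior_smul₀ hsi, pair_iso_interior g.symm]
    rw [e, e]
    exact (Set.disjoint_image_iff (smul_right_injective ℂ hsi)).mpr h02
  have hsep := sep_of_disjoint (hconv 0) (hconv 1) (hint 0) (hint 1) hdis'
  refine ⟨c / s, k 0 '' ((c / s) • F), k 1 '' ((c / s) • F), ?_, ⟨k 0, rfl⟩, ⟨k 1, rfl⟩,
    hsub 0, hsub 1, hsep⟩
  rw [lt_div_iff₀ hs]
  linarith

/-- two copies of scale above `1/2` give an admissible number for pairs below `2` -/
private lemma pair_adm_of_two {F : Set ℂ} (hF : IsConvexFigure F) (h : Two F) :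
    ∃ σ : ℝ, σ < 2 ∧ PairAdmissible F σ := by
  have hAF := area_pos hF
  obtain ⟨l, A, B, hl, hA, hB, hAF', hBF', hsep⟩ := h
  have hl0 : 0 < l := by linarith
  -- the choice of `S`
  obtain ⟨S, hS1, hS2, hS3, hS4⟩ : ∃ S : ℝ, 1 < S ∧ S < 2 ∧ 1 / 2 ≤ l ^ 2 * S ∧
      0 ≤ (S - 1) ^ 2 - 4 * (l ^ 2 * S) * (1 - l ^ 2 * S) := by
    have h1 : Continuous fun S : ℝ => l ^ 2 * S := by fun_prop
    have h2 : Continuous fun S : ℝ => (S - 1) ^ 2 - 4 * (l ^ 2 * S) * (1 - l ^ 2 * S) := by fun_prop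
    have hll : 1 / 4 < l ^ 2 := by nlinarith
    have h3 : (1 / 2 : ℝ) < l ^ 2 * 2 := by linarith
    have h4 : (0 : ℝ) < (2 - 1) ^ 2 - 4 * (l ^ 2 * 2) * (1 - l ^ 2 * 2) := by
      nlinarith [sq_nonneg (4 * l ^ 2 - 1)]
    have e1 := (h1.continuousAt.eventually (lt_mem_nhds h3)).filter_mono
      (nhdsWithin_le_nhds (s := Iio (2 : ℝ)))
    have e2 := (h2.continuousAt.eventually (lt_mem_nhds h4)).filter_mono
      (nhdsWithin_le_nhds (s := Iio (2 : ℝ)))
    have e3 : ∀ᶠ S in nhdsWithin (2 : ℝ) (Iio 2), S ∈ Ioo (1 : ℝ) 2 := Ioo_mem_nhdsLT (by norm_num)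
    obtain ⟨S, a1, a2, a3⟩ := (e1.and (e2.and e3)).exists
    exact ⟨S, a3.1, a3.2, a1.le, a2.le⟩
  refine ⟨S, hS2, ?_⟩
  intro G hG hsum
  choose c g hc hg using hG
  set s := Real.sqrt (S / area F) with hs
  have hs0 : 0 < s := Real.sqrt_pos.mpr (by positivity)
  have hs2 : s ^ 2 = S / area F := Real.sq_sqrt (by positivity)
  rw [Fin.sum_univ_two, hg 0, hg 1, area_clone, area_clone] at hsum
  set N := c 0 ^ 2 + c 1 ^ 2 with hN
  have hNA : N * area F = 1 := by rw [hN]; linarith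
  have hN0 : 0 < N := by
    have h0 := hc 0
    positivity
  have hsN : s ^ 2 = S * N := by
    rw [hs2, div_eq_iff hAF.ne', mul_assoc, hNA, mul_one]
  -- if one scale is larger than `l s` the sum is at most `s`
  have big : ∀ x y : ℝ, 0 < x → 0 < y → x ^ 2 + y ^ 2 = N → l * s < x → x + y ≤ s := by
    intro x y hx hy hxy hxl
    apply le_of_sq_le_sq _ hs0.le
    have h1 : l ^ 2 * S * N ≤ x ^ 2 := by
      have : (l * s) ^ 2 ≤ x ^ 2 := pow_le_pow_left₀ (by positivity) hxl.le 2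
      rw [mul_pow, hsN] at this
      linarith
    have h2 : x ^ 2 * (N - x ^ 2) ≤ l ^ 2 * S * N * (N - l ^ 2 * S * N) := by
      have h3 : 0 ≤ (x ^ 2 - l ^ 2 * S * N) * (x ^ 2 + l ^ 2 * S * N - N) := by
        apply mul_nonneg (by linarith)
        nlinarith
      nlinarith
    have h4 : (2 * (x * y)) ^ 2 ≤ (N * (S - 1)) ^ 2 := by
      have h5 : y ^ 2 = N - x ^ 2 := by linarith
      have h6 : (2 * (x * y)) ^ 2 = 4 * (x ^ 2 * (N - x ^ 2)) := by rw [← h5]; ring
      have h7 : 0 ≤ N ^ 2 * ((S - 1) ^ 2 - 4 * (l ^ 2 * S) * (1 - l ^ 2 * S)) :=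
        mul_nonneg (sq_nonneg _) hS4
      rw [h6]
      nlinarith
    have h8 : 2 * (x * y) ≤ N * (S - 1) :=
      le_of_sq_le_sq h4 (mul_nonneg hN0.le (by linarith))
    rw [hsN]
    nlinarith
  have main : ∃ A' B' : Set ℂ, IsCopy F (c 0) A' ∧ IsCopy F (c 1) B' ∧ A' ⊆ s • F ∧ B' ⊆ s • F ∧
      SepSets A' B' := by
    by_cases h0 : l * s < c 0
    · exact pair_place hF (hc 0) (hc 1) (big _ _ (hc 0) (hc 1) rfl h0)
    by_cases h1 : l * s < c 1
    · exact pair_place hF (hc 0) (hc 1)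
        (by have := big _ _ (hc 1) (hc 0) (by rw [hN]; ring) h1; linarith)
    push Not at h0 h1
    obtain ⟨A', a1, a2⟩ := pair_shrink hF (hc 0) hl0 hs0 h0 hA
    obtain ⟨B', b1, b2⟩ := pair_shrink hF (hc 1) hl0 hs0 h1 hB
    exact ⟨A', B', a1, b1, a2.trans (smul_set_mono hAF'), b2.trans (smul_set_mono hBF'),
      (pair_sep_smul hsep hs0).mono a2 b2⟩
  obtain ⟨A', B', a1, b1, a2, b2, hsep'⟩ := main
  refine ⟨s • F, ⟨s, IsometryEquiv.refl ℂ, hs0, (pair_refl F s).symm⟩, ?_,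
    pair_canPack hg a1 b1 a2 b2 hsep'⟩
  rw [pair_area, hs2]
  field_simp

/-- the least admissible number for pairs is `2` iff no two copies of scale above `1/2` fit in `F` -/
theorem pair_least_iff {F : Set ℂ} (hF : IsConvexFigure F) :
    IsLeast {S : ℝ | PairAdmissible F S} 2 ↔ ¬ Two F := by
  constructor
  · rintro ⟨-, hl⟩ h
    obtain ⟨σ, h1, h2⟩ := pair_adm_of_two hF h
    have := hl h2
    linarith
  · intro hn
    refine ⟨pair_two hF, fun σ hσ => ?_⟩
    by_contra hc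
    push Not at hc
    exact hn (pair_two_of_adm hF hc hσ)

end Pool.Agent.H45.TC
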