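import Pool.Agent.H45.TC.Defs
import Pool.Agent.H84.Sq.Base

set_option autoImplicit false

/-!
# Regular polygons: two congruent copies of ratio larger than `1 / 2` do not fit
-/

namespace Pool.Agent.H45.TC

open Pool.Agent.H90.Clone Pool.Agent.H21.Tri Pool.Agent.H50.CP Complex Set Pointwise

/-- the component of `x` in the direction of angle `t` -/
private noncomputable def RegX_G (x : ℂ) (t : ℝ) : ℝ := x.re * Real.cos t + x.im * Real.sin t

private lemma RegX_G_eq (x : ℂ) (t : ℝ) : RegX_G x t = ip x (Complex.exp (t * I)) := by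
  rw [RegX_G, ip, Complex.exp_ofReal_mul_I_re, Complex.exp_ofReal_mul_I_im]

private lemma RegX_G_add (x y : ℂ) (t : ℝ) : RegX_G (x + y) t = RegX_G x t + RegX_G y t := by
  simp only [RegX_G, add_re, add_im]
  ring

private lemma RegX_G_sub (x y : ℂ) (t : ℝ) : RegX_G (x - y) t = RegX_G x t - RegX_G y t := by
  simp only [RegX_G, sub_re, sub_im]
  ring

private lemma RegX_G_exp (r a t : ℝ) :
    RegX_G ((r : ℂ) * Complex.exp (a * I)) t = r * Real.cos (a - t) := by
  have h1 : ((r : ℂ) * Complex.exp (a * I)).re = r * Real.cos a := by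
    rw [Complex.re_ofReal_mul, Complex.exp_ofReal_mul_I_re]
  have h2 : ((r : ℂ) * Complex.exp (a * I)).im = r * Real.sin a := by
    rw [Complex.im_ofReal_mul, Complex.exp_ofReal_mul_I_im]
  rw [RegX_G, h1, h2, Real.cos_sub]
  ring

private lemma RegX_G_pi (x : ℂ) (t : ℝ) : RegX_G x (t + Real.pi) = - RegX_G x t := by
  simp only [RegX_G, Real.cos_add_pi, Real.sin_add_pi]
  ring

private lemma RegX_G_comb (x : ℂ) (a c δ : ℝ) :
    Real.sin (2 * a) * RegX_G x (c + δ) =
      Real.sin (a - δ) * RegX_G x (c - a) + Real.sin (a + δ) * RegX_G x (c + a) := by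
  simp only [RegX_G, Real.sin_two_mul, Real.sin_sub, Real.sin_add, Real.cos_sub, Real.cos_add]
  ring

private lemma RegX_polar (w : ℂ) : w = (‖w‖ : ℂ) * Complex.exp (arg w * I) :=
  (Complex.norm_mul_exp_arg_mul_I w).symm

/-- the nearest multiple of `2 π / n` -/
private lemma RegX_near (n : ℕ) (hn : 0 < n) (x : ℝ) :
    ∃ (k : ℤ) (δ : ℝ), |δ| ≤ Real.pi / n ∧ x = 2 * k * (Real.pi / n) + δ := by
  have hn' : (0 : ℝ) < n := Nat.cast_pos.mpr hn
  have hpi := Real.pi_pos
  refine ⟨round (x / (2 * (Real.pi / n))), x - 2 * round (x / (2 * (Real.pi / n))) * (Real.pi / n),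
    ?_, by ring⟩
  have h1 := abs_sub_round (x / (2 * (Real.pi / n)))
  have h2 : x - 2 * round (x / (2 * (Real.pi / n))) * (Real.pi / n) =
      (2 * (Real.pi / n)) * (x / (2 * (Real.pi / n)) - round (x / (2 * (Real.pi / n)))) := by
    field_simp
  rw [h2, abs_mul, abs_of_pos (by positivity)]
  have h3 : 0 < 2 * (Real.pi / n) := by positivity
  nlinarith

private lemma RegX_cos_odd (n : ℕ) (hn : 0 < n) (m : ℤ) :
    Real.cos ((2 * m + 1) * (Real.pi / n)) ≤ Real.cos (Real.pi / n) := by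
  have hn' : (0 : ℝ) < n := Nat.cast_pos.mpr hn
  have hpi := Real.pi_pos
  set x : ℝ := (2 * m + 1) * (Real.pi / n) with hx
  set k : ℤ := round (x / (2 * Real.pi)) with hk
  have h1 := abs_sub_round (x / (2 * Real.pi))
  rw [← hk] at h1
  have e1 : x - k * (2 * Real.pi) = (2 * Real.pi) * (x / (2 * Real.pi) - k) := by
    field_simp
  have h2 : |x - k * (2 * Real.pi)| ≤ Real.pi := by
    rw [e1, abs_mul, abs_of_pos (by positivity)]
    nlinarith
  have e2 : x - k * (2 * Real.pi) = ((2 * m + 1 - 2 * n * k : ℤ) : ℝ) * (Real.pi / n) := by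
    rw [hx]
    push_cast
    field_simp
  have h3 : Real.pi / n ≤ |x - k * (2 * Real.pi)| := by
    rw [e2, abs_mul, abs_of_pos (by positivity : 0 < Real.pi / n)]
    have h4 : (1 : ℤ) ≤ |2 * m + 1 - 2 * n * k| := by
      apply Int.one_le_abs
      intro h5
      obtain ⟨q, hq⟩ : ∃ q : ℤ, q = n * k := ⟨_, rfl⟩
      have h6 : 2 * (m - q) + 1 = 0 := by
        rw [hq]
        linarith
      omega
    have h5 : (1 : ℝ) ≤ |((2 * m + 1 - 2 * n * k : ℤ) : ℝ)| := by
      rw [← Int.cast_abs]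
      exact_mod_cast h4
    have h6 : 0 < Real.pi / n := by positivity
    nlinarith
  have h4 : Real.cos x = Real.cos |x - k * (2 * Real.pi)| := by
    rw [Real.cos_abs, Real.cos_sub_int_mul_two_pi]
  rw [h4]
  exact Real.cos_le_cos_of_nonneg_of_le_pi (by positivity) h2 h3

private lemma RegX_vert (n : ℕ) (hn : 0 < n) (w : ℂ) (k : ℤ) :
    w * Complex.exp (2 * Real.pi * I * (k / n : ℂ)) =
      (‖w‖ : ℂ) * Complex.exp (((arg w + 2 * k * (Real.pi / n) : ℝ) : ℂ) * I) := by
  conv_lhs => rw [RegX_polar w]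
  rw [mul_assoc, ← Complex.exp_add]
  congr 2
  push_cast
  have hn' : (n : ℂ) ≠ 0 := by exact_mod_cast hn.ne'
  field_simp

private lemma RegX_mem (n : ℕ) (z w : ℂ) (k : ℤ) :
    z + w * Complex.exp (2 * Real.pi * I * (k / n : ℂ)) ∈ RegPoly n z w :=
  subset_convexHull ℝ _ ⟨k, rfl⟩

/-- the half planes of the sides -/
private lemma RegX_half (n : ℕ) (hn : 0 < n) (z w : ℂ) {x : ℂ} (hx : x ∈ RegPoly n z w) (j : ℤ) :
    RegX_G (x - z) (arg w + (2 * j + 1) * (Real.pi / n)) ≤ ‖w‖ * Real.cos (Real.pi / n) := by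
  set u : ℂ := Complex.exp (((arg w + (2 * j + 1) * (Real.pi / n) : ℝ) : ℂ) * I) with hu
  have h1 : RegPoly n z w ⊆ {x | Pool.Agent.H84.Sq.ipL u x ≤ ‖w‖ * Real.cos (Real.pi / n) + ip z u} := by
    apply convexHull_min
    · rintro _ ⟨k, rfl⟩
      simp only [mem_ofPred_eq, Pool.Agent.H84.Sq.ipL_apply]
      rw [ip_add_left, RegX_vert n hn, hu, ← RegX_G_eq, ← RegX_G_eq, RegX_G_exp]
      have h2 := RegX_cos_odd n hn (j - k)
      have h3 : Real.cos (arg w + 2 * k * (Real.pi / n) - (arg w + (2 * j + 1) * (Real.pi / n))) =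
          Real.cos ((2 * ((j - k : ℤ) : ℝ) + 1) * (Real.pi / n)) := by
        rw [← Real.cos_neg]
        congr 1
        push_cast
        ring
      rw [h3]
      have := mul_le_mul_of_nonneg_left h2 (norm_nonneg w)
      linarith
    · exact convex_halfSpace_le (Pool.Agent.H84.Sq.ipL u).isLinear _
  have h2 := h1 hx
  simp only [mem_ofPred_eq, Pool.Agent.H84.Sq.ipL_apply] at h2
  rw [RegX_G_eq, ip_sub_left]
  linarith

/-- a copy is a regular polygon with some centre, turned by at most `π / n` -/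
private lemma RegX_copy (n : ℕ) (hn : 0 < n) (z w : ℂ) {l : ℝ} {A : Set ℂ}
    (h : IsCopy (RegPoly n z w) l A) :
    ∃ (z' : ℂ) (τ : ℝ), |τ| ≤ Real.pi / n ∧ ∀ k : ℤ,
      z' + ((l * ‖w‖ : ℝ) : ℂ) * Complex.exp (((arg w + τ + 2 * k * (Real.pi / n) : ℝ) : ℂ) * I) ∈ A := by
  obtain ⟨g, rfl⟩ := h
  -- it is enough to find some angle
  suffices h : ∃ (z' : ℂ) (φ : ℝ), ∀ k : ℤ, z' + ((l * ‖w‖ : ℝ) : ℂ) *
      Complex.exp (((φ + 2 * k * (Real.pi / n) : ℝ) : ℂ) * I) ∈ g '' (l • RegPoly n z w) by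
    obtain ⟨z', φ, h⟩ := h
    obtain ⟨m, τ, hτ, hm⟩ := RegX_near n hn (φ - arg w)
    refine ⟨z', τ, hτ, fun k => ?_⟩
    have h1 := h (k - m)
    have h2 : arg w + τ + 2 * k * (Real.pi / n) = φ + 2 * ((k - m : ℤ) : ℝ) * (Real.pi / n) := by
      push_cast
      linarith
    rw [h2]
    exact h1
  set L : ℂ ≃ₗᵢ[ℝ] ℂ := g.toRealLinearIsometryEquiv with hL
  have hg : ∀ z, g z = L z + g 0 := by
    intro z
    have := g.toRealLinearIsometryEquiv_apply z
    rw [hL, this]
    ring
  have hmem : ∀ k : ℤ, L (l • (z + w * Complex.exp (2 * Real.pi * I * (k / n : ℂ)))) + g 0 ∈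
      g '' (l • RegPoly n z w) := by
    intro k
    rw [← hg]
    exact ⟨_, smul_mem_smul_set (RegX_mem n z w k), rfl⟩
  obtain ⟨a, ha | ha⟩ := linear_isometry_complex L
  · have ha1 : ‖(a : ℂ)‖ = 1 := a.norm_coe
    have hLz : ∀ z, L z = a * z := by
      intro z
      rw [ha, rotation_apply]
    refine ⟨a * (l * z) + g 0, arg (a * w), fun k => ?_⟩
    have h1 := hmem k
    rw [hLz, real_smul] at h1
    have h2 := RegX_vert n hn (a * w) k
    rw [norm_mul, ha1, one_mul] at h2
    have h3 : (a : ℂ) * (l * (z + w * Complex.exp (2 * Real.pi * I * (k / n : ℂ)))) + g 0 =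
        (a * (l * z) + g 0) + l * (a * w * Complex.exp (2 * Real.pi * I * (k / n : ℂ))) := by ring
    rw [h3, h2] at h1
    have h4 : ((l * ‖w‖ : ℝ) : ℂ) = (l : ℂ) * (‖w‖ : ℂ) := by push_cast; ring
    rw [h4, mul_assoc]
    exact h1
  · have ha1 : ‖(a : ℂ)‖ = 1 := a.norm_coe
    have hLz : ∀ z, L z = a * starRingEnd ℂ z := by
      intro z
      rw [ha, LinearIsometryEquiv.trans_apply, conjLIE_apply, rotation_apply]
    refine ⟨a * (l * starRingEnd ℂ z) + g 0, arg (a * starRingEnd ℂ w), fun k => ?_⟩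
    have h1 := hmem (-k)
    rw [hLz, real_smul] at h1
    have h2 := RegX_vert n hn (a * starRingEnd ℂ w) k
    rw [norm_mul, ha1, one_mul, RCLike.norm_conj] at h2
    have h5 : starRingEnd ℂ (Complex.exp (2 * Real.pi * I * (((-k : ℤ) : ℂ) / n : ℂ))) =
        Complex.exp (2 * Real.pi * I * (k / n : ℂ)) := by
      rw [← Complex.exp_conj]
      congr 1
      simp only [map_mul, map_div₀, conj_ofReal, conj_I, map_ofNat, map_intCast, map_natCast]
      push_cast
      ring
    have h3 : (a : ℂ) * starRingEnd ℂ (l * (z + w * Complex.exp (2 * Real.pi * I * (((-k : ℤ) : ℂ) / n : ℂ)))) + g 0 =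
        (a * (l * starRingEnd ℂ z) + g 0) + l * (a * starRingEnd ℂ w * Complex.exp (2 * Real.pi * I * (k / n : ℂ))) := by
      rw [map_mul, map_add, map_mul, h5, conj_ofReal]
      ring
    rw [h3, h2] at h1
    have h4 : ((l * ‖w‖ : ℝ) : ℂ) = (l : ℂ) * (‖w‖ : ℂ) := by push_cast; ring
    rw [h4, mul_assoc]
    exact h1

/-- the centre of a copy -/
private lemma RegX_centre (n : ℕ) (hn : 3 ≤ n) (z w : ℂ) {l τ : ℝ} {z' : ℂ}
    (hτ : |τ| ≤ Real.pi / n) (h : ∀ k : ℤ, z' + ((l * ‖w‖ : ℝ) : ℂ) *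
      Complex.exp (((arg w + τ + 2 * k * (Real.pi / n) : ℝ) : ℂ) * I) ∈ RegPoly n z w)
    (k : ℤ) {δ : ℝ} (hδ : |δ| ≤ Real.pi / n) :
    Real.cos (Real.pi / n) * RegX_G (z' - z) (arg w + 2 * k * (Real.pi / n) + δ) ≤
      ‖w‖ * (Real.cos (Real.pi / n) - l * Real.cos (Real.pi / n - |τ|)) * Real.cos δ := by
  have hn0 : 0 < n := by omega
  have hn' : (3 : ℝ) ≤ n := by exact_mod_cast hn
  have hpi := Real.pi_pos
  set a : ℝ := Real.pi / n with ha
  have ha0 : 0 < a := by positivity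
  have ha3 : a ≤ Real.pi / 3 := by
    rw [ha]
    gcongr
  -- the sides
  have h1 : ∀ j : ℤ, RegX_G (z' - z) (arg w + (2 * j + 1) * a) ≤
      ‖w‖ * (Real.cos a - l * Real.cos (a - |τ|)) := by
    intro j
    obtain ⟨i, hi⟩ : ∃ i : ℤ, |arg w + τ + 2 * i * a - (arg w + (2 * j + 1) * a)| = a - |τ| := by
      rcases le_total 0 τ with h0 | h0
      · refine ⟨j, ?_⟩
        rw [abs_of_nonneg h0] at hτ ⊢
        rw [show arg w + τ + 2 * j * a - (arg w + (2 * j + 1) * a) = -(a - τ) by ring, abs_neg,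
          abs_of_nonneg (by linarith)]
      · refine ⟨j + 1, ?_⟩
        rw [abs_of_nonpos h0] at hτ ⊢
        push_cast
        rw [show arg w + τ + 2 * (j + 1) * a - (arg w + (2 * j + 1) * a) = a + τ by ring,
          abs_of_nonneg (by linarith)]
        ring
    have h2 := RegX_half n hn0 z w (h i) j
    rw [← ha, add_sub_right_comm, RegX_G_add, RegX_G_exp, ← Real.cos_abs, hi] at h2
    nlinarith
  have hs : Real.sin (2 * a) = 2 * Real.sin a * Real.cos a := Real.sin_two_mul a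
  have hsa : 0 < Real.sin a := Real.sin_pos_of_pos_of_lt_pi ha0 (by linarith)
  have hca : 0 < Real.cos a := Real.cos_pos_of_mem_Ioo ⟨by linarith, by linarith⟩
  obtain ⟨hd1, hd2⟩ := abs_le.1 hδ
  have p1 : 0 ≤ Real.sin (a - δ) := Real.sin_nonneg_of_nonneg_of_le_pi (by linarith) (by linarith)
  have p2 : 0 ≤ Real.sin (a + δ) := Real.sin_nonneg_of_nonneg_of_le_pi (by linarith) (by linarith)
  have e := RegX_G_comb (z' - z) a (arg w + 2 * k * a) δ
  have i1 := h1 (k - 1)
  have i2 := h1 k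
  rw [show arg w + (2 * ((k - 1 : ℤ) : ℝ) + 1) * a = arg w + 2 * k * a - a by push_cast; ring] at i1
  rw [show arg w + (2 * (k : ℝ) + 1) * a = arg w + 2 * k * a + a by ring] at i2
  have j1 := mul_le_mul_of_nonneg_left i1 p1
  have j2 := mul_le_mul_of_nonneg_left i2 p2
  have e2 : Real.sin (a - δ) + Real.sin (a + δ) = 2 * Real.sin a * Real.cos δ := by
    rw [Real.sin_sub, Real.sin_add]
    ring
  set M : ℝ := ‖w‖ * (Real.cos a - l * Real.cos (a - |τ|)) with hM
  have h3 : 2 * Real.sin a * (Real.cos a * RegX_G (z' - z) (arg w + 2 * k * a + δ)) ≤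
      2 * Real.sin a * (M * Real.cos δ) := by
    calc 2 * Real.sin a * (Real.cos a * RegX_G (z' - z) (arg w + 2 * k * a + δ)) =
        Real.sin (a - δ) * RegX_G (z' - z) (arg w + 2 * k * a - a) +
          Real.sin (a + δ) * RegX_G (z' - z) (arg w + 2 * k * a + a) := by rw [← e, hs]; ring
      _ ≤ Real.sin (a - δ) * M + Real.sin (a + δ) * M := add_le_add j1 j2
      _ = (Real.sin (a - δ) + Real.sin (a + δ)) * M := by ring
      _ = 2 * Real.sin a * (M * Real.cos δ) := by rw [e2]; ring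
  exact le_of_mul_le_mul_left h3 (by positivity)

/-- the trigonometric inequality -/
private lemma RegX_trig {a D T : ℝ} (ha : a ≤ Real.pi / 3) (hD : 0 ≤ D) (hDa : D ≤ a) (hT : 0 ≤ T)
    (hTa : T ≤ a) {x : ℝ} (h1 : D + T ≤ a → Real.cos (D + T) ≤ x) (h2 : Real.cos a ≤ x) :
    Real.cos D + Real.cos a - Real.cos (a - T) ≤ x := by
  have hpi := Real.pi_pos
  rcases le_total (D + T) a with h | h
  · have h3 := h1 h
    have e1 : Real.cos D - Real.cos (D + T) = 2 * Real.sin (T / 2) * Real.sin (D + T / 2) := by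
      have := Real.cos_sub_cos D (D + T)
      rw [this, show (D + (D + T)) / 2 = D + T / 2 by ring, show (D - (D + T)) / 2 = -(T / 2) by ring,
        Real.sin_neg]
      ring
    have e2 : Real.cos (a - T) - Real.cos a = 2 * Real.sin (T / 2) * Real.sin (a - T / 2) := by
      have := Real.cos_sub_cos (a - T) a
      rw [this, show (a - T + a) / 2 = a - T / 2 by ring, show (a - T - a) / 2 = -(T / 2) by ring,
        Real.sin_neg]
      ring
    have h4 : Real.sin (D + T / 2) ≤ Real.sin (a - T / 2) :=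
      Real.sin_le_sin_of_le_of_le_pi_div_two (by linarith) (by linarith) (by linarith)
    have h5 : 0 ≤ Real.sin (T / 2) := Real.sin_nonneg_of_nonneg_of_le_pi (by linarith) (by linarith)
    nlinarith [mul_le_mul_of_nonneg_left h4 h5]
  · have h3 : Real.cos D ≤ Real.cos (a - T) :=
      Real.cos_le_cos_of_nonneg_of_le_pi (by linarith) (by linarith) (by linarith)
    linarith

/-- how far a copy reaches in a direction -/
private lemma RegX_reach (n : ℕ) (hn : 3 ≤ n) (w : ℂ) {l τ : ℝ} (hl : 0 < l) {z' : ℂ} {A : Set ℂ}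
    (hτ : |τ| ≤ Real.pi / n) (h : ∀ k : ℤ, z' + ((l * ‖w‖ : ℝ) : ℂ) *
      Complex.exp (((arg w + τ + 2 * k * (Real.pi / n) : ℝ) : ℂ) * I) ∈ A)
    (k : ℤ) {δ : ℝ} (hδ : |δ| ≤ Real.pi / n) {t : ℝ}
    (ht : ∀ y ∈ A, RegX_G y (arg w + 2 * k * (Real.pi / n) + δ) ≤ t) :
    RegX_G z' (arg w + 2 * k * (Real.pi / n) + δ) + l * ‖w‖ * (Real.cos δ + Real.cos (Real.pi / n)
      - Real.cos (Real.pi / n - |τ|)) ≤ t := by
  have hn0 : 0 < n := by omega
  have hn' : (3 : ℝ) ≤ n := by exact_mod_cast hn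
  have hpi := Real.pi_pos
  set a : ℝ := Real.pi / n with ha
  have ha0 : 0 < a := by positivity
  have ha3 : a ≤ Real.pi / 3 := by
    rw [ha]
    gcongr
  rcases (norm_nonneg w).eq_or_lt with hw | hw
  · have h1 := ht _ (h 0)
    rw [RegX_G_add, RegX_G_exp, ← hw] at h1
    rw [← hw]
    linarith
  have hlw : 0 < l * ‖w‖ := by positivity
  have h1 : ∀ i : ℤ, Real.cos (τ + 2 * i * a - (2 * k * a + δ)) ≤
      (t - RegX_G z' (arg w + 2 * k * a + δ)) / (l * ‖w‖) := by
    intro i
    have h2 := ht _ (h i)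
    rw [RegX_G_add, RegX_G_exp, show arg w + τ + 2 * i * a - (arg w + 2 * k * a + δ) =
      τ + 2 * i * a - (2 * k * a + δ) by ring] at h2
    rw [le_div_iff₀ hlw]
    linarith
  have h2 : Real.cos |δ| + Real.cos a - Real.cos (a - |τ|) ≤
      (t - RegX_G z' (arg w + 2 * k * a + δ)) / (l * ‖w‖) := by
    refine RegX_trig ha3 (abs_nonneg δ) hδ (abs_nonneg τ) hτ (fun h3 => ?_) ?_
    · refine le_trans ?_ (h1 k)
      rw [← Real.cos_abs (τ + 2 * k * a - (2 * k * a + δ)),
        show τ + 2 * k * a - (2 * k * a + δ) = τ - δ by ring]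
      refine Real.cos_le_cos_of_nonneg_of_le_pi (abs_nonneg _) (by linarith) ?_
      have := abs_sub τ δ
      linarith
    · obtain ⟨i, ε, hε, hi⟩ := RegX_near n hn0 (2 * k * a + δ - τ)
      rw [← ha] at hε hi
      refine le_trans ?_ (h1 i)
      rw [show τ + 2 * i * a - (2 * k * a + δ) = -ε by linarith, Real.cos_neg, ← Real.cos_abs ε]
      exact Real.cos_le_cos_of_nonneg_of_le_pi (abs_nonneg _) (by linarith) hε
  rw [Real.cos_abs, le_div_iff₀ hlw] at h2
  linarith

theorem reg_not_two (n : ℕ) (hn : 3 ≤ n) (z w : ℂ) (hw : w ≠ 0) : ¬ Two (RegPoly n z w) := by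
  rintro ⟨l, A, B, hl, hA, hB, hAT, hBT, f, t, hf, h1, h2⟩
  have hn0 : 0 < n := by omega
  have hn' : (3 : ℝ) ≤ n := by exact_mod_cast hn
  have hpi := Real.pi_pos
  obtain ⟨z1, τ1, hτ1, hz1⟩ := RegX_copy n hn0 z w hA
  obtain ⟨z2, τ2, hτ2, hz2⟩ := RegX_copy n hn0 z w hB
  -- the direction of the separating line
  set N : ℂ := ⟨f 1, f I⟩ with hN
  have hfN : ∀ x, f x = ‖N‖ * RegX_G x (arg N) := by
    intro x
    have e1 : x = x.re • (1 : ℂ) + x.im • I := by
      apply Complex.ext <;> simp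
    have e2 : N.re = ‖N‖ * Real.cos (arg N) := (Complex.norm_mul_cos_arg N).symm
    have e3 : N.im = ‖N‖ * Real.sin (arg N) := (Complex.norm_mul_sin_arg N).symm
    have e4 : f x = x.re * N.re + x.im * N.im := by
      conv_lhs => rw [e1]
      rw [map_add, map_smul, map_smul]
      simp [hN]
    rw [e4, e2, e3, RegX_G]
    ring
  have hN0 : 0 < ‖N‖ := by
    rw [norm_pos_iff]
    intro h0
    apply hf
    ext x
    rw [hfN, h0]
    simp
  obtain ⟨k, δ, hδ, hk⟩ := RegX_near n hn0 (arg N - arg w)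
  obtain ⟨k', δ', hδ', hk'⟩ := RegX_near n hn0 (arg N + Real.pi - arg w)
  set a : ℝ := Real.pi / n with ha
  have ha0 : 0 < a := by positivity
  have ha3 : a ≤ Real.pi / 3 := by
    rw [ha]
    gcongr
  have eν : arg w + 2 * k * a + δ = arg N := by linarith
  have eν' : arg w + 2 * k' * a + δ' = arg N + Real.pi := by linarith
  have hca : 0 < Real.cos a := Real.cos_pos_of_mem_Ioo ⟨by linarith, by linarith⟩
  have c1 := RegX_centre n hn z w hτ1 (fun i => hAT (hz1 i)) k' hδ'
  have c2 := RegX_centre n hn z w hτ2 (fun i => hBT (hz2 i)) k hδ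
  have hl0 : 0 < l := by linarith
  have r1 := RegX_reach n hn w hl0 hτ1 hz1 k hδ (t := t / ‖N‖) (by
    intro y hy
    rw [← ha, eν, le_div_iff₀ hN0]
    have := h1 y hy
    rw [hfN] at this
    linarith)
  have r2 := RegX_reach n hn w hl0 hτ2 hz2 k' hδ' (t := -(t / ‖N‖)) (by
    intro y hy
    rw [← ha, eν', RegX_G_pi, neg_le_neg_iff, div_le_iff₀ hN0]
    have := h2 y hy
    rw [hfN] at this
    linarith)
  rw [← ha, eν', RegX_G_pi, RegX_G_sub] at c1
  rw [← ha, eν, RegX_G_sub] at c2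
  rw [← ha, eν] at r1
  rw [← ha, eν', RegX_G_pi] at r2
  have hw0 : 0 < ‖w‖ := norm_pos_iff.mpr hw
  have hcd : ∀ {d : ℝ}, |d| ≤ a → Real.cos a ≤ Real.cos d := by
    intro d hd
    rw [← Real.cos_abs d]
    exact Real.cos_le_cos_of_nonneg_of_le_pi (abs_nonneg _) (by linarith) hd
  have d1 := hcd hδ
  have d2 := hcd hδ'
  have hct : ∀ {s : ℝ}, |s| ≤ a → Real.cos a ≤ Real.cos (a - |s|) := by
    intro s hs
    exact Real.cos_le_cos_of_nonneg_of_le_pi (by linarith) (by linarith) (by linarith [abs_nonneg s])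
  have t1 := hct hτ1
  have t2 := hct hτ2
  set X : ℝ := Real.cos a
  set C1 : ℝ := Real.cos (a - |τ1|)
  set C2 : ℝ := Real.cos (a - |τ2|)
  set p : ℝ := Real.cos δ
  set q : ℝ := Real.cos δ'
  set g1 := RegX_G z1 (arg N)
  set g2 := RegX_G z2 (arg N)
  set g0 := RegX_G z (arg N)
  -- add everything up
  have s1 : l * ‖w‖ * (p + X - C1) + l * ‖w‖ * (q + X - C2) ≤ g2 - g1 := by linarith
  have s2 : X * (g2 - g1) ≤ ‖w‖ * (X - l * C1) * q + ‖w‖ * (X - l * C2) * p := by linarith
  have s3 := mul_le_mul_of_nonneg_left s1 hca.le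
  have s4 : ‖w‖ * (X * (l * (p + X - C1) + l * (q + X - C2))) ≤
      ‖w‖ * ((X - l * C1) * q + (X - l * C2) * p) := by linarith
  have s5 := le_of_mul_le_mul_left s4 hw0
  have s6 : 0 ≤ l * ((C1 - X) * (q - X)) := by
    have := mul_nonneg (sub_nonneg.2 t1) (sub_nonneg.2 d2)
    positivity
  have s7 : 0 ≤ l * ((C2 - X) * (p - X)) := by
    have := mul_nonneg (sub_nonneg.2 t2) (sub_nonneg.2 d1)
    positivity
  have s8 : 0 < (2 * l - 1) * (X * (p + q)) := by
    have : 0 < p + q := by linarith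
    have h3 : 0 < 2 * l - 1 := by linarith
    positivity
  nlinarith

theorem reg_fig (n : ℕ) (hn : 3 ≤ n) (z w : ℂ) (hw : w ≠ 0) : IsConvexFigure (RegPoly n z w) := by
  have hn0 : 0 < n := by omega
  have hn' : (3 : ℝ) ≤ n := by exact_mod_cast hn
  have hpi := Real.pi_pos
  refine ⟨?_, convex_convexHull ℝ _, ?_⟩
  · have hfin : (range fun k : ℤ => z + w * Complex.exp (2 * Real.pi * I * (k / n : ℂ))).Finite := by
      refine (Set.finite_range fun i : Fin n =>
        z + w * Complex.exp (2 * Real.pi * I * (((i : ℕ) : ℤ) / n : ℂ))).subset ?_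
      rintro _ ⟨k, rfl⟩
      have hn0' : (0 : ℤ) < n := by exact_mod_cast hn0
      have h1 := Int.emod_nonneg k hn0'.ne'
      have h2 := Int.emod_lt_of_pos k hn0'
      refine ⟨⟨(k % n).toNat, by omega⟩, ?_⟩
      have h3 : (((k % n).toNat : ℕ) : ℤ) = k % n := Int.toNat_of_nonneg h1
      simp only
      rw [h3]
      congr 2
      rw [Complex.exp_eq_exp_iff_exists_int]
      refine ⟨-(k / n), ?_⟩
      have h4 : (k : ℂ) = ((n : ℤ) : ℂ) * ((k / n : ℤ) : ℂ) + ((k % n : ℤ) : ℂ) := by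
        exact_mod_cast (Int.mul_ediv_add_emod k n).symm
      have h5 : (n : ℂ) ≠ 0 := by exact_mod_cast hn0.ne'
      rw [h4]
      push_cast
      field_simp
      ring
    exact hfin.isCompact_convexHull ℝ
  · set e : ℂ := Complex.exp (2 * Real.pi * I * (((1 : ℤ) : ℂ) / n : ℂ)) with he
    have he' : e = Complex.exp (((2 * (Real.pi / n) : ℝ) : ℂ) * I) := by
      rw [he]
      congr 1
      push_cast
      ring
    have him : e.im = Real.sin (2 * (Real.pi / n)) := by
      rw [he', Complex.exp_ofReal_mul_I_im]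
    have ha0 : 0 < Real.pi / n := by positivity
    have ha3 : Real.pi / n ≤ Real.pi / 3 := by gcongr
    have hsin : 0 < e.im := by
      rw [him]
      exact Real.sin_pos_of_pos_of_lt_pi (by linarith) (by linarith)
    have h0 := RegX_mem n z w 0
    have h1 := RegX_mem n z w 1
    have h2 := RegX_mem n z w 2
    have e0 : Complex.exp (2 * Real.pi * I * (((0 : ℤ) : ℂ) / n : ℂ)) = 1 := by simp
    have e2 : Complex.exp (2 * Real.pi * I * (((2 : ℤ) : ℂ) / n : ℂ)) = e * e := by
      rw [he, ← Complex.exp_add]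
      congr 1
      push_cast
      ring
    rw [e0, mul_one] at h0
    rw [← he] at h1
    rw [e2] at h2
    have hd : det (w * e - w) (w * (e * e) - w) ≠ 0 := by
      have h3 : det (w * e - w) (w * (e * e) - w) = Complex.normSq (w * e - w) * e.im := by
        have h4 : w * (e * e) - w = (w * e - w) * (e + 1) := by ring
        rw [h4, det, Complex.normSq_apply]
        simp only [mul_re, mul_im, add_re, add_im, one_re, one_im]
        ring
      rw [h3]
      have h5 : w * e - w ≠ 0 := by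
        intro h6
        have h7 : w * (e - 1) = 0 := by linear_combination h6
        rcases mul_eq_zero.1 h7 with h8 | h8
        · exact hw h8
        · have : e = 1 := sub_eq_zero.1 h8
          rw [this] at hsin
          simp at hsin
      exact mul_ne_zero (fun h => h5 (Complex.normSq_eq_zero.1 h)) hsin.ne'
    refine (Tri_fig' hd (z + w)).2.2.mono (interior_mono ?_)
    rintro _ ⟨x, y, hx, hy, hxy, rfl⟩
    have hc := convex_convexHull ℝ (range fun k : ℤ => z + w * Complex.exp (2 * Real.pi * I * (k / n : ℂ)))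
    rcases (add_nonneg hx hy).eq_or_lt with hs | hs
    · have hx0 : x = 0 := by linarith
      have hy0 : y = 0 := by linarith
      rw [hx0, hy0]
      simpa using h0
    · have m1 : (x / (x + y)) • (z + w * e) + (y / (x + y)) • (z + w * (e * e)) ∈ RegPoly n z w :=
        hc h1 h2 (by positivity) (by positivity) (by field_simp)
      have m2 := hc h0 m1 (show 0 ≤ 1 - (x + y) by linarith) hs.le (by ring)
      have hs' : ((x : ℂ) + y) ≠ 0 := by exact_mod_cast hs.ne'
      have m3 : z + w + (x : ℂ) * (w * e - w) + (y : ℂ) * (w * (e * e) - w) =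
          (1 - (x + y)) • (z + w) + (x + y) • ((x / (x + y)) • (z + w * e) +
            (y / (x + y)) • (z + w * (e * e))) := by
        simp only [real_smul]
        push_cast
        field_simp
        ring
      rw [m3]
      exact m2

end Pool.Agent.H45.TC
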