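import Pool.Agent.H45.TC.Kinds
import Pool.Agent.H45.TC.Cw
import Pool.Agent.H45.TC.CSFin
import Pool.Agent.H45.TC.Reg
import Pool.Agent.H45.TC.Pair

set_option autoImplicit false

/-!
# Packing two clones: assembly
-/

namespace Pool.Agent.H45.TC

open Pool.Agent.H90.Clone Pool.Agent.H21.Tri Pool.Agent.H50.CP Complex Set Pointwise

lemma pair_of_adm {F : Set ℂ} {S : ℝ} (h : Admissible F S) : PairAdmissible F S :=
  fun G h1 h2 => h 2 G h1 h2

lemma ball_fig (z : ℂ) {r : ℝ} (hr : 0 < r) : IsConvexFigure (Metric.closedBall z r) := by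
  refine ⟨isCompact_closedBall z r, convex_closedBall z r, ?_⟩
  exact ⟨z, Metric.ball_subset_interior_closedBall (Metric.mem_ball_self hr)⟩

lemma disc_cw (z : ℂ) {r : ℝ} (hr : 0 < r) : ConstantWidth (Metric.closedBall z r) := by
  refine ⟨2 * r, fun d hd => ?_⟩
  have h1 : ip d d = 1 := by
    have := ip_self_one hd
    simp only [ip]
    linarith
  have hle : ∀ x : ℂ, ‖x‖ ≤ r → |ip x d| ≤ r := by
    intro x hx
    have h2 : ip x d ^ 2 ≤ r ^ 2 := by
      have h3 : ip x d ^ 2 ≤ ‖x‖ ^ 2 := by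
        rw [Complex.sq_norm, Complex.normSq_apply]
        have := ip_self_one hd
        simp only [ip]
        nlinarith [sq_nonneg (x.re * d.im - x.im * d.re)]
      have h4 : ‖x‖ ^ 2 ≤ r ^ 2 := pow_le_pow_left₀ (norm_nonneg x) hx 2
      linarith
    exact abs_le_of_sq_le_sq h2 hr.le
  have hp : z + (r : ℂ) * d ∈ Metric.closedBall z r := by
    rw [mem_closedBall_iff_norm, add_sub_cancel_left, norm_mul, hd, mul_one, norm_real,
      Real.norm_eq_abs, abs_of_pos hr]
  have hq : z - (r : ℂ) * d ∈ Metric.closedBall z r := by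
    rw [mem_closedBall_iff_norm]
    have : z - (r : ℂ) * d - z = -((r : ℂ) * d) := by ring
    rw [this, norm_neg, norm_mul, hd, mul_one, norm_real, Real.norm_eq_abs, abs_of_pos hr]
  rw [width_eq hp hq]
  · rw [ip_add_left, ip_sub_left, ip_smul_left, h1]
    ring
  · intro x hx
    rw [mem_closedBall_iff_norm] at hx
    have h2 := (abs_le.1 (hle _ hx)).2
    rw [ip_sub_left] at h2
    rw [ip_add_left, ip_smul_left, h1]
    linarith
  · intro x hx
    rw [mem_closedBall_iff_norm] at hx
    have h2 := (abs_le.1 (hle _ hx)).1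
    rw [ip_sub_left] at h2
    rw [ip_sub_left, ip_smul_left, h1]
    linarith

lemma reg_translate (n : ℕ) (w c : ℂ) :
    (fun z => z + c) '' RegPoly n 0 w = RegPoly n c w := by
  have e : (fun z : ℂ => z + c) = (AffineMap.id ℝ ℂ + AffineMap.const ℝ ℂ c : ℂ →ᵃ[ℝ] ℂ) := by
    ext z
    simp
  unfold RegPoly
  rw [e, AffineMap.image_convexHull, ← range_comp]
  congr 2
  funext k
  simp only [Function.comp_apply, AffineMap.coe_add, AffineMap.coe_id, AffineMap.coe_const,
    Pi.add_apply, id_eq, Function.const_apply]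
  ring

theorem cs_iff {F : Set ℂ} (hF : IsConvexFigure F) (hc : CentrallySymmetric F) :
    ¬ Two F ↔ IsDisc F ∨ IsRegular F := by
  constructor
  · intro h2
    obtain ⟨c, hc⟩ := hc
    set K := (fun z => z + -c) '' F with hKd
    have hK : IsConvexFigure K := fig_translate hF (-c)
    have hs : CSym K := by
      rintro _ ⟨x, hx, rfl⟩
      exact ⟨2 * c - x, hc x hx, by simp only []; ring⟩
    have hK2 : ¬ Two K := by rwa [hKd, two_translate_iff]
    have hFK : F = (fun z => z + c) '' K := by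
      rw [hKd, image_image]
      simp
    rcases cs_class hK hs hK2 with ⟨ρ, hρ, h⟩ | ⟨m, w, hm, hw, h⟩
    · left
      refine ⟨c, ρ, hρ, ?_⟩
      rw [hFK, h]
      ext z
      constructor
      · rintro ⟨x, hx, rfl⟩
        rw [mem_closedBall_iff_norm] at *
        simpa using hx
      · intro hz
        refine ⟨z - c, ?_, by simp⟩
        rw [mem_closedBall_iff_norm] at *
        simpa using hz
    · right
      refine ⟨2 * m, c, w, by omega, hw, ?_⟩
      rw [hFK, h, reg_translate]
  · rintro (⟨z, r, hr, rfl⟩ | ⟨n, z, w, hn, hw, rfl⟩)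
    · exact cw_not_two (ball_fig z hr) (disc_cw z hr)
    · exact reg_not_two n hn z w hw

theorem main {F : Set ℂ} (hF : IsConvexFigure F) :
    PairAdmissible F 2 ∧
    (IsLeast {S : ℝ | PairAdmissible F S} 2 ↔ ¬ TwoFit F) ∧
    (IsRegular F ∨ ConstantWidth F →
      IsLeast {S : ℝ | PairAdmissible F S} 2 ∧ ∀ S : ℝ, Admissible F S → 2 ≤ S) ∧
    (NoCornerSegment F → (IsLeast {S : ℝ | PairAdmissible F S} 2 ↔ ConstantWidth F)) ∧
    (CentrallySymmetric F → (IsLeast {S : ℝ | PairAdmissible F S} 2 ↔ IsDisc F ∨ IsRegular F)) := by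
  refine ⟨pair_two hF, ?_, ?_, ?_, ?_⟩
  · rw [pair_least_iff hF, twoFit_iff hF]
  · intro h
    have h2 : ¬ Two F := by
      rcases h with ⟨n, z, w, hn, hw, rfl⟩ | h
      · exact reg_not_two n hn z w hw
      · exact cw_not_two hF h
    have h3 := (pair_least_iff hF).2 h2
    exact ⟨h3, fun S hS => h3.2 (pair_of_adm hS)⟩
  · intro h
    rw [pair_least_iff hF]
    exact ⟨cw_of_not_two hF h, cw_not_two hF⟩
  · intro h
    rw [pair_least_iff hF]
    exact cs_iff hF h

end Pool.Agent.H45.TC
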