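import Pool.Agent.H45.TC.Defs
import Pool.Agent.H50.CP.CornerFin

set_option autoImplicit false

/-!
# Isometries, support points and widths
-/

namespace Pool.Agent.H45.TC

open Pool.Agent.H90.Clone Pool.Agent.H21.Tri Pool.Agent.H50.CP Complex Set Pointwise

lemma iso_form (g : ℂ ≃ᵢ ℂ) : (∃ w b : ℂ, ‖w‖ = 1 ∧ ∀ z, g z = w * z + b) ∨
    (∃ w b : ℂ, ‖w‖ = 1 ∧ ∀ z, g z = w * (starRingEnd ℂ) z + b) := by
  set L := g.toRealLinearIsometryEquiv with hL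
  have hg : ∀ z, g z = L z + g 0 := by
    intro z
    have : L z = g z - g 0 := by
      rw [hL, IsometryEquiv.toRealLinearIsometryEquiv_apply]
    rw [this]
    ring
  obtain ⟨a, ha | ha⟩ := linear_isometry_complex L
  · refine Or.inl ⟨a, g 0, a.norm_coe, fun z => ?_⟩
    rw [hg z, ha, rotation_apply]
  · refine Or.inr ⟨a, g 0, a.norm_coe, fun z => ?_⟩
    rw [hg z, ha, LinearIsometryEquiv.trans_apply, conjLIE_apply, rotation_apply]

/-- an isometry turns directions into directions -/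
lemma iso_dir (g : ℂ ≃ᵢ ℂ) {d : ℂ} (hd : ‖d‖ = 1) :
    ∃ e : ℂ, ‖e‖ = 1 ∧ ∀ z : ℂ, ip (g z) d = ip z e + ip (g 0) d := by
  rcases iso_form g with ⟨w, b, hw, h⟩ | ⟨w, b, hw, h⟩
  · refine ⟨(starRingEnd ℂ) w * d, by rw [norm_mul, RCLike.norm_conj, hw, hd, one_mul],
      fun z => ?_⟩
    rw [h z, h 0, mul_zero, zero_add, ip_add_left]
    congr 1
    simp only [ip, mul_re, mul_im, conj_re, conj_im]
    ring
  · refine ⟨w * (starRingEnd ℂ) d, by rw [norm_mul, RCLike.norm_conj, hw, hd, one_mul],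
      fun z => ?_⟩
    rw [h z, h 0, map_zero, mul_zero, zero_add, ip_add_left, ip_refl]

lemma exists_top {F : Set ℂ} (hF : IsConvexFigure F) (d : ℂ) :
    ∃ p ∈ F, ∀ x ∈ F, ip x d ≤ ip p d := by
  have hne : F.Nonempty := hF.2.2.mono interior_subset
  have hc : Continuous fun x : ℂ => ip x d := by
    unfold ip
    fun_prop
  obtain ⟨p, hp, h⟩ := hF.1.exists_isMaxOn hne hc.continuousOn
  exact ⟨p, hp, fun x hx => h hx⟩

lemma exists_bot {F : Set ℂ} (hF : IsConvexFigure F) (d : ℂ) :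
    ∃ q ∈ F, ∀ x ∈ F, ip q d ≤ ip x d := by
  have hne : F.Nonempty := hF.2.2.mono interior_subset
  have hc : Continuous fun x : ℂ => ip x d := by
    unfold ip
    fun_prop
  obtain ⟨p, hp, h⟩ := hF.1.exists_isMinOn hne hc.continuousOn
  exact ⟨p, hp, fun x hx => h hx⟩

lemma width_eq {F : Set ℂ} {p q d : ℂ} (hp : p ∈ F) (hq : q ∈ F) (h1 : ∀ x ∈ F, ip x d ≤ ip p d)
    (h2 : ∀ x ∈ F, ip q d ≤ ip x d) : width F d = ip p d - ip q d := by
  have e1 : sSup ((fun x => ip x d) '' F) = ip p d := by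
    apply IsGreatest.csSup_eq
    exact ⟨⟨p, hp, rfl⟩, by rintro _ ⟨x, hx, rfl⟩; exact h1 x hx⟩
  have e2 : sInf ((fun x => ip x d) '' F) = ip q d := by
    apply IsLeast.csInf_eq
    exact ⟨⟨q, hq, rfl⟩, by rintro _ ⟨x, hx, rfl⟩; exact h2 x hx⟩
  rw [width, e1, e2]

lemma width_le {F : Set ℂ} (hF : IsConvexFigure F) {p q d : ℂ} (hp : p ∈ F) (hq : q ∈ F) :
    ip p d - ip q d ≤ width F d := by
  obtain ⟨p', hp', h1⟩ := exists_top hF d
  obtain ⟨q', hq', h2⟩ := exists_bot hF d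
  rw [width_eq hp' hq' h1 h2]
  linarith [h1 p hp, h2 q hq]

lemma width_pos {F : Set ℂ} (hF : IsConvexFigure F) {d : ℂ} (hd : ‖d‖ = 1) : 0 < width F d := by
  obtain ⟨z, hz⟩ := hF.2.2
  obtain ⟨r, hr, hball⟩ := Metric.isOpen_iff.1 isOpen_interior z hz
  have h1 : z + ((r / 2 : ℝ) : ℂ) * d ∈ F := by
    apply interior_subset
    apply hball
    rw [Metric.mem_ball, dist_eq_norm, add_sub_cancel_left, norm_mul, hd, mul_one, norm_real,
      Real.norm_eq_abs, abs_of_pos (by positivity)]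
    linarith
  have h2 := width_le hF h1 (interior_subset hz) (d := d)
  have h3 : ip d d = 1 := by
    have := ip_self_one hd
    simp only [ip]
    linarith
  rw [ip_add_left, ip_smul_left, h3] at h2
  linarith

/-- `SepSets` by a unit direction -/
lemma sep_unit {A B : Set ℂ} (h : SepSets A B) : ∃ (d : ℂ) (t : ℝ), ‖d‖ = 1 ∧
    (∀ z ∈ A, ip z d ≤ t) ∧ (∀ z ∈ B, t ≤ ip z d) := by
  obtain ⟨f, t, hf, h1, h2⟩ := h
  set D : ℂ := ⟨f 1, f I⟩ with hD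
  have hfD : ∀ z, f z = ip z D := by
    intro z
    have e : z = z.re • (1 : ℂ) + z.im • I := by
      rw [real_smul, real_smul, mul_one]
      exact (re_add_im z).symm
    conv_lhs => rw [e, map_add, map_smul, map_smul]
    simp [ip, hD]
  have hD0 : D ≠ 0 := by
    intro hc
    apply hf
    ext z
    rw [hfD, hc]
    simp [ip]
  have hn : 0 < ‖D‖ := norm_pos_iff.2 hD0
  have hip : ∀ z, ip z (((‖D‖⁻¹ : ℝ) : ℂ) * D) = ‖D‖⁻¹ * f z := by
    intro z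
    rw [ip_smul_right, hfD]
  refine ⟨((‖D‖⁻¹ : ℝ) : ℂ) * D, ‖D‖⁻¹ * t, ?_, ?_, ?_⟩
  · rw [norm_mul, norm_real, Real.norm_eq_abs, abs_of_pos (inv_pos.2 hn), inv_mul_cancel₀ hn.ne']
  · intro z hz
    rw [hip]
    exact mul_le_mul_of_nonneg_left (h1 z hz) (inv_pos.2 hn).le
  · intro z hz
    rw [hip]
    exact mul_le_mul_of_nonneg_left (h2 z hz) (inv_pos.2 hn).le

/-- figures of constant width have no room for two larger copies -/
theorem cw_not_two {F : Set ℂ} (hF : IsConvexFigure F) (h : ConstantWidth F) : ¬ Two F := by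
  obtain ⟨w, hw⟩ := h
  rintro ⟨l, A, B, hl, ⟨g1, rfl⟩, ⟨g2, rfl⟩, hA, hB, hs⟩
  obtain ⟨d, t, hd, h1, h2⟩ := sep_unit hs
  have key : ∀ g : ℂ ≃ᵢ ℂ, ∃ p ∈ F, ∃ q ∈ F, ip (g (l • p)) d - ip (g (l • q)) d = l * w := by
    intro g
    obtain ⟨e, he, hg⟩ := iso_dir g hd
    obtain ⟨p, hp, k1⟩ := exists_top hF e
    obtain ⟨q, hq, k2⟩ := exists_bot hF e
    refine ⟨p, hp, q, hq, ?_⟩
    rw [hg (l • p), hg (l • q), real_smul, real_smul, ip_smul_left, ip_smul_left]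
    have := width_eq hp hq k1 k2
    rw [hw e he] at this
    rw [this]
    ring
  obtain ⟨p1, hp1, q1, hq1, e1⟩ := key g1
  obtain ⟨p2, hp2, q2, hq2, e2⟩ := key g2
  have m1 : g1 (l • q1) ∈ F := hA ⟨_, ⟨q1, hq1, rfl⟩, rfl⟩
  have m2 : g2 (l • p2) ∈ F := hB ⟨_, ⟨p2, hp2, rfl⟩, rfl⟩
  have k1 := h1 (g1 (l • p1)) ⟨_, ⟨p1, hp1, rfl⟩, rfl⟩
  have k2 := h2 (g2 (l • q2)) ⟨_, ⟨q2, hq2, rfl⟩, rfl⟩
  have k3 := width_le hF m2 m1 (d := d)
  have k4 := width_pos hF hd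
  rw [hw d hd] at k3 k4
  nlinarith

end Pool.Agent.H45.TC
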