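import Pool.Agent.H45.TC.Defs

set_option autoImplicit false

/-!
# Kinds of figures
-/

namespace Pool.Agent.H45.TC

/-- `F` is a regular polygon. -/
def IsRegular (F : Set ℂ) : Prop := ∃ (n : ℕ) (z w : ℂ), 3 ≤ n ∧ w ≠ 0 ∧ F = RegPoly n z w

/-- `F` is a disc. -/
def IsDisc (F : Set ℂ) : Prop := ∃ (z : ℂ) (r : ℝ), 0 < r ∧ F = Metric.closedBall z r

/-- `F` is symmetric about some point `c`. -/
def CentrallySymmetric (F : Set ℂ) : Prop := ∃ c : ℂ, ∀ x ∈ F, 2 * c - x ∈ F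

end Pool.Agent.H45.TC
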