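import Pool.Agent.H45.TC.PPlus

set_option autoImplicit false

/-!
# The mirror image
-/

namespace Pool.Agent.H45.TC

open Pool.Agent.H90.Clone Pool.Agent.H21.Tri Pool.Agent.H50.CP Complex Set Pointwise

/-- the mirror image -/
noncomputable def cj (K : Set ℂ) : Set ℂ := refl 1 0 norm_one '' K

lemma cj_fig {K : Set ℂ} (hK : IsConvexFigure K) : IsConvexFigure (cj K) :=
  fig_image hK _

private lemma refl_one (z : ℂ) : refl 1 0 norm_one z = (starRingEnd ℂ) z := by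
  rw [refl_apply, one_mul, add_zero]

private lemma mem_cj {K : Set ℂ} {x : ℂ} : x ∈ cj K ↔ (starRingEnd ℂ) x ∈ K := by
  unfold cj
  constructor
  · rintro ⟨y, hy, rfl⟩
    rw [refl_one, Complex.conj_conj]
    exact hy
  · intro h
    refine ⟨(starRingEnd ℂ) x, h, ?_⟩
    rw [refl_one, Complex.conj_conj]

private lemma ip_cj_ex (x : ℂ) (θ : ℝ) :
    ip ((starRingEnd ℂ) x) (ex (-θ)) = ip x (ex θ) := by
  rw [ip_ex, ip_ex, Complex.conj_re, Complex.conj_im, Real.cos_neg, Real.sin_neg]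
  ring

private lemma ip_cj_Iex (x : ℂ) (θ : ℝ) :
    ip ((starRingEnd ℂ) x) (I * ex (-θ)) = -ip x (I * ex θ) := by
  rw [ip_Iex, ip_Iex, Complex.conj_re, Complex.conj_im, Real.cos_neg, Real.sin_neg]
  ring

lemma cj_sym {K : Set ℂ} (hs : CSym K) : CSym (cj K) := by
  intro x hx
  rw [mem_cj] at hx ⊢
  rw [map_neg]
  exact hs _ hx

lemma cj_two {K : Set ℂ} (hK : IsConvexFigure K) (h : ¬ Two K) : ¬ Two (cj K) :=
  fun h2 => h (two_image hK (refl 1 0 norm_one) h2)

lemma cj_cj (K : Set ℂ) : cj (cj K) = K := by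
  ext x
  rw [mem_cj, mem_cj, Complex.conj_conj]

lemma cj_top {K : Set ℂ} {θ : ℝ} {p : ℂ} : Top (cj K) (-θ) ((starRingEnd ℂ) p) ↔ Top K θ p := by
  unfold Top
  rw [mem_cj, Complex.conj_conj]
  refine and_congr_right fun _ => ?_
  constructor
  · intro h x hx
    have h1 := h ((starRingEnd ℂ) x) (mem_cj.2 (by rw [Complex.conj_conj]; exact hx))
    rwa [ip_cj_ex, ip_cj_ex] at h1
  · intro h x hx
    have h1 := h _ (mem_cj.1 hx)
    have h2 := ip_cj_ex ((starRingEnd ℂ) x) θ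
    rw [Complex.conj_conj] at h2
    rw [ip_cj_ex, h2]
    exact h1

lemma cj_first {K : Set ℂ} {θ : ℝ} {p : ℂ} :
    First (cj K) (-θ) ((starRingEnd ℂ) p) ↔ Last K θ p := by
  unfold First Last
  rw [cj_top]
  refine and_congr_right fun _ => ?_
  constructor
  · intro h f hf
    have h1 := h ((starRingEnd ℂ) f) (cj_top.2 hf)
    rw [ip_cj_Iex, ip_cj_Iex] at h1
    linarith
  · intro h f hf
    have h2 : Top K θ ((starRingEnd ℂ) f) := by
      rw [← cj_top, Complex.conj_conj]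
      exact hf
    have h1 := h _ h2
    have h3 := ip_cj_Iex ((starRingEnd ℂ) f) θ
    rw [Complex.conj_conj] at h3
    rw [ip_cj_Iex, h3]
    linarith

lemma cj_last {K : Set ℂ} {θ : ℝ} {p : ℂ} :
    Last (cj K) (-θ) ((starRingEnd ℂ) p) ↔ First K θ p := by
  unfold First Last
  rw [cj_top]
  refine and_congr_right fun _ => ?_
  constructor
  · intro h f hf
    have h1 := h ((starRingEnd ℂ) f) (cj_top.2 hf)
    rw [ip_cj_Iex, ip_cj_Iex] at h1
    linarith
  · intro h f hf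
    have h2 : Top K θ ((starRingEnd ℂ) f) := by
      rw [← cj_top, Complex.conj_conj]
      exact hf
    have h1 := h _ h2
    have h3 := ip_cj_Iex ((starRingEnd ℂ) f) θ
    rw [Complex.conj_conj] at h3
    rw [ip_cj_Iex, h3]
    linarith

lemma cj_ip_I (p : ℂ) (θ : ℝ) : ip ((starRingEnd ℂ) p) (I * ex (-θ)) = -ip p (I * ex θ) :=
  ip_cj_Iex p θ

theorem pminus {K : Set ℂ} (hK : IsConvexFigure K) (hs : CSym K) (h2 : ¬ Two K) {θ : ℝ} {q : ℂ}
    (hq : Last K θ q) (ht : ip q (I * ex θ) < 0) :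
    ∃ (b : ℝ) (q2 : ℂ), θ < b ∧ b < θ + Real.pi / 2 ∧ Top K b q ∧ Last K b q2 ∧
      0 ≤ ip (q + q2) (I * ex b) := by
  have h1 : First (cj K) (-θ) ((starRingEnd ℂ) q) := cj_first.2 hq
  have h3 : 0 < ip ((starRingEnd ℂ) q) (I * ex (-θ)) := by
    rw [cj_ip_I]
    linarith
  obtain ⟨a, p1, ha, hb, hT, hF, hi⟩ := pplus (cj_fig hK) (cj_sym hs) (cj_two hK h2) h1 h3
  refine ⟨-a, (starRingEnd ℂ) p1, by linarith, by linarith, ?_, ?_, ?_⟩
  · rw [← cj_top, neg_neg]
    exact hT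
  · rw [← cj_first, neg_neg, Complex.conj_conj]
    exact hF
  · have h4 := cj_ip_I (q + (starRingEnd ℂ) p1) (-a)
    rw [neg_neg, map_add, Complex.conj_conj] at h4
    linarith

end Pool.Agent.H45.TC
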