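import Pool.Agent.H45.TC.Ang
import Pool.Agent.H50.CP.Rot

set_option autoImplicit false

/-!
# The first order condition at a corner
-/

namespace Pool.Agent.H45.TC

open Pool.Agent.H90.Clone Pool.Agent.H21.Tri Pool.Agent.H50.CP Complex Set Pointwise

private lemma PPlus_I (a b : ℂ) : ip (I * a) b = -ip a (I * b) := by
  simp only [ip, mul_re, mul_im, I_re, I_im]
  ring

theorem pplus {K : Set ℂ} (hK : IsConvexFigure K) (hs : CSym K) (h2 : ¬ Two K) {θ : ℝ} {p : ℂ}
    (hp : First K θ p) (ht : 0 < ip p (I * ex θ)) :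
    ∃ (a : ℝ) (p1 : ℂ), a < θ ∧ θ < a + Real.pi / 2 ∧ Top K a p ∧ First K a p1 ∧
      ip (p + p1) (I * ex a) ≤ 0 := by
  have hpi := Real.pi_pos
  obtain ⟨z, r, hr, hz, hin⟩ := exists_inner hK
  set u := p - z with hu
  obtain ⟨υ, hυ, hυ1, hυ2⟩ := exists_pol u θ
  have hcos : ∀ s : ℝ, Top K s p → 0 < Real.cos (υ - s) := by
    intro s h
    have h1 := hin p s h
    rw [← hu, hυ, ip_pol] at h1
    have h3 : 0 < ‖u‖ * Real.cos (υ - s) := lt_of_lt_of_le hr h1
    exact pos_of_mul_pos_right h3 (norm_nonneg u)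
  have hnear : ∀ s : ℝ, υ - Real.pi ≤ s → s ≤ υ + Real.pi → Top K s p →
      υ - Real.pi / 2 < s ∧ s < υ + Real.pi / 2 := by
    intro s h1 h3 h4
    have h5 := hcos s h4
    constructor
    · by_contra hc
      push Not at hc
      have := Real.cos_nonpos_of_pi_div_two_le_of_le (show Real.pi / 2 ≤ υ - s by linarith)
        (by linarith)
      linarith
    · by_contra hc
      push Not at hc
      have := Real.cos_nonpos_of_pi_div_two_le_of_le (show Real.pi / 2 ≤ s - υ by linarith)
        (by linarith)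
      rw [← Real.cos_neg, neg_sub] at this
      linarith
  have hθ := hnear θ (by linarith) (by linarith) hp.1
  set S : Set ℝ := {s | Top K s p} ∩ Icc (υ - Real.pi / 2) (υ + Real.pi / 2) with hS
  have hSc : IsCompact S := isCompact_Icc.inter_left (top_closed K p)
  have hSne : S.Nonempty := ⟨θ, hp.1, hθ.1.le, hθ.2.le⟩
  set a := sInf S with ha
  have haS : a ∈ S := hSc.sInf_mem hSne
  have haT : Top K a p := haS.1
  have haθ : a ≤ θ := csInf_le hSc.bddBelow ⟨hp.1, hθ.1.le, hθ.2.le⟩
  have hamin : ∀ s : ℝ, υ - Real.pi < s → s ≤ υ + Real.pi → Top K s p → a ≤ s ∧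
      s < a + Real.pi := by
    intro s h1 h3 h4
    have h5 := hnear s h1.le h3 h4
    have h6 := hnear a (by linarith [haS.2.1]) (by linarith [haS.2.2]) haT
    exact ⟨csInf_le hSc.bddBelow ⟨h4, h5.1.le, h5.2.le⟩, by linarith⟩
  have haπ := (hamin θ (by linarith) (by linarith) hp.1).2
  obtain ⟨p1, hp1⟩ := first_exists hK a
  have hl := hp1.2 p haT
  -- the main claim
  have hmain : ip (p + p1) (I * ex a) ≤ 0 := by
    by_contra hcon
    push Not at hcon
    rw [ip_add_left] at hcon
    set t2 := ip p (I * ex a) with ht2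
    set t1 := ip p1 (I * ex a) with ht1
    have hua : 0 < ip u (ex a) := lt_of_lt_of_le hr (hin p a haT)
    set m := ((t2 - t1) / 2 + t2) / 2 with hm
    have hm1 : (t2 - t1) / 2 < m := by rw [hm]; linarith
    have hm2 : m < t2 := by rw [hm]; linarith
    have hm0 : 0 < m := by linarith
    set c : ℂ := ((m / ip u (ex a) : ℝ) : ℂ) * u with hc
    have hκ : 0 < m / ip u (ex a) := div_pos hm0 hua
    have hca : ip c (ex a) = m := by
      rw [hc, ip_smul_left]
      field_simp
    -- the direction
    obtain ⟨θ', hθ', hθ'2⟩ : ∃ θ' : ℝ, First K θ' p ∧ ip c (ex θ') < ip p (I * ex θ') := by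
      rcases eq_or_lt_of_le haθ with hE | hE
      · refine ⟨θ, hp, ?_⟩
        rw [← hE, hca]
        exact hm2
      · have hcont : Continuous fun s : ℝ => ip p (I * ex s) - ip c (ex s) :=
          (ip_cont_ang_I p).sub (ip_cont_ang c)
        have hpos : 0 < ip p (I * ex a) - ip c (ex a) := by rw [hca]; linarith
        have hev : ∀ᶠ s in nhds a, 0 < ip p (I * ex s) - ip c (ex s) :=
          hcont.continuousAt.eventually (lt_mem_nhds hpos)
        obtain ⟨δ, hδ, H⟩ := Metric.eventually_nhds_iff.mp hev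
        set θ' := min θ (a + δ / 2) with hθ'
        have h3 : a < θ' := lt_min hE (by linarith)
        have h4 : θ' ≤ θ := min_le_left _ _
        have h5 : θ' ≤ a + δ / 2 := min_le_right _ _
        have hT : Top K θ' p := haT.cone hp.1 h3.le h4 haπ
        refine ⟨θ', first_of_two haT hT h3 (by linarith), ?_⟩
        have := H (y := θ') (by rw [Real.dist_eq, abs_of_pos (by linarith)]; linarith)
        linarith
    apply h2
    have hneg := top_neg hs hθ'.1
    refine rot_gain hK (p := p) (q0 := -p) (d := ex θ') (c := c) hp.1.1 hneg.1 (ex_ne θ')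
      hθ'.1.2 hneg.2 ?_ ?_
    · intro q hq hqd
      have h3 : Top K θ' (-q) := top_of_eq hθ'.1 (hs q hq) (by
        rw [ip_neg_left, hqd, ip_neg_left, neg_neg])
      have h4 := hθ'.2 _ h3
      rw [ip_neg_left] at h4
      rw [ip_sub_left]
      linarith
    · intro ν hν hνs f hf hfν
      obtain ⟨s, rfl, hs1, hs2⟩ := exists_ang hν υ
      have hT : Top K s p := ⟨hp.1.1, hνs⟩
      have hTf : Top K s f := top_of_eq hT hf hfν
      obtain ⟨h3, h4⟩ := hamin s hs1 hs2 hT
      rw [PPlus_I, ip_sub_left]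
      rcases eq_or_lt_of_le h3 with hE | hE
      · rw [← hE, hca]
        rw [← hE] at hTf
        have h5 := hp1.2 f hTf
        rw [← ht2]
        linarith
      · have h5 := (first_of_two haT hT hE h4).2 f hTf
        have h6 : 0 < ip c (ex s) := by
          rw [hc, ip_smul_left]
          exact mul_pos hκ (lt_of_lt_of_le hr (hin p s hT))
        linarith
  have haθ' : a < θ := by
    rcases eq_or_lt_of_le haθ with hE | hE
    · exfalso
      rw [hE] at hp1 hmain
      have := hp1.unique hp
      rw [this, ip_add_left] at hmain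
      linarith
    · exact hE
  refine ⟨a, p1, haθ', ?_, haT, hp1, hmain⟩
  by_contra hc
  push Not at hc
  have h3 := top_pos hK hs haT
  have h4 := top_pos hK hs hp.1
  rw [ip_ex_sub p θ a] at h3
  have h5 : Real.cos (a - θ) ≤ 0 := by
    rw [← Real.cos_neg, neg_sub]
    exact Real.cos_nonpos_of_pi_div_two_le_of_le (by linarith) (by linarith)
  have h6 : Real.sin (a - θ) < 0 := Real.sin_neg_of_neg_of_neg_pi_lt (by linarith) (by linarith)
  nlinarith [mul_nonneg (neg_nonneg.2 h5) h4.le, mul_pos (neg_pos.2 h6) ht]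

end Pool.Agent.H45.TC
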